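import Pool.Agent.Lib.MP_391708_nt.X3.SpecMT
import Pool.Agent.Lib.MP_391708_nt.X3.SpecO

/-!
# THEOREM X4 (MP_391708): the asymptotic formula for `n² + b² = p q r` in dyadic boxes

`b` almost every positive integer, `p ∈ (P, 2P]`, `q ∈ (K, 2K]`, `r ∈ (M, 2M]` primes, `N = √(8PKM)` (so `n ≤ N`), `T = N/K`,
`b² ≤ N`, `P` between powers of `log N`, `P (log N)^D ≤ T ≤ min(N^c, b/(P (log N)^D))` (such boxes exist for all `N ≤ exp(b^c')`).  The main term is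
`4(√2 - 1)³ h √(PKM)/(log P log K log M)`, `h` the constant of the problem for `a = b²` (the Bateman–Horn prediction).

Everything is built on THEOREM X3: `VAR` (`X3/Spec.lean`), `RED`, `BLX`, `AVB`, `CE3`, `SIZ`, `FLP`, `XXL`, `RRA` (`X3/SpecMT.lean`), `CSX`
(`X3/SpecO.lean`) are used as they are.  The relative error of `RED` and `BLX` is an arbitrary `δ > 0`, with exponents depending
on `δ`; so here the exponents depend on `ε`.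

Form of a module: file `X4/XXX.lean`, `import Pool.Agent.Lib.MP_391708_nt.X4.Spec`, `set_option autoImplicit false`, namespace
`Pool.Agent.Lib.MP391708.X4`, own lemmas in the namespace `XXXM`, `theorem specXXX (hYYY : SpecYYY) .. : SpecXXX` (the hypotheses are
the Specs named in brackets, in this order).
-/

set_option autoImplicit false

namespace Pool.Agent.Lib.MP391708.X4

open Finset Filter Topology Pool.Agent.Lib.MP391708.MR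
open Pool.Agent.Lib.MP391708.X (ChiG hk Dist Fam rgh VP Ix psi ix1 UOK lc On)
open Pool.Agent.Lib.MP391708.X3
open Pool.Agent.Lib.MP391708.XL (VS PS)
open Pool.Agent.Lib.MP391708.XP (gB IsConst count)
open scoped ComplexConjugate

/-! ## Definitions -/

/-- `∑ N(π)^(-1/2)` over the split Gaussian primes of the open first quadrant with norm in `(X, 2X]` -/
noncomputable def GH (X : ℝ) : ℝ := ∑ π ∈ GP X (2 * X), 1 / Real.sqrt (nm π)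

/-- the main term, before the prime number theorem -/
noncomputable def MM (p : Par) (y : Gi) (b : ℕ) : ℝ :=
  2 / Real.pi * (VS b (PS p.w) / VP p.w) * (GH p.P * GH (p.K / nm y) * GH p.M2) / Real.sqrt (nm y)

/-- the number of `n ≥ 1` such that `n² + b² = p q r` with primes `p ∈ (P, 2P]`, `q ∈ (K, 2K]`, `r ∈ (M, 2M]` -/
noncomputable def W3 (b : ℕ) (P K M : ℝ) : ℕ :=
  Set.ncard {n : ℕ | 1 ≤ n ∧ ∃ p q r : ℕ, p.Prime ∧ q.Prime ∧ r.Prime ∧ P < p ∧ (p : ℝ) ≤ 2 * P ∧ K < q ∧ (q : ℝ) ≤ 2 * K ∧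
    M < r ∧ (r : ℝ) ≤ 2 * M ∧ n ^ 2 + b ^ 2 = p * q * r}

/-- the main term -/
noncomputable def mt (h P K M : ℝ) : ℝ :=
  4 * (Real.sqrt 2 - 1) ^ 3 * h * Real.sqrt (P * K * M) / (Real.log P * Real.log K * Real.log M)

/-! ## Primes -/

/-- GPA (150 lines, from X.SpecGPL).  The prime number theorem for `GH`.
Proof.  Cut `(1, 2]` into `J` pieces `(2^(j/J), 2^((j+1)/J)]`; on a piece `N(π)^(-1/2)` is `(2^(j/J) X)^(-1/2)` up to the factor `2^(-1/(2J))`, the number of primes is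
`(2^(1/J) - 1) 2^(j/J) X/log X (1 + o(1))`; the Riemann sum of `x^(-1/2)` over `[1, 2]` is `2(√2 - 1)`. -/
def SpecGPA : Prop := ∀ ε : ℝ, 0 < ε → ∀ᶠ X : ℝ in atTop,
  |GH X - 2 * (Real.sqrt 2 - 1) * (Real.sqrt X / Real.log X)| ≤ ε * (Real.sqrt X / Real.log X)

/-- HVA (300 lines, from QPA.SpecEUL, XP.SpecHGB).  The singular series.
Proof.  At a prime `p ∣ b` the factor of `h_b` and of `VS b` differ from the ones for `b = 1` by the same factor `(1 - χ(p)/(p - 1))⁻¹`, so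
`h_b/(VS_b/VP) = h_1/(VS_1/VP) · ∏_{p ∣ b, p ∉ PS w} (1 - χ(p)/(p-1))⁻¹`, and the last product is `1 + O(log b/(√w log w))` (the `p ∉ PS w` are `> √w`).  For `b = 1`:
`h_1/(VS_1/VP) = ∏_{p ≡ 1, p ≤ w} (1 - 1/p) ∏_{p ≡ 3, p² ≤ w} (1 + 1/p) · ∏_{p ∉ PS w} (1 - χ(p)/(p-1))`, and `(1 + 1/(p-1))/(1 + 1/p) = 1 + O(1/p²)`, so it is
`∏_{p ≤ w} (1 - χ(p)/p) (1 + o(1)) → 1/L(1, χ₄) = 4/π` (EUL at `a = 1`, Leibniz). -/
def SpecHVA : Prop := ∀ ε : ℝ, 0 < ε → ∃ w₀ : ℝ, ∀ w : ℝ, w₀ ≤ w → ∀ b : ℕ, 1 ≤ b → Real.log b ^ 2 ≤ w →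
  ∀ h : ℝ, IsConst b h → |4 / Real.pi * (VS b (PS w) / VP w) - h| ≤ ε * h

/-! ## The main term -/

/-- TTA (100 lines, from X3M.SpecSIZ).  The trivial character.
Proof.  `TT` is real (`MNXM.TT_eq`, `MNXM.t`), `rad = √(N(y) N(π)) e^(u/(2h)) e^(v/(2h))`; in the cell `u`: `e^(u/h) ≤ N(z) ≤ e^(u/h) e^(1/h)` (SIZ.ce for `z₁`; for `π₂` directly from
`⌊h log N(z)⌋ = v`), so `S1(u) e^(-u/(2h))` is between `∑_{z ∈ cell u} N(z)^(-1/2)` and `e^(1/(2h))` times it.  The cells partition the primes (`MNXM.cells`). -/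
def SpecTTA : Prop := X3M.EV (fun p _ _ b y => ∀ π ∈ GP p.P (2 * p.P), ∃ x : ℝ, X3M.TT p y π b ix1 = x ∧
  4 * (GH (p.K / nm y) * GH p.M2 / Real.sqrt (nm y * nm π)) ≤ x ∧
  x ≤ 4 * (GH (p.K / nm y) * GH p.M2 / Real.sqrt (nm y * nm π)) * Real.exp (1 / p.h))

/-- GSZ (150 lines, from GPA, X3M.SpecSIZ, X3M.SpecRRA, X3M.SpecXXL, XL.SpecLSM).  The sizes.
Proof.  `#GP P 2P ≤ √(2P) GH P`; by GPA (with a fixed `ε`) `GH X ≥ c √X/log X` for `X = K'`, `M2` (`log ≤ 2ℓ`); `8 K P M2 = N²` (SIZ.prod), so `1/√P = √(8 K M2)/N`: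
`MM ≥ c' (VS/VP) #GP K' M2/(N ℓ²) = c' XX` (`K' = K/N(y)`).  `XX > 0` and the last claim by XXL, `VP ≤ 1` (RRA), `VS ≥ c/log(w + 1)^4` (XL.SpecLSM, (E)), `log P ≤ 2 cP log ℓ` (`Box`), `N(1) = 1`. -/
def SpecGSZ : Prop := ∃ c : ℝ, 0 < c ∧ X3M.EV (fun p _ _ b y => 0 < MM p y b ∧ c * X3M.XX p y b ≤ MM p y b ∧
  (y = 1 → p.N / Real.log p.N ^ 5 ≤ MM p y b))

/-- FMA (200 lines, from X3M.SpecFLP, X3M.SpecRED, X3M.SpecBLX, X3M.SpecAVB, TTA, GSZ, X3M.SpecRRA, X3M.SpecSIZ).  The asymptotic main term; start from `X3/MT/FMT.lean`.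
Proof.  `c` from GSZ.  RED with `δ = ε c/8`: `m ≥ m₀`, also `C e^(-m) ≤ ε/8`.  BLX with `δ`.  The term `i = ix1`: `psi = 1`, `AV` real, `VS ≤ AV ≤ (1 + C e^(-m)) VS` (AVB: norm and real part), TTA:
`AV TT` is between `4g VS` and `(1 + C e^(-m)) e^(1/h) 4g VS`, `g = GH(K') GH(M2)/√(N(y) N(π))`, and `∑_π 4g/(2π VP) · VS = MM` (`√(N(y) N(π)) = √N(y) √N(π)`).  `h = ℓ^ch`, `ch ≥ 1`: `e^(1/h) ≤ 1 + ε/8` for `N` large
(write an `EV` lemma).  BLX: `∑_π (1/(2π VP)) δ VS Z0 ≤ δ XX ≤ (ε/8) MM`. -/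
def SpecFMA : Prop := ∀ ε : ℝ, 0 < ε → X3M.EV (fun p _ U b y => ‖sy p y b (Kap p U) - (MM p y b : ℂ)‖ ≤ ε * MM p y b)

/-! ## From the variance to the count -/

/-- CNE (250 lines).  The sum with `Eta` is the number of the `n`; start from `X3/O/CNB.lean` (the injection).
Proof.  `sy p 1 b (Eta p)` counts the `(z₁, π₃, z, π₂)` with `z₁ ∈ GP K 2K`, `π₃ ∈ GP P 2P`, `z` in the disc (`N(z) = N(π₂) ≤ 2 M2 ≤ N T`), `z` associated to `π₂ ∈ GP M2 2M2`, `Im (z₁ π₃ z) = b`, `Re > 0`; the map to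
`n = Re` is injective (`CNB.tup_inj`, with `Y = {1}`, `R = 1`: the three ranges are disjoint).  Image: `n² + b² = N(z₁) N(π₃) N(z)`.  Conversely, let `n² + b² = p q r`; the primes are different, `≥ 3`; `p ≡ 3 mod 4` would divide `n` and `b`, so
`p² ∣ n² + b²`; so all are `≡ 1 mod 4`.  `p` is not a Gaussian prime (it divides `(n + ib)(n - ib)` but not `n ± ib`, otherwise `p ∣ b`, `p ∣ n`), so `n + ib` has a Gaussian prime divisor of norm `p`, which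
may be taken in the open first quadrant; the same for `q`, `r`; the product of the three differs from `n + ib` by a unit. -/
def SpecCNE : Prop := ∀ (p : Par) (b : ℕ), 1 ≤ b → 0 < p.N → 0 < p.T → 2 ≤ p.P → 2 * p.P ≤ p.K → 2 * p.K ≤ p.M2 → 0 ≤ p.h →
  8 * p.K * p.P * p.M2 = p.N ^ 2 → 2 * p.M2 ≤ p.N * p.T → sy p 1 b (Eta p) = (W3 b p.P p.K p.M2 : ℂ)

/-- CVM (80 lines, from GPA, HVA).  From `MM` to the main term of the theorem.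
Proof.  `|GH X log X/√X - 2(√2-1)| ≤ ε'` for `X = P, K, M`, `|(4/π)(VS/VP)/h - 1| ≤ ε'`. -/
def SpecCVM : Prop := ∀ ε : ℝ, 0 < ε → ∃ x₀ : ℝ, ∀ (p : Par) (b : ℕ) (h : ℝ), x₀ ≤ p.w → x₀ ≤ p.P → x₀ ≤ p.K → x₀ ≤ p.M2 → 1 ≤ b →
  Real.log b ^ 2 ≤ p.w → IsConst b h → 0 < h →
    |MM p 1 b - mt h p.P p.K p.M2| ≤ ε * mt h p.P p.K p.M2

open scoped Classical in
/-- ONA (250 lines, from X3.SpecVAR, FMA, GSZ, CNE, CVM, X3.SpecCSX, XP.SpecHGB).  One box.  Start from `X3/O/ONE.lean`.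
Proof.  First for `ℓ^cP ≤ P ≤ ℓ^(2cP)`, `cP ≥ C₀`.  VAR with `A + 12`: `cw aU aQ aF ch0 δ0`, FMA with `ε/8`, GSZ.  `ch` = the larger, `δ` = the smaller, `≤ 1/100`.  For a box let `U` be from VAR, `D(b) = sy p 1 b (Eta - Kap U)`:
CSX with `Y = {1}`, `r = 0`: `∑_b ‖D(b)‖² ≤ 20 K Var ≤ 20 ℓ^(-A-12) B N²` (`K T = N`).  If `‖D(b)‖ ≤ (ε/8) MM` then `|W3 - MM| ≤ (ε/4) MM` (CNE, FMA), so `|W3 - mt| ≤ ε mt` (CVM with `ε/4`, `ε ≤ 1`; `log b ≤ log N`, `w = ℓ^cw ≥ ℓ²` since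
`cw ≥ 2 aQ ≥ 2`).  Otherwise `‖D(b)‖ > (ε/8) N/ℓ⁵` (GSZ): the number of these `b` is `≤ 20 ℓ^(-A-12) B N² · 64 ℓ^10/(ε² N²) ≤ B ℓ^(-A)`.
Then for `ℓ^C₀ ≤ P ≤ ℓ^(2^m C₀)` by induction on `m` (`D` = the maximum, `δ` = the minimum). -/
def SpecONA : Prop := ∀ ε : ℝ, 0 < ε → ∀ A : ℝ, 0 < A → ∃ C₀ : ℝ, ∀ C₁ : ℝ, ∃ D δ : ℝ, 0 < δ ∧ ∀ᶠ N : ℝ in atTop, ∀ T P B : ℝ,
  Real.log N ^ C₀ ≤ P → P ≤ Real.log N ^ C₁ → P * Real.log N ^ D ≤ T → T ≤ N ^ δ → T * P * Real.log N ^ D ≤ B → B ^ 2 ≤ 2 * N →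
    (((Ioc ⌊B⌋₊ ⌊2 * B⌋₊).filter (fun b => ∃ h : ℝ, 0 < h ∧ IsConst b h ∧
      ε * mt h P (N / T) (N * T / (8 * P)) < |(W3 b P (N / T) (N * T / (8 * P)) : ℝ) - mt h P (N / T) (N * T / (8 * P))|)).card : ℝ) ≤
      B * Real.log N ^ (-A)

/-- `b` and the box `(P, K, M)` satisfy the conditions with the exponents `C₀ C₁ D c`, `N = √(8PKM)` -/
structure Adm (C₀ C₁ D c : ℝ) (b : ℕ) (P K M N : ℝ) : Prop where
  N8 : N = Real.sqrt (8 * P * K * M)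
  b2 : (b : ℝ) ^ 2 ≤ N
  P1 : Real.log N ^ C₀ ≤ P
  P2 : P ≤ Real.log N ^ C₁
  T1 : P * Real.log N ^ D ≤ N / K
  T2 : N / K ≤ N ^ c
  T3 : N / K * P * Real.log N ^ D ≤ b

/-- THEOREM X4 -/
def MainX4 : Prop := ∀ A : ℕ, ∃ E : Set ℕ,
  (∀ᶠ x : ℕ in atTop, (count E x : ℝ) ≤ x / (Real.log x) ^ A) ∧
  ∀ ε : ℝ, 0 < ε → ∃ C₀ : ℝ, ∀ C₁ : ℝ, ∃ D c : ℝ, 0 < c ∧ ∃ b₀ : ℕ, ∀ b : ℕ, b₀ ≤ b → b ∉ E → ∃ h : ℝ, 0 < h ∧ IsConst b h ∧
    ∀ i j l : ℕ, ∀ N : ℝ, Adm C₀ C₁ D c b (2 ^ i) (2 ^ j) (2 ^ l) N →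
      |(W3 b (2 ^ i) (2 ^ j) (2 ^ l) : ℝ) - mt h (2 ^ i) (2 ^ j) (2 ^ l)| ≤ ε * mt h (2 ^ i) (2 ^ j) (2 ^ l)

/-- UNA (350 lines, from ONA, XP.SpecHGB).  The union over the boxes and over `ε = 1/m₁`, `C₁ = m₂`.  Start from `X3/O/UNP.lean` and `XP/O/UNP.lean`.
Proof.  For `m = (m₁, m₂)`: ONA with `ε = 1/(m₁ + 1)`, `A + 8`: `C₀(m₁)`, then `D₀, δ` for `C₁ = m₂`; `D = max(D₀, 0) + 1`, `c = δ`, `E_m` = the `b` for which some admissible box (with `C₀ C₁ D c`) fails.  A dyadic block `b ∈ (2^s, 2^(s+1)]`, `B = 2^s`: the boxes are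
indexed by `(i, j, l)`, `N = 2^((3+i+j+l)/2)`, `T = N/K`, `N T/(8P) = M` (`N² = 8PKM`).  `b² ≤ N` gives `B² ≤ 2N` and `3 + i + j + l ≥ 4 s`; `T P ℓ^D ≤ b ≤ 2B` gives `T P ℓ^D₀ ≤ B` (`ℓ ≥ 2`); finitely many boxes: `ℓ ≤ ℓ^D ≤ b` (`T, P ≥ 1`).
At most `(ν + 1)²` boxes with `i + j + l = ν`; `∑_{ν ≥ 4s - 3} (ν + 1)² B ((ν + 3)/3)^(-A-8) ≤ C B/s^(A+4)`.  Then `count_of_blocks` and `union_sets` of `XP.UNPM` (`m` coded by `Nat.pair`). -/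
def SpecUNA : Prop := SpecONA → XP.SpecHGB → MainX4

end Pool.Agent.Lib.MP391708.X4
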