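import Pool.Agent.Lib.MP_391708_nt.X3.O.CNB
import Pool.Agent.Lib.MP_391708_nt.X4.Spec

/-!
# THEOREM X4, module CNE: the exact count

The sum of `Eta` over the lines is the number of the `n ≥ 1` with `n ^ 2 + b ^ 2 = p q r`, `p ∈ (P, 2P]`, `q ∈ (K, 2K]`,
`r ∈ (M₂, 2M₂]` primes.
-/

set_option autoImplicit false

namespace Pool.Agent.Lib.MP391708.X4

open Finset Pool.Agent.Lib.MP391708.MR
open Pool.Agent.Lib.MP391708.X (Ix lc On cnt PrK YOK)
open Pool.Agent.Lib.MP391708.X3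

/-- the set of the `n ≥ 1` -/
def CNEM.W3S (b : ℕ) (P K M : ℝ) : Set ℕ := {n : ℕ | 1 ≤ n ∧ ∃ p q r : ℕ, p.Prime ∧ q.Prime ∧ r.Prime ∧ P < p ∧
  (p : ℝ) ≤ 2 * P ∧ K < q ∧ (q : ℝ) ≤ 2 * K ∧ M < r ∧ (r : ℝ) ≤ 2 * M ∧ n ^ 2 + b ^ 2 = p * q * r}

namespace CNEM

/-- every Gaussian integer whose norm is an odd prime has an associate in the open first quadrant -/
lemma quad {z : Gi} (h : (nm z).Prime) : ∃ w : Gi, Associated w z ∧ 0 < w.re ∧ 0 < w.im := by
  have hre : z.re ≠ 0 := by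
    intro h0
    have h1 : nm z = z.im.natAbs ^ 2 := by
      have := nm_cast z
      rw [h0] at this
      zify
      rw [this]; simp
    rw [h1] at h
    exact Nat.Prime.not_prime_pow (le_refl 2) h
  have him : z.im ≠ 0 := by
    intro h0
    have h1 : nm z = z.re.natAbs ^ 2 := by
      have := nm_cast z
      rw [h0] at this
      zify
      rw [this]; simp
    rw [h1] at h
    exact Nat.Prime.not_prime_pow (le_refl 2) h
  have hu : ∀ u : Gi, nm u = 1 → Associated (z * u) z := by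
    intro u hu
    exact (associated_mul_isUnit_left_iff (isUnit_iff_nm.2 hu)).2 (Associated.refl z) |>.trans (Associated.refl z)
  rcases lt_or_gt_of_ne hre with h3 | h3 <;> rcases lt_or_gt_of_ne him with h4 | h4
  · refine ⟨z * ⟨-1, 0⟩, hu _ (by simp [nm]), ?_, ?_⟩ <;> simp <;> omega
  · refine ⟨z * ⟨0, -1⟩, hu _ (by simp [nm]), ?_, ?_⟩ <;> simp <;> omega
  · refine ⟨z * ⟨0, 1⟩, hu _ (by simp [nm]), ?_, ?_⟩ <;> simp <;> omega
  · exact ⟨z, Associated.refl z, h3, h4⟩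

lemma mul_star (w : Gi) : w * star w = ((nm w : ℕ) : Gi) := by
  have h : ((nm w : ℕ) : ℤ) = Zsqrtd.norm w := by
    rw [nm_norm, Int.natAbs_of_nonneg (GaussianInt.norm_nonneg w)]
  rw [← Zsqrtd.norm_eq_mul_conj w, ← h, Int.cast_natCast]

/-- a prime `p > 2` which divides the norm of `w` exactly once is the norm of a prime of the first quadrant dividing `w` -/
lemma split {p : ℕ} (hp : p.Prime) (hp2 : 2 < p) {w : Gi} (h1 : p ∣ nm w) (h2 : ¬ p ^ 2 ∣ nm w) :
    ∃ z : Gi, 0 < z.re ∧ 0 < z.im ∧ nm z = p ∧ p % 4 = 1 ∧ z ∣ w := by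
  have := Fact.mk hp
  have hw := mul_star w
  have hd : (p : Gi) ∣ w * star w := by
    rw [hw]
    exact_mod_cast (Nat.cast_dvd_cast h1 : ((p : ℕ) : Gi) ∣ ((nm w : ℕ) : Gi))
  have hnp : ¬ Prime (p : Gi) := by
    intro hpp
    have h5 : (p : Gi) ∣ w := by
      rcases hpp.dvd_or_dvd hd with h6 | h6
      · exact h6
      · obtain ⟨c, hc⟩ := h6
        refine ⟨star c, ?_⟩
        have := congrArg star hc
        rw [star_star] at this
        rw [this]
        simp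
    have h6 := nm_dvd h5
    have h7 : nm (p : Gi) = p ^ 2 := by
      simp [nm]
    rw [h7] at h6
    exact h2 h6
  have hmod : p % 4 ≠ 3 := fun h => hnp ((GaussianInt.prime_iff_mod_four_eq_three_of_nat_prime p).2 h)
  have hmod1 : p % 4 = 1 := by
    have h5 : p % 2 = 1 := by
      rcases hp.eq_two_or_odd with h6 | h6
      · omega
      · exact h6
    omega
  obtain ⟨x, y, hxy⟩ := Nat.Prime.sq_add_sq (p := p) (by omega)
  set ρ : Gi := ⟨x, y⟩ with hρ
  have hnm : nm ρ = p := by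
    have := nm_cast ρ
    rw [hρ] at this ⊢
    simp only at this
    zify
    rw [this]
    exact_mod_cast hxy
  have hρp : Prime ρ := prime_of_nm_prime (by rw [hnm]; exact hp)
  have hρd : ρ ∣ (p : Gi) := by
    refine ⟨star ρ, ?_⟩
    rw [mul_star ρ, hnm]
  have hex : ∃ ρ' : Gi, nm ρ' = p ∧ ρ' ∣ w := by
    rcases hρp.dvd_or_dvd (hρd.trans hd) with h6 | h6
    · exact ⟨ρ, hnm, h6⟩
    · refine ⟨star ρ, ?_, ?_⟩
      · rw [← hnm]
        simp [nm]
      · obtain ⟨c, hc⟩ := h6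
        refine ⟨star c, ?_⟩
        have := congrArg star hc
        rw [star_star] at this
        rw [this]
        simp [mul_comm]
  obtain ⟨ρ', hn', hd'⟩ := hex
  obtain ⟨z, hz1, hz2, hz3⟩ := quad (z := ρ') (by rw [hn']; exact hp)
  exact ⟨z, hz2, hz3, by rw [CNBM.nm_ass hz1, hn'], hmod1, hz1.dvd.trans hd'⟩

open CNBM in
/-- the surjection -/
lemma surj {p : Par} (hN : 0 < p.N) (hT : 0 < p.T) (hP : 2 ≤ p.P) (hPK : 2 * p.P ≤ p.K) (hKM : 2 * p.K ≤ p.M2)
    {b n : ℕ} (hn : n ∈ W3S b p.P p.K p.M2) : ∃ z₁ π₃ z π₂ : Gi, Tup p {1} b 1 z₁ π₃ z π₂ ∧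
      z ∈ disc (p.N * p.T) ∧ ((z₁ * π₃ * z).re).toNat = n := by
  obtain ⟨hn1, p', q, r, hp, hq, hr, p1, p2, q1, q2, r1, r2, e⟩ := hn
  set w : Gi := ⟨n, b⟩ with hw
  have hnw : nm w = p' * q * r := by
    rw [← e]
    exact nm_re_im rfl rfl
  have l1 : 2 < p' := by
    have : (2 : ℝ) < p' := by linarith
    exact_mod_cast this
  have l2 : p' < q := by
    have : (p' : ℝ) < q := by linarith
    exact_mod_cast this
  have l3 : q < r := by
    have : (q : ℝ) < r := by linarith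
    exact_mod_cast this
  have ne : ∀ {a c : ℕ}, a.Prime → c.Prime → a ≠ c → ¬ a ∣ c := by
    intro a c ha hc hne hd
    exact hne ((Nat.prime_dvd_prime_iff_eq ha hc).1 hd)
  -- exact division
  have ex : ∀ {a c d : ℕ}, a.Prime → c.Prime → d.Prime → a ≠ c → a ≠ d → nm w = a * (c * d) →
      a ∣ nm w ∧ ¬ a ^ 2 ∣ nm w := by
    intro a c d ha hc hd h1 h2 h3
    refine ⟨⟨_, h3⟩, fun h4 => ?_⟩
    rw [h3, pow_two] at h4
    have h5 := Nat.dvd_of_mul_dvd_mul_left ha.pos h4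
    rcases (ha.dvd_mul).1 h5 with h6 | h6
    · exact ne ha hc h1 h6
    · exact ne ha hd h2 h6
  obtain ⟨a1, a2⟩ := ex hp hq hr (by omega) (by omega) (by rw [hnw]; ring)
  obtain ⟨b1, b2⟩ := ex hq hp hr (by omega) (by omega) (by rw [hnw]; ring)
  obtain ⟨c1, c2⟩ := ex hr hp hq (by omega) (by omega) (by rw [hnw]; ring)
  obtain ⟨π₃, x1, x2, x3, x4, x5⟩ := split hp l1 a1 a2
  obtain ⟨z₁, y1, y2, y3, y4, y5⟩ := split hq (by omega) b1 b2
  obtain ⟨π₂, t1, t2, t3, t4, t5⟩ := split hr (by omega) c1 c2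
  have pp3 : Prime π₃ := prime_of_nm_prime (by rw [x3]; exact hp)
  have pp1 : Prime z₁ := prime_of_nm_prime (by rw [y3]; exact hq)
  have pp2 : Prime π₂ := prime_of_nm_prime (by rw [t3]; exact hr)
  -- the product divides `w`
  have g1 : z₁ * π₃ ∣ w := by
    obtain ⟨c, hc⟩ := y5
    have h5 : π₃ ∣ z₁ * c := by rw [← hc]; exact x5
    rcases pp3.dvd_or_dvd h5 with h6 | h6
    · exfalso
      have := nm_dvd h6
      rw [x3, y3] at this
      exact ne hp hq (by omega) this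
    · rw [hc]; exact mul_dvd_mul_left z₁ h6
  obtain ⟨z, hz⟩ := g1
  have hzd : π₂ ∣ z := by
    have h5 : π₂ ∣ z₁ * π₃ * z := by rw [← hz]; exact t5
    rcases pp2.dvd_or_dvd h5 with h6 | h6
    · exfalso
      have := nm_dvd h6
      rw [nm_mul, t3, x3, y3] at this
      rcases (hr.dvd_mul).1 this with h7 | h7
      · exact ne hr hq (by omega) h7
      · exact ne hr hp (by omega) h7
    · exact h6
  have hnz : nm z = r := by
    have h5 := hnw
    rw [hz, nm_mul, nm_mul, y3, x3] at h5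
    have h6 : (q * p') * nm z = (q * p') * r := by rw [h5]; ring
    exact Nat.eq_of_mul_eq_mul_left (Nat.mul_pos hq.pos hp.pos) h6
  have hass : Associated π₂ z := by
    obtain ⟨u, hu⟩ := hzd
    have h5 : nm u = 1 := by
      have h6 := congrArg nm hu
      rw [nm_mul, hnz, t3] at h6
      have h7 : r * nm u = r * 1 := by rw [mul_one]; exact h6.symm
      exact Nat.eq_of_mul_eq_mul_left hr.pos h7
    rw [hu]
    exact ⟨(isUnit_iff_nm.2 h5).unit, rfl⟩
  have hP0 : 0 < p.P := by linarith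
  have hM2 : p.M2 = p.N * p.T / (8 * p.P) := rfl
  have hzn : z ≠ 0 := by
    intro h0
    rw [h0, nm_zero] at hnz
    exact hr.ne_zero hnz.symm
  refine ⟨z₁, π₃, z, π₂, ⟨by simp, ?_, ?_, ?_, hass, ?_, ?_⟩, ?_, ?_⟩
  · rw [mem_GP]
    refine ⟨y1, y2, by rw [y3]; exact hq, by rw [y3]; exact y4, ?_, ?_⟩ <;> rw [y3] <;> simp [nm_one] <;> assumption
  · rw [mem_GP]
    exact ⟨x1, x2, by rw [x3]; exact hp, by rw [x3]; exact x4, by rw [x3]; exact p1, by rw [x3]; exact p2⟩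
  · rw [mem_GP]
    exact ⟨t1, t2, by rw [t3]; exact hr, by rw [t3]; exact t4, by rw [t3]; exact r1, by rw [t3]; exact r2⟩
  · rw [one_mul, ← hz]
  · rw [one_mul, ← hz, hw]
    simp
    omega
  · rw [mem_disc]
    refine ⟨hzn, ?_⟩
    rw [hnz]
    refine r2.trans ?_
    rw [hM2]
    have h5 : p.N * p.T / (8 * p.P) ≤ p.N * p.T / 2 := by
      apply div_le_div_of_nonneg_left (by positivity) (by norm_num) (by linarith)
    linarith
  · rw [← hz, hw]
    simp

end CNEM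

open CNBM CNEM in
theorem specCNE : SpecCNE := by
  intro p b _ hN hT hP hPK hKM hh _ _
  classical
  have hP0 : 0 < p.P := by linarith
  have hK0 : 0 < p.K := by linarith
  have hM0 : 0 < p.M2 := by linarith
  have e1 : sy p 1 b (Eta p) = ((∑ z₁ ∈ GP (p.K / nm 1) (2 * p.K / nm 1), ∑ π ∈ GP p.P (2 * p.P),
        ∑ z ∈ (disc (p.N * p.T)).filter (On (1 * z₁ * π) b), EtaN p z : ℕ) : ℂ) := by
    unfold sy ls
    push_cast
    simp only [Eta_eq]
  rw [e1]
  have hW : W3 b p.P p.K p.M2 = (W3S b p.P p.K p.M2).ncard := rfl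
  rw [hW]
  norm_cast
  set S : Finset (Σ _ : Gi, Σ _ : Gi, Σ _ : Gi, Σ _ : ℕ, Gi) :=
    (GP (p.K / nm 1) (2 * p.K / nm 1)).sigma fun z₁ => (GP p.P (2 * p.P)).sigma fun π =>
      ((disc (p.N * p.T)).filter (On (1 * z₁ * π) b)).sigma fun z => (I2 p).sigma fun v2 =>
        ((cell p.h p.M2 (2 * p.M2) v2).filter (fun π => Associated π z)) with hS
  have e2 : (∑ z₁ ∈ GP (p.K / nm 1) (2 * p.K / nm 1), ∑ π ∈ GP p.P (2 * p.P),
        ∑ z ∈ (disc (p.N * p.T)).filter (On (1 * z₁ * π) b), EtaN p z) = S.card := by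
    rw [hS]
    simp only [card_sigma]
    rfl
  rw [e2]
  have hY : YLK 0 1 ({1} : Finset Gi) := by
    refine ⟨?_, ?_, ?_, ?_⟩
    · intro y hy; rw [mem_singleton.1 hy, nm_one]; exact squarefree_one
    · intro y hy; rw [mem_singleton.1 hy, nm_one]; simp
    · intro y hy; rw [mem_singleton.1 hy, nm_one]; simp
    · intro y hy y' hy' _; rw [mem_singleton.1 hy, mem_singleton.1 hy']
  have hR : ROK p 1 (2 * p.P) (2 * p.K) := ⟨hN.le, hT, hP0, by linarith, le_refl _, by linarith, le_refl _, hKM⟩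
  have facts : ∀ x ∈ S, Tup p {1} b 1 x.1 x.2.1 x.2.2.1 x.2.2.2.2 ∧
      ⌊p.h * Real.log (nm x.2.2.2.2)⌋₊ = x.2.2.2.1 := by
    rintro ⟨z₁, π, z, v2, q₂⟩ hx
    rw [hS] at hx
    simp only [mem_sigma, mem_filter] at hx
    obtain ⟨h1, h3, ⟨hz, hOn⟩, hv2, h2, has⟩ := hx
    unfold cell at h2
    rw [mem_filter] at h2
    exact ⟨⟨by simp, h1, h3, h2.1, has, hOn.1, hOn.2⟩, h2.2⟩
  set f : (Σ _ : Gi, Σ _ : Gi, Σ _ : Gi, Σ _ : ℕ, Gi) → ℕ := fun x => ((1 * x.1 * x.2.1 * x.2.2.1).re).toNat with hf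
  have hinj : Set.InjOn f S := by
    intro x hx x' hx' hxx
    obtain ⟨t, f2⟩ := facts x hx
    obtain ⟨t', f2'⟩ := facts x' hx'
    have hre := t.re
    have hre' := t'.re
    have h9 : (1 * x.1 * x.2.1 * x.2.2.1).re = (1 * x'.1 * x'.2.1 * x'.2.2.1).re := by
      simp only [hf] at hxx
      omega
    obtain ⟨a1, a2, a3, a4, a6⟩ := tup_inj 0 b _ _ 1 (2 * p.P) (2 * p.K) {1} hY hR hR t t' h9
    obtain ⟨z₁, π, z, v2, q₂⟩ := x
    obtain ⟨z₁', π', z', v2', q₂'⟩ := x'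
    simp only at a2 a3 a4 a6 f2 f2'
    subst a2 a3 a4 a6 f2 f2'
    rfl
  have himg : ((S.image f : Finset ℕ) : Set ℕ) = W3S b p.P p.K p.M2 := by
    ext n
    rw [mem_coe, mem_image]
    constructor
    · rintro ⟨x, hx, rfl⟩
      obtain ⟨⟨hy, h1, h3, h2, as, him, hre⟩, -⟩ := facts x hx
      have m1 := (mem_GP.1 h1).2.2
      have m3 := (mem_GP.1 h3).2.2
      have m2 := (mem_GP.1 h2).2.2
      have hn : (1 * x.1 * x.2.1 * x.2.2.1).re = (((1 * x.1 * x.2.1 * x.2.2.1).re.toNat : ℕ) : ℤ) :=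
        (Int.toNat_of_nonneg (by omega)).symm
      have hnm := nm_re_im him hn
      refine ⟨by simp only [hf]; omega, nm x.2.1, nm x.1, nm x.2.2.2.2, m3.1, m1.1, m2.1, m3.2.2.1, m3.2.2.2, ?_, ?_,
        m2.2.2.1, m2.2.2.2, ?_⟩
      · have h5 := m1.2.2.1
        simpa [nm_one] using h5
      · have h5 := m1.2.2.2
        simpa [nm_one] using h5
      · simp only [hf]
        rw [← hnm, nm_mul, nm_mul, nm_mul, nm_one, nm_ass as]
        ring
    · intro hn
      obtain ⟨z₁, π₃, z, π₂, t, hz, hre⟩ := surj hN hT hP hPK hKM hn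
      refine ⟨⟨z₁, π₃, z, ⌊p.h * Real.log (nm π₂)⌋₊, π₂⟩, ?_, by simp only [hf, one_mul]; exact hre⟩
      rw [hS]
      simp only [mem_sigma, mem_filter]
      refine ⟨t.h1, t.h3, ⟨hz, t.im, t.re⟩, ?_, ?_, t.as⟩
      · have m2 := (mem_GP.1 t.h2).2.2.2.2
        unfold I2 VV
        rw [mem_Icc]
        exact ⟨Nat.floor_mono (mul_le_mul_of_nonneg_left (Real.log_le_log hM0 m2.1.le) hh),
          Nat.floor_mono (mul_le_mul_of_nonneg_left (Real.log_le_log (hM0.trans m2.1) m2.2) hh)⟩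
      · unfold cell
        rw [mem_filter]
        exact ⟨t.h2, rfl⟩
  rw [← himg, Set.ncard_coe_finset, card_image_of_injOn hinj]

end Pool.Agent.Lib.MP391708.X4
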