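import Pool.Agent.Lib.MP_391708_nt.X4.SpecK
import Pool.Agent.Lib.MP_391708_nt.X4.CNE

/-!
# THEOREM X4, module CNK: the exact count for `k = r + 3 ≥ 3`

The sum of `Eta` over the lines and over the outer factors `y` is the number of the `n ≥ 1` with `n ^ 2 + b ^ 2 = s_1 ⋯ s_r p q t`.
-/

set_option autoImplicit false

namespace Pool.Agent.Lib.MP391708.X4

open Finset Pool.Agent.Lib.MP391708.MR
open Pool.Agent.Lib.MP391708.X (Ix lc On cnt PrK YOK)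
open Pool.Agent.Lib.MP391708.X3

namespace CNKM

lemma nm_prod {ι : Type} (t : Finset ι) (f : ι → Gi) : nm (∏ i ∈ t, f i) = ∏ i ∈ t, nm (f i) := by
  classical
  induction t using Finset.induction_on with
  | empty => simp
  | insert a t ha ih => rw [prod_insert ha, prod_insert ha, nm_mul, ih]

/-- the elements of `YY` -/
lemma mem_YY {r : ℕ} {e : Fin r → ℝ} {y : Gi} (hy : y ∈ YY e) : ∃ s : Fin r → ℕ,
    (∀ i, (s i).Prime ∧ e i < s i ∧ (s i : ℝ) ≤ 2 * e i) ∧ nm y = ∏ i, s i := by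
  classical
  unfold YY at hy
  rw [mem_image] at hy
  obtain ⟨f, hf, rfl⟩ := hy
  rw [Fintype.mem_piFinset] at hf
  refine ⟨fun i => nm (f i), fun i => ?_, nm_prod _ _⟩
  have h3 := (mem_GP.1 (hf i)).2.2
  exact ⟨h3.1, h3.2.2.1, h3.2.2.2⟩

section

variable {r : ℕ} {e : Fin r → ℝ} {s : Fin r → ℕ}

lemma s_inj (he : EB 2 e) (hs : ∀ i, (s i).Prime ∧ e i < s i ∧ (s i : ℝ) ≤ 2 * e i) : Function.Injective s := by
  intro i j h
  by_contra hne
  have key : ∀ a c : Fin r, a < c → s a ≠ s c := by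
    intro a c hac h1
    have h2 := he.dj a c hac
    have h3 := (hs a).2.2
    have h4 := (hs c).2.1
    rw [h1] at h3
    linarith
  rcases lt_or_gt_of_ne hne with h1 | h1
  · exact key _ _ h1 h
  · exact key _ _ h1 h.symm

lemma prod_le (he : EB 2 e) (hs : ∀ i, (s i).Prime ∧ e i < s i ∧ (s i : ℝ) ≤ 2 * e i) :
    ((∏ i, s i : ℕ) : ℝ) ≤ ∏ i, (2 * e i) := by
  push_cast
  exact prod_le_prod (fun i _ => Nat.cast_nonneg _) (fun i _ => (hs i).2.2)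

lemma prod_pos' (hs : ∀ i, (s i).Prime ∧ e i < s i ∧ (s i : ℝ) ≤ 2 * e i) : 0 < ∏ i, s i :=
  Finset.prod_pos fun i _ => (hs i).1.pos

/-- the product of the primes of the first quadrant with the given norms -/
lemma ydiv {w : Gi} (he : EB 2 e) (hs : ∀ i, (s i).Prime ∧ e i < s i ∧ (s i : ℝ) ≤ 2 * e i)
    (hd : ∀ i, s i ∣ nm w ∧ ¬ s i ^ 2 ∣ nm w) : ∃ y ∈ YY e, nm y = ∏ i, s i ∧ y ∣ w := by
  classical
  have h2 : ∀ i, 2 < s i := by
    intro i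
    have : (2 : ℝ) < s i := by linarith [he.one i, (hs i).2.1]
    exact_mod_cast this
  choose f x1 x2 x3 x4 x5 using fun i => CNEM.split (hs i).1 (h2 i) (hd i).1 (hd i).2
  have hp : ∀ i, Prime (f i) := fun i => prime_of_nm_prime (by rw [x3]; exact (hs i).1)
  refine ⟨∏ i, f i, ?_, by rw [nm_prod]; simp only [x3], ?_⟩
  · unfold YY
    rw [mem_image]
    refine ⟨f, ?_, rfl⟩
    rw [Fintype.mem_piFinset]
    intro i
    rw [mem_GP]
    exact ⟨x1 i, x2 i, by rw [x3]; exact (hs i).1, by rw [x3]; exact x4 i, by rw [x3]; exact (hs i).2.1,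
      by rw [x3]; exact (hs i).2.2⟩
  · apply Finset.prod_dvd_of_coprime
    · intro i _ j _ hij
      change IsCoprime (f i) (f j)
      rw [(hp i).irreducible.coprime_iff_not_dvd]
      intro h6
      have := nm_dvd h6
      rw [x3, x3] at this
      exact hij (s_inj he hs ((Nat.prime_dvd_prime_iff_eq (hs i).1 (hs j).1).1 this))
    · exact fun i _ => x5 i

end

/-- the set of the `n` -/
def WKS {r : ℕ} (e : Fin r → ℝ) (b : ℕ) (P K M : ℝ) : Set ℕ :=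
  {n : ℕ | 1 ≤ n ∧ ∃ (s : Fin r → ℕ) (p q t : ℕ), (∀ i, (s i).Prime ∧ e i < s i ∧ (s i : ℝ) ≤ 2 * e i) ∧
    p.Prime ∧ q.Prime ∧ t.Prime ∧ P < p ∧ (p : ℝ) ≤ 2 * P ∧ K < ((∏ i, s i) * q : ℕ) ∧ (((∏ i, s i) * q : ℕ) : ℝ) ≤ 2 * K ∧
    M < t ∧ (t : ℝ) ≤ 2 * M ∧ n ^ 2 + b ^ 2 = (∏ i, s i) * p * q * t}

open CNBM in
/-- the surjection -/
lemma surj {r : ℕ} {e : Fin r → ℝ} {p : Par} (hN : 0 < p.N) (hT : 0 < p.T) (hP : 2 ≤ p.P) (he : EB 2 e)
    (hR : ∏ i, (2 * e i) ≤ p.P) (hPK : 2 * p.P * p.P ≤ p.K) (hKM : 2 * p.K ≤ p.M2)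
    {b n : ℕ} (hn : n ∈ WKS e b p.P p.K p.M2) : ∃ y z₁ π₃ z π₂ : Gi, Tup p (YY e) b y z₁ π₃ z π₂ ∧
      z ∈ disc (p.N * p.T) ∧ ((y * z₁ * π₃ * z).re).toNat = n := by
  obtain ⟨hn1, s, p', q, t, hs, hp, hq, ht, p1, p2, q1, q2, r1, r2, e'⟩ := hn
  set w : Gi := ⟨n, b⟩ with hw'
  obtain ⟨Q, hQ⟩ : ∃ Q : ℕ, Q = ∏ i, s i := ⟨_, rfl⟩
  rw [← hQ] at q1 q2 e'
  have hnw : nm w = Q * p' * q * t := by
    rw [← e']
    exact nm_re_im rfl rfl
  have hP0 : 0 < p.P := by linarith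
  have hQ0 : 0 < Q := by rw [hQ]; exact prod_pos' hs
  have hQR : (Q : ℝ) ≤ p.P := by rw [hQ]; exact (prod_le he hs).trans hR
  have hQ1 : (1 : ℝ) ≤ Q := by exact_mod_cast hQ0
  -- sizes
  have g2 : 2 < p' := by
    have : (2 : ℝ) < p' := by linarith
    exact_mod_cast this
  have gQp : ∀ a : ℕ, a ∣ Q → a < p' := by
    intro a ha
    have h1 : (a : ℝ) ≤ Q := by exact_mod_cast Nat.le_of_dvd hQ0 ha
    have : (a : ℝ) < p' := by linarith
    exact_mod_cast this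
  rw [Nat.cast_mul] at q1 q2
  have gpq : p' < q := by
    have h2 : (Q : ℝ) * q ≤ p.P * q := mul_le_mul_of_nonneg_right hQR (by positivity)
    have h3 : 2 * p.P < q := by
      have h4 : 2 * p.P * p.P < q * p.P := by linarith
      exact lt_of_mul_lt_mul_right h4 (by linarith)
    have : (p' : ℝ) < q := by linarith
    exact_mod_cast this
  have gqt : q < t := by
    have h1 : (q : ℝ) ≤ Q * q := by nlinarith [(Nat.cast_nonneg q : (0 : ℝ) ≤ q)]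
    have : (q : ℝ) < t := by linarith
    exact_mod_cast this
  have ne : ∀ {a c : ℕ}, a.Prime → c.Prime → a ≠ c → ¬ a ∣ c := by
    intro a c ha hc hne hd
    exact hne ((Nat.prime_dvd_prime_iff_eq ha hc).1 hd)
  have pQ : ¬ p' ∣ Q := fun h => lt_irrefl _ (gQp _ h)
  have qQ : ¬ q ∣ Q := fun h => by have := gQp _ h; omega
  have tQ : ¬ t ∣ Q := fun h => by have := gQp _ h; omega
  -- exact division
  have ex : ∀ {a m : ℕ}, a.Prime → ¬ a ∣ m → nm w = a * m → a ∣ nm w ∧ ¬ a ^ 2 ∣ nm w := by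
    intro a m ha hm h3
    refine ⟨⟨_, h3⟩, fun h4 => ?_⟩
    rw [h3, pow_two] at h4
    exact hm (Nat.dvd_of_mul_dvd_mul_left ha.pos h4)
  obtain ⟨a1, a2⟩ := ex (m := Q * q * t) hp (by
    rw [hp.dvd_mul, hp.dvd_mul]
    exact not_or.2 ⟨not_or.2 ⟨pQ, ne hp hq (by omega)⟩, ne hp ht (by omega)⟩) (by rw [hnw]; ring)
  obtain ⟨b1, b2⟩ := ex (m := Q * p' * t) hq (by
    rw [hq.dvd_mul, hq.dvd_mul]
    exact not_or.2 ⟨not_or.2 ⟨qQ, ne hq hp (by omega)⟩, ne hq ht (by omega)⟩) (by rw [hnw]; ring)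
  obtain ⟨c1, c2⟩ := ex (m := Q * p' * q) ht (by
    rw [ht.dvd_mul, ht.dvd_mul]
    exact not_or.2 ⟨not_or.2 ⟨tQ, ne ht hp (by omega)⟩, ne ht hq (by omega)⟩) (by rw [hnw]; ring)
  obtain ⟨y, hy, y1, y2⟩ := ydiv (w := w) he hs (by
    intro i
    have hpa := (hs i).1
    have hm : Q = s i * ∏ j ∈ univ.erase i, s j := by rw [hQ, mul_prod_erase univ s (mem_univ i)]
    have hma : ¬ s i ∣ ∏ j ∈ univ.erase i, s j := by
      intro h5
      obtain ⟨j, hj, h6⟩ := (hpa.prime.dvd_finset_prod_iff _).1 h5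
      exact (mem_erase.1 hj).1 (s_inj he hs ((Nat.prime_dvd_prime_iff_eq hpa (hs j).1).1 h6)).symm
    have hap := gQp (s i) ⟨_, hm⟩
    refine ex (m := (∏ j ∈ univ.erase i, s j) * p' * q * t) hpa ?_ (by rw [hnw, hm]; ring)
    rw [hpa.dvd_mul, hpa.dvd_mul, hpa.dvd_mul]
    exact not_or.2 ⟨not_or.2 ⟨not_or.2 ⟨hma, ne hpa hp (by omega)⟩, ne hpa hq (by omega)⟩, ne hpa ht (by omega)⟩)
  rw [← hQ] at y1
  obtain ⟨π₃, x1, x2, x3, x4, x5⟩ := CNEM.split hp g2 a1 a2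
  obtain ⟨z₁, v1, v2, v3, v4, v5⟩ := CNEM.split hq (by omega) b1 b2
  obtain ⟨π₂, t1, t2, t3, t4, t5⟩ := CNEM.split ht (by omega) c1 c2
  have pp3 : Prime π₃ := prime_of_nm_prime (by rw [x3]; exact hp)
  have pp1 : Prime z₁ := prime_of_nm_prime (by rw [v3]; exact hq)
  have pp2 : Prime π₂ := prime_of_nm_prime (by rw [t3]; exact ht)
  -- the product divides `w`
  have st : ∀ {x a : Gi}, Prime x → x ∣ w → a ∣ w → ¬ nm x ∣ nm a → a * x ∣ w := by
    intro x a hx h1 h2 h3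
    obtain ⟨c, hc⟩ := h2
    have h5 : x ∣ a * c := by rw [← hc]; exact h1
    rcases hx.dvd_or_dvd h5 with h6 | h6
    · exact absurd (nm_dvd h6) h3
    · rw [hc]; exact mul_dvd_mul_left a h6
  have g1 : y * z₁ ∣ w := st pp1 v5 y2 (by rw [v3, y1]; exact qQ)
  have g2' : y * z₁ * π₃ ∣ w := st pp3 x5 g1 (by
    rw [nm_mul, x3, y1, v3, hp.dvd_mul]
    exact not_or.2 ⟨pQ, ne hp hq (by omega)⟩)
  obtain ⟨z, hz⟩ := g2'
  have hzd : π₂ ∣ z := by
    have h5 : π₂ ∣ y * z₁ * π₃ * z := by rw [← hz]; exact t5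
    rcases pp2.dvd_or_dvd h5 with h6 | h6
    · exfalso
      have := nm_dvd h6
      rw [nm_mul, nm_mul, t3, x3, v3, y1, ht.dvd_mul, ht.dvd_mul] at this
      rcases this with (h7 | h7) | h7
      · exact tQ h7
      · exact ne ht hq (by omega) h7
      · exact ne ht hp (by omega) h7
    · exact h6
  have hnz : nm z = t := by
    have h5 := hnw
    rw [hz, nm_mul, nm_mul, nm_mul, v3, x3, y1] at h5
    have h6 : (Q * q * p') * nm z = (Q * q * p') * t := by rw [h5]; ring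
    exact Nat.eq_of_mul_eq_mul_left (Nat.mul_pos (Nat.mul_pos hQ0 hq.pos) hp.pos) h6
  have hass : Associated π₂ z := by
    obtain ⟨u, hu⟩ := hzd
    have h5 : nm u = 1 := by
      have h6 := congrArg nm hu
      rw [nm_mul, hnz, t3] at h6
      have h7 : t * nm u = t * 1 := by rw [mul_one]; exact h6.symm
      exact Nat.eq_of_mul_eq_mul_left ht.pos h7
    rw [hu]
    exact ⟨(isUnit_iff_nm.2 h5).unit, rfl⟩
  have hM2 : p.M2 = p.N * p.T / (8 * p.P) := rfl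
  have hzn : z ≠ 0 := by
    intro h0
    rw [h0, nm_zero] at hnz
    exact ht.ne_zero hnz.symm
  have hQ0' : (0 : ℝ) < Q := by exact_mod_cast hQ0
  refine ⟨y, z₁, π₃, z, π₂, ⟨hy, ?_, ?_, ?_, hass, ?_, ?_⟩, ?_, ?_⟩
  · rw [mem_GP]
    refine ⟨v1, v2, by rw [v3]; exact hq, by rw [v3]; exact v4, ?_, ?_⟩
    · rw [v3, y1, div_lt_iff₀ hQ0']
      linarith
    · rw [v3, y1, le_div_iff₀ hQ0']
      linarith
  · rw [mem_GP]
    exact ⟨x1, x2, by rw [x3]; exact hp, by rw [x3]; exact x4, by rw [x3]; exact p1, by rw [x3]; exact p2⟩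
  · rw [mem_GP]
    exact ⟨t1, t2, by rw [t3]; exact ht, by rw [t3]; exact t4, by rw [t3]; exact r1, by rw [t3]; exact r2⟩
  · rw [← hz]
  · rw [← hz, hw']
    simp
    omega
  · rw [mem_disc]
    refine ⟨hzn, ?_⟩
    rw [hnz]
    refine r2.trans ?_
    rw [hM2]
    have h5 : p.N * p.T / (8 * p.P) ≤ p.N * p.T / 2 := by
      apply div_le_div_of_nonneg_left (by positivity) (by norm_num) (by linarith)
    linarith
  · rw [← hz, hw']
    simp

end CNKM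

open CNBM CNKM in
theorem specCNK (hYYP : SpecYYP) : SpecCNK := by
  intro r e p b _ hN hT hP he hR hPK hKM hh _ _
  classical
  have hP0 : 0 < p.P := by linarith
  have hK0 : 0 < p.K := div_pos hN hT
  have hM0 : 0 < p.M2 := by linarith
  have e1 : ∑ y ∈ YY e, sy p y b (Eta p) = ((∑ y ∈ YY e, ∑ z₁ ∈ GP (p.K / nm y) (2 * p.K / nm y), ∑ π ∈ GP p.P (2 * p.P),
        ∑ z ∈ (disc (p.N * p.T)).filter (On (y * z₁ * π) b), EtaN p z : ℕ) : ℂ) := by
    unfold sy ls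
    push_cast
    simp only [Eta_eq]
  rw [e1]
  have hW : WK e b p.P p.K p.M2 = (WKS e b p.P p.K p.M2).ncard := rfl
  rw [hW]
  norm_cast
  set S : Finset (Σ _ : Gi, Σ _ : Gi, Σ _ : Gi, Σ _ : Gi, Σ _ : ℕ, Gi) :=
    (YY e).sigma fun y => (GP (p.K / nm y) (2 * p.K / nm y)).sigma fun z₁ => (GP p.P (2 * p.P)).sigma fun π =>
      ((disc (p.N * p.T)).filter (On (y * z₁ * π) b)).sigma fun z => (I2 p).sigma fun v2 =>
        ((cell p.h p.M2 (2 * p.M2) v2).filter (fun π => Associated π z)) with hS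
  have e2 : (∑ y ∈ YY e, ∑ z₁ ∈ GP (p.K / nm y) (2 * p.K / nm y), ∑ π ∈ GP p.P (2 * p.P),
        ∑ z ∈ (disc (p.N * p.T)).filter (On (y * z₁ * π) b), EtaN p z) = S.card := by
    rw [hS]
    simp only [card_sigma]
    rfl
  rw [e2]
  have hYK := (hYYP r e 2 p.P he hR).1
  have hY : YLK r p.P (YY e) := ⟨fun y hy => (hYK.sq y hy).1, fun y hy => (hYK.sq y hy).2, hYK.le, hYK.na⟩
  have hRK : ROK p p.P (2 * p.P) (2 * p.K) := ⟨hN.le, hT, hP0, le_refl _, le_refl _, hPK, le_refl _, hKM⟩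
  have facts : ∀ x ∈ S, Tup p (YY e) b x.1 x.2.1 x.2.2.1 x.2.2.2.1 x.2.2.2.2.2 ∧
      ⌊p.h * Real.log (nm x.2.2.2.2.2)⌋₊ = x.2.2.2.2.1 := by
    rintro ⟨y, z₁, π, z, v2, q₂⟩ hx
    rw [hS] at hx
    simp only [mem_sigma, mem_filter] at hx
    obtain ⟨hy, h1, h3, ⟨hz, hOn⟩, hv2, h2, has⟩ := hx
    unfold cell at h2
    rw [mem_filter] at h2
    exact ⟨⟨hy, h1, h3, h2.1, has, hOn.1, hOn.2⟩, h2.2⟩
  set f : (Σ _ : Gi, Σ _ : Gi, Σ _ : Gi, Σ _ : Gi, Σ _ : ℕ, Gi) → ℕ :=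
    fun x => ((x.1 * x.2.1 * x.2.2.1 * x.2.2.2.1).re).toNat with hf
  have hinj : Set.InjOn f S := by
    intro x hx x' hx' hxx
    obtain ⟨t, f2⟩ := facts x hx
    obtain ⟨t', f2'⟩ := facts x' hx'
    have hre := t.re
    have hre' := t'.re
    have h9 : (x.1 * x.2.1 * x.2.2.1 * x.2.2.2.1).re = (x'.1 * x'.2.1 * x'.2.2.1 * x'.2.2.2.1).re := by
      simp only [hf] at hxx
      omega
    obtain ⟨a1, a2, a3, a4, a6⟩ := tup_inj r b _ _ p.P (2 * p.P) (2 * p.K) (YY e) hY hRK hRK t t' h9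
    obtain ⟨y, z₁, π, z, v2, q₂⟩ := x
    obtain ⟨y', z₁', π', z', v2', q₂'⟩ := x'
    simp only at a1 a2 a3 a4 a6 f2 f2'
    subst a1 a2 a3 a4 a6 f2 f2'
    rfl
  have himg : ((S.image f : Finset ℕ) : Set ℕ) = WKS e b p.P p.K p.M2 := by
    ext n
    rw [mem_coe, mem_image]
    constructor
    · rintro ⟨x, hx, rfl⟩
      obtain ⟨⟨hy, h1, h3, h2, as, him, hre⟩, -⟩ := facts x hx
      obtain ⟨s, k1, k2⟩ := mem_YY hy
      have hQ0 : (0 : ℝ) < ((∏ i, s i : ℕ) : ℝ) := by exact_mod_cast prod_pos' k1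
      have m1 := (mem_GP.1 h1).2.2
      have m3 := (mem_GP.1 h3).2.2
      have m2 := (mem_GP.1 h2).2.2
      have hn : (x.1 * x.2.1 * x.2.2.1 * x.2.2.2.1).re = (((x.1 * x.2.1 * x.2.2.1 * x.2.2.2.1).re.toNat : ℕ) : ℤ) :=
        (Int.toNat_of_nonneg (by omega)).symm
      have hnm := nm_re_im him hn
      refine ⟨by simp only [hf]; omega, s, nm x.2.2.1, nm x.2.1, nm x.2.2.2.2.2, k1, m3.1, m1.1, m2.1, m3.2.2.1,
        m3.2.2.2, ?_, ?_, m2.2.2.1, m2.2.2.2, ?_⟩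
      · have h5 := m1.2.2.1
        rw [k2, div_lt_iff₀ hQ0] at h5
        rw [Nat.cast_mul]
        linarith
      · have h5 := m1.2.2.2
        rw [k2, le_div_iff₀ hQ0] at h5
        rw [Nat.cast_mul]
        linarith
      · simp only [hf]
        rw [← hnm, nm_mul, nm_mul, nm_mul, k2, nm_ass as]
        ring
    · intro hn
      obtain ⟨y, z₁, π₃, z, π₂, t, hz, hre⟩ := surj hN hT hP he hR hPK hKM hn
      refine ⟨⟨y, z₁, π₃, z, ⌊p.h * Real.log (nm π₂)⌋₊, π₂⟩, ?_, by simp only [hf]; exact hre⟩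
      rw [hS]
      simp only [mem_sigma, mem_filter]
      refine ⟨t.hy, t.h1, t.h3, ⟨hz, t.im, t.re⟩, ?_, ?_, t.as⟩
      · have m2 := (mem_GP.1 t.h2).2.2.2.2
        unfold I2 VV
        rw [mem_Icc]
        exact ⟨Nat.floor_mono (mul_le_mul_of_nonneg_left (Real.log_le_log hM0 m2.1.le) hh),
          Nat.floor_mono (mul_le_mul_of_nonneg_left (Real.log_le_log (hM0.trans m2.1) m2.2) hh)⟩
      · unfold cell
        rw [mem_filter]
        exact ⟨t.h2, rfl⟩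
  rw [← himg, Set.ncard_coe_finset, card_image_of_injOn hinj]

end Pool.Agent.Lib.MP391708.X4
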