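import Pool.Agent.Lib.MP_391708_nt.X4.SpecK

/-!
# THEOREM X4 (MP_391708), module CVK: the sum of the main terms over the outer factors (helper64)
-/

set_option autoImplicit false

namespace Pool.Agent.Lib.MP391708.X4

open Finset Filter Topology Pool.Agent.Lib.MP391708.MR
open Pool.Agent.Lib.MP391708.X (VP YOK)
open Pool.Agent.Lib.MP391708.X3
open Pool.Agent.Lib.MP391708.XL (VS PS)
open Pool.Agent.Lib.MP391708.XP (IsConst)

namespace CVKM

/-- `x` is `y` up to a factor between `2 - e^s` and `e^s` -/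
def Rel (x y s : ℝ) : Prop := 0 ≤ y ∧ |x - y| ≤ (Real.exp s - 1) * y

lemma Rel.of {x y s : ℝ} (hy : 0 ≤ y) (h : |x - y| ≤ s * y) : Rel x y s :=
  ⟨hy, h.trans (mul_le_mul_of_nonneg_right (by linarith [Real.add_one_le_exp s]) hy)⟩

lemma Rel.refl {x : ℝ} (hx : 0 ≤ x) : Rel x x 0 := Rel.of hx (by simp)

lemma Rel.mul {x y s x' y' t : ℝ} (hs : 0 ≤ s) (h : Rel x y s) (h' : Rel x' y' t) :
    Rel (x * x') (y * y') (s + t) := by
  obtain ⟨h1, h2⟩ := h
  obtain ⟨h3, h4⟩ := h'
  refine ⟨mul_nonneg h1 h3, ?_⟩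
  have e1 : x * x' - y * y' = (x - y) * (x' - y') + (x - y) * y' + y * (x' - y') := by ring
  have e2 : (0 : ℝ) ≤ Real.exp s - 1 := by linarith [Real.add_one_le_exp s]
  rw [e1, Real.exp_add]
  calc |(x - y) * (x' - y') + (x - y) * y' + y * (x' - y')|
      ≤ |x - y| * |x' - y'| + |x - y| * y' + y * |x' - y'| := by
        refine (abs_add_le _ _).trans (add_le_add ((abs_add_le _ _).trans (add_le_add ?_ ?_)) ?_)
        · rw [abs_mul]
        · rw [abs_mul, abs_of_nonneg h3]
        · rw [abs_mul, abs_of_nonneg h1]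
    _ ≤ ((Real.exp s - 1) * y) * ((Real.exp t - 1) * y') + ((Real.exp s - 1) * y) * y' +
        y * ((Real.exp t - 1) * y') := by
        have : 0 ≤ (Real.exp s - 1) * y := mul_nonneg e2 h1
        gcongr
    _ = (Real.exp s * Real.exp t - 1) * (y * y') := by ring

lemma Rel.trans {x y z s t : ℝ} (hs : 0 ≤ s) (h : Rel x y s) (h' : Rel y z t) : Rel x z (s + t) := by
  obtain ⟨h1, h2⟩ := h
  obtain ⟨h3, h4⟩ := h'
  refine ⟨h3, ?_⟩
  have e2 : (0 : ℝ) ≤ Real.exp s - 1 := by linarith [Real.add_one_le_exp s]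
  have e3 : y ≤ Real.exp t * z := by
    have := (abs_le.1 h4).2
    linarith
  have e4 : x - z = (x - y) + (y - z) := by ring
  rw [e4, Real.exp_add]
  calc |x - y + (y - z)| ≤ |x - y| + |y - z| := abs_add_le _ _
    _ ≤ (Real.exp s - 1) * (Real.exp t * z) + (Real.exp t - 1) * z :=
        add_le_add (h2.trans (mul_le_mul_of_nonneg_left e3 e2)) h4
    _ = (Real.exp s * Real.exp t - 1) * z := by ring

lemma Rel.sum {ι : Type} {S : Finset ι} {f g : ι → ℝ} {s : ℝ} (h : ∀ i ∈ S, Rel (f i) (g i) s) :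
    Rel (∑ i ∈ S, f i) (∑ i ∈ S, g i) s := by
  refine ⟨sum_nonneg fun i hi => (h i hi).1, ?_⟩
  rw [← sum_sub_distrib, mul_sum]
  exact (abs_sum_le_sum_abs _ _).trans (sum_le_sum fun i hi => (h i hi).2)

lemma Rel.prod {ι : Type} {S : Finset ι} {f g : ι → ℝ} {s : ℝ} (hs : 0 ≤ s)
    (h : ∀ i ∈ S, Rel (f i) (g i) s) : Rel (∏ i ∈ S, f i) (∏ i ∈ S, g i) (S.card * s) := by
  classical
  induction S using Finset.induction_on with
  | empty =>
    simp only [prod_empty, card_empty, Nat.cast_zero, zero_mul]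
    exact Rel.refl zero_le_one
  | insert a S ha ih =>
    rw [prod_insert ha, prod_insert ha, card_insert_of_notMem ha]
    have h1 := Rel.mul hs (h a (mem_insert_self _ _)) (ih fun i hi => h i (mem_insert_of_mem hi))
    have h2 : s + (S.card : ℝ) * s = ((S.card + 1 : ℕ) : ℝ) * s := by push_cast; ring
    rwa [h2] at h1

lemma Rel.mono {x y s t : ℝ} (h : Rel x y s) (hst : s ≤ t) : Rel x y t :=
  ⟨h.1, h.2.trans (mul_le_mul_of_nonneg_right (by linarith [Real.exp_le_exp.2 hst]) h.1)⟩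

/-- the long factor for one `y` -/
lemma factor {X₀ η K n D : ℝ} (hη : 0 < η) (hη1 : η ≤ 1) {F : ℝ → ℝ} {c : ℝ} (hc : 0 < c) (hX₀ : 1 ≤ X₀)
    (hF : ∀ X : ℝ, X₀ ≤ X → |F X - c * (Real.sqrt X / Real.log X)| ≤ η * (c * (Real.sqrt X / Real.log X)))
    (hK : X₀ ^ 2 ≤ K) (hK1 : 1 < K) (hn : 1 ≤ n) (hnD : n ≤ D) {x₀ : ℝ} (hx : 2 ≤ x₀) (hxη : 2 / η ≤ x₀)
    (hD : x₀ * Real.log D ≤ Real.log K) :
    Rel (F (K / n) / Real.sqrt n) (c * (Real.sqrt K / Real.log K) * (1 / n)) (2 * η) := by
  have hn0 : 0 < n := by linarith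
  have hK0 : 0 < K := by linarith
  have hlK : 0 < Real.log K := Real.log_pos hK1
  have hln0 : 0 ≤ Real.log n := Real.log_nonneg hn
  have hln : x₀ * Real.log n ≤ Real.log K := by
    have := Real.log_le_log hn0 hnD
    nlinarith
  have hlq : Real.log (K / n) = Real.log K - Real.log n := Real.log_div hK0.ne' hn0.ne'
  have hq1 : Real.log K / 2 ≤ Real.log (K / n) := by
    rw [hlq]
    nlinarith
  have hqpos : 0 < Real.log (K / n) := by linarith
  have hq2 : X₀ ≤ K / n := by
    have h1 : Real.log X₀ ≤ Real.log (K / n) := by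
      have h2 := Real.log_le_log (by positivity) hK
      rw [Real.log_pow] at h2
      push_cast at h2
      linarith
    exact (Real.log_le_log_iff (by linarith) (by positivity)).1 h1
  have h1 := hF (K / n) hq2
  have hs : Real.sqrt (K / n) = Real.sqrt K / Real.sqrt n := Real.sqrt_div hK0.le n
  have hsn : 0 < Real.sqrt n := Real.sqrt_pos.2 hn0
  have hsK : 0 < Real.sqrt K := Real.sqrt_pos.2 hK0
  have hsn2 : Real.sqrt n * Real.sqrt n = n := Real.mul_self_sqrt hn0.le
  -- the first factor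
  have r1 : Rel (F (K / n)) (c * (Real.sqrt (K / n) / Real.log (K / n))) η :=
    Rel.of (by positivity) h1
  have r2 : Rel (Real.log K / Real.log (K / n)) 1 η := by
    refine Rel.of zero_le_one ?_
    rw [mul_one]
    have h3 : Real.log K / Real.log (K / n) - 1 = Real.log n / Real.log (K / n) := by
      rw [hlq] at hqpos ⊢
      field_simp
      ring
    rw [h3, abs_of_nonneg (by positivity), div_le_iff₀ hqpos]
    have h4 : Real.log n ≤ η * (Real.log K / 2) := by
      have h5 : 2 / η * Real.log n ≤ x₀ * Real.log n := mul_le_mul_of_nonneg_right hxη hln0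
      have h6 : 2 / η * Real.log n ≤ Real.log K := h5.trans hln
      have h7 : Real.log n = η / 2 * (2 / η * Real.log n) := by field_simp
      rw [h7]
      nlinarith
    exact h4.trans (mul_le_mul_of_nonneg_left hq1 hη.le)
  have r3 : Rel ((c * (Real.sqrt (K / n) / Real.log (K / n))) * (1 / Real.sqrt n))
      (c * (Real.sqrt K / Real.log K) * (1 / n)) η := by
    have h8 := Rel.mul hη.le r2 (Rel.refl (x := c * (Real.sqrt K / Real.log K) * (1 / n)) (by positivity))
    rw [add_zero, one_mul] at h8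
    have h9 : Real.log K / Real.log (K / n) * (c * (Real.sqrt K / Real.log K) * (1 / n)) =
        (c * (Real.sqrt (K / n) / Real.log (K / n))) * (1 / Real.sqrt n) := by
      rw [hs]
      have : (1 : ℝ) / n = 1 / Real.sqrt n * (1 / Real.sqrt n) := by
        rw [one_div_mul_one_div, hsn2]
      rw [this]
      field_simp
    rwa [h9] at h8
  have r4 := Rel.mul hη.le r1 (Rel.refl (x := 1 / Real.sqrt n) (by positivity))
  rw [add_zero] at r4
  have r5 := r4.trans hη.le r3
  rw [div_eq_mul_one_div, two_mul]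
  exact r5

end CVKM

open CVKM in
/-- CVK: the sum of the main terms over the outer factors -/
theorem specCVK (hGPA : SpecGPA) (hGPB : SpecGPB) (hHVA : SpecHVA) (hYYP : SpecYYP) : SpecCVK := by
  intro r ε hε
  have hlog : 0 < Real.log (1 + ε) := Real.log_pos (by linarith)
  set η : ℝ := min (Real.log (1 + ε) / (r + 5)) 1 with hη
  have hη0 : 0 < η := by positivity
  have hη1 : η ≤ 1 := min_le_right _ _
  have hηε : (r + 5) * η ≤ Real.log (1 + ε) := by
    have h1 : η ≤ Real.log (1 + ε) / (r + 5) := min_le_left _ _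
    rwa [le_div_iff₀ (by positivity), mul_comm] at h1
  have hr : 0 < Real.sqrt 2 - 1 := by
    have : (1 : ℝ) < Real.sqrt 2 := by
      rw [Real.lt_sqrt (by norm_num)]
      norm_num
    linarith
  have hl2 : 0 < Real.log 2 := Real.log_pos (by norm_num)
  obtain ⟨w₀, hw₀⟩ := hHVA η hη0
  obtain ⟨X₀', hX₀'⟩ := eventually_atTop.1 (((hGPA (η * (2 * (Real.sqrt 2 - 1))) (by positivity)).and
    (hGPB (η * Real.log 2) (by positivity))).and (eventually_gt_atTop 1))
  set X₀ : ℝ := max X₀' 1 with hX₀d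
  have hX₀1 : 1 ≤ X₀ := le_max_right _ _
  have hA : ∀ X : ℝ, X₀ ≤ X → |GH X - 2 * (Real.sqrt 2 - 1) * (Real.sqrt X / Real.log X)| ≤
      η * (2 * (Real.sqrt 2 - 1) * (Real.sqrt X / Real.log X)) := by
    intro X hX
    have := (hX₀' X ((le_max_left _ _).trans hX)).1.1
    rwa [mul_assoc η] at this
  have hB : ∀ X : ℝ, X₀ ≤ X → |WW X (2 * X) - Real.log 2 / Real.log X| ≤ η * (Real.log 2 / Real.log X) := by
    intro X hX
    have := (hX₀' X ((le_max_left _ _).trans hX)).1.2
    rwa [mul_div_assoc] at this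
  have h1X : ∀ X : ℝ, X₀ ≤ X → 1 < X := fun X hX => (hX₀' X ((le_max_left _ _).trans hX)).2
  refine ⟨max (max w₀ (X₀ ^ 2)) (max 2 (2 / η)), fun e p b h hw hP hK hM he hD hb hlog' hc hh => ?_⟩
  set x₀ : ℝ := max (max w₀ (X₀ ^ 2)) (max 2 (2 / η)) with hx₀
  have hx1 : w₀ ≤ x₀ := (le_max_left _ _).trans (le_max_left _ _)
  have hx2 : X₀ ^ 2 ≤ x₀ := (le_max_right _ _).trans (le_max_left _ _)
  have hx3 : 2 ≤ x₀ := (le_max_left _ _).trans (le_max_right _ _)
  have hx4 : 2 / η ≤ x₀ := (le_max_right _ _).trans (le_max_right _ _)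
  have hx5 : X₀ ≤ x₀ := by nlinarith
  obtain ⟨-, hY, hsum⟩ := hYYP r e x₀ _ he le_rfl
  have hP1 := h1X _ (hx5.trans hP)
  have hK1 := h1X _ (hx5.trans hK)
  have hM1 := h1X _ (hx5.trans hM)
  have lP := Real.log_pos hP1
  have lK := Real.log_pos hK1
  have lM := Real.log_pos hM1
  have sP : 0 < Real.sqrt p.P := Real.sqrt_pos.2 (by linarith)
  have sK : 0 < Real.sqrt p.K := Real.sqrt_pos.2 (by linarith)
  have sM : 0 < Real.sqrt p.M2 := Real.sqrt_pos.2 (by linarith)
  have hm : 0 < mt h p.P p.K p.M2 := by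
    unfold mt
    have : 0 < p.P := by linarith
    have : 0 < p.K := by linarith
    have : 0 < p.M2 := by linarith
    positivity
  -- the four constant factors
  have rV : Rel (4 / Real.pi * (VS b (PS p.w) / VP p.w)) h η :=
    Rel.of hh.le (hw₀ p.w (hx1.trans hw) b hb hlog' h hc)
  have rP : Rel (GH p.P) (2 * (Real.sqrt 2 - 1) * (Real.sqrt p.P / Real.log p.P)) η :=
    Rel.of (by positivity) (hA _ (hx5.trans hP))
  have rM : Rel (GH p.M2) (2 * (Real.sqrt 2 - 1) * (Real.sqrt p.M2 / Real.log p.M2)) η :=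
    Rel.of (by positivity) (hA _ (hx5.trans hM))
  have key : ∀ y ∈ YY e, Rel (MM p y b) (mt h p.P p.K p.M2 * (1 / (nm y : ℝ))) (5 * η) := by
    intro y hy
    obtain ⟨hpr, hny⟩ := hY y hy
    have hn1 : (1 : ℝ) ≤ nm y := by
      have : 0 < nm y := by
        by_contra h0
        have h1 : nm y = 0 := by omega
        have h2 := nm_eq_zero.1 h1
        subst h2
        exact absurd hpr (by simp [prim])
      exact_mod_cast this
    have rK := factor hη0 hη1 (F := GH) (c := 2 * (Real.sqrt 2 - 1)) (by positivity) hX₀1 hA (hx2.trans hK) hK1 hn1 hny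
      hx3 hx4 hD
    have r1 := ((rV.mul hη0.le rP).mul (by positivity) rM).mul (by positivity) rK
    have r2 := (Rel.refl (x := 1 / 2) (by norm_num)).mul le_rfl r1
    have e1 : 1 / 2 * (4 / Real.pi * (VS b (PS p.w) / VP p.w) * GH p.P * GH p.M2 *
        (GH (p.K / (nm y : ℝ)) / Real.sqrt (nm y))) = MM p y b := by
      unfold MM
      ring
    have e2 : 1 / 2 * (h * (2 * (Real.sqrt 2 - 1) * (Real.sqrt p.P / Real.log p.P)) *
        (2 * (Real.sqrt 2 - 1) * (Real.sqrt p.M2 / Real.log p.M2)) *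
        (2 * (Real.sqrt 2 - 1) * (Real.sqrt p.K / Real.log p.K) * (1 / (nm y : ℝ)))) =
        mt h p.P p.K p.M2 * (1 / (nm y : ℝ)) := by
      unfold mt
      rw [Real.sqrt_mul (by nlinarith), Real.sqrt_mul (by linarith)]
      field_simp
      ring
    rw [e1, e2] at r2
    exact r2.mono (by linarith)
  have hS := Rel.sum key
  rw [← mul_sum, hsum] at hS
  have hW : Rel (∏ i, WW (e i) (2 * e i)) (∏ i, (Real.log 2 / Real.log (e i))) (r * η) := by
    have := Rel.prod (S := (univ : Finset (Fin r))) (f := fun i => WW (e i) (2 * e i))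
      (g := fun i => Real.log 2 / Real.log (e i)) hη0.le (fun i _ => by
        have h1 := hx5.trans (he.lo i)
        have h2 := Real.log_pos (h1X _ h1)
        exact Rel.of (by positivity) (hB _ h1))
    rwa [card_univ, Fintype.card_fin] at this
  have hW2 := (Rel.refl hm.le).mul le_rfl hW
  have hfin := hS.trans (by positivity) hW2
  have hfin2 := hfin.mono (t := Real.log (1 + ε)) (by linarith)
  obtain ⟨-, h9⟩ := hfin2
  rw [Real.exp_log (by linarith), add_sub_cancel_left] at h9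
  exact h9

end Pool.Agent.Lib.MP391708.X4
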