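import Pool.Agent.Lib.MP_391708_nt.X4.Spec

/-!
# THEOREM X4 (MP_391708), module CVM: from `MM` to the main term of the theorem (helper92)
-/

set_option autoImplicit false

namespace Pool.Agent.Lib.MP391708.X4

open Finset Filter Topology Pool.Agent.Lib.MP391708.MR
open Pool.Agent.Lib.MP391708.X (VP)
open Pool.Agent.Lib.MP391708.X3
open Pool.Agent.Lib.MP391708.XL (VS PS)
open Pool.Agent.Lib.MP391708.XP (IsConst)

namespace CVMM

/-- a relative error, as a factor -/
lemma fac {x y η : ℝ} (hy : 0 < y) (h : |x - y| ≤ η * y) : ∃ e : ℝ, |e| ≤ η ∧ x = y * (1 + e) := by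
  refine ⟨(x - y) / y, ?_, by field_simp; ring⟩
  rw [abs_div, abs_of_pos hy, div_le_iff₀ hy]
  exact h

lemma mul1 {u v s t : ℝ} (hu : |u - 1| ≤ s) (hv : |v - 1| ≤ t) : |u * v - 1| ≤ s + t + s * t := by
  have hs : 0 ≤ s := (abs_nonneg _).trans hu
  have h1 : u * v - 1 = (u - 1) + (v - 1) + (u - 1) * (v - 1) := by ring
  rw [h1]
  refine (abs_add_le _ _).trans (add_le_add ((abs_add_le _ _).trans (add_le_add hu hv)) ?_)
  rw [abs_mul]
  exact mul_le_mul hu hv (abs_nonneg _) hs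

lemma prod4 {η a b c d : ℝ} (h1 : η ≤ 1) (ha : |a| ≤ η) (hb : |b| ≤ η) (hc : |c| ≤ η) (hd : |d| ≤ η) :
    |(1 + a) * (1 + b) * ((1 + c) * (1 + d)) - 1| ≤ 15 * η := by
  have h0 : 0 ≤ η := (abs_nonneg _).trans ha
  have e : ∀ x : ℝ, 1 + x - 1 = x := fun x => by ring
  have h2 : |(1 + a) * (1 + b) - 1| ≤ η + η + η * η := mul1 (by rw [e]; exact ha) (by rw [e]; exact hb)
  have h3 : |(1 + c) * (1 + d) - 1| ≤ η + η + η * η := mul1 (by rw [e]; exact hc) (by rw [e]; exact hd)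
  have h4 : η + η + η * η ≤ 3 * η := by nlinarith
  refine (mul1 (h2.trans h4) (h3.trans h4)).trans ?_
  nlinarith

/-- the algebra: the main term with the four factors -/
lemma alg {r h P K M LP LK LM a b c d q V : ℝ} (hV : 4 / q * V = h * (1 + a)) :
    2 / q * V * (2 * r * (P / LP) * (1 + b) * (2 * r * (K / LK) * (1 + c)) * (2 * r * (M / LM) * (1 + d))) =
      4 * r ^ 3 * h * (P * K * M) / (LP * LK * LM) * ((1 + a) * (1 + b) * ((1 + c) * (1 + d))) := by
  have h1 : 2 / q * V = h * (1 + a) / 2 := by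
    rw [← hV]
    ring
  rw [h1]
  have h2 : P / LP = P * LP⁻¹ := div_eq_mul_inv _ _
  have h3 : K / LK = K * LK⁻¹ := div_eq_mul_inv _ _
  have h4 : M / LM = M * LM⁻¹ := div_eq_mul_inv _ _
  rw [h2, h3, h4, div_eq_mul_inv (4 * r ^ 3 * h * (P * K * M)), mul_inv, mul_inv]
  ring

end CVMM

open CVMM in
/-- CVM: from `MM` to the main term of the theorem -/
theorem specCVM (hGPA : SpecGPA) (hHVA : SpecHVA) : SpecCVM := by
  intro ε hε
  set η : ℝ := min ε 1 / 15 with hη
  have hη0 : 0 < η := by positivity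
  have hη1 : η ≤ 1 := by
    have := min_le_right ε 1
    rw [hη]
    linarith
  have hηε : 15 * η ≤ ε := by
    have := min_le_left ε 1
    rw [hη]
    linarith
  have hr : 0 < Real.sqrt 2 - 1 := by
    have : (1 : ℝ) < Real.sqrt 2 := by
      rw [Real.lt_sqrt (by norm_num)]
      norm_num
    linarith
  obtain ⟨w₀, hw₀⟩ := hHVA η hη0
  obtain ⟨X₀, hX₀⟩ := eventually_atTop.1 ((hGPA (η * (2 * (Real.sqrt 2 - 1))) (by positivity)).and
    (eventually_gt_atTop 1))
  have key : ∀ X : ℝ, X₀ ≤ X → 1 < X ∧ ∃ e : ℝ, |e| ≤ η ∧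
      GH X = 2 * (Real.sqrt 2 - 1) * (Real.sqrt X / Real.log X) * (1 + e) := by
    intro X hX
    obtain ⟨h1, h2⟩ := hX₀ X hX
    refine ⟨h2, fac ?_ ?_⟩
    · have := Real.log_pos h2
      have : 0 < Real.sqrt X := Real.sqrt_pos.2 (by linarith)
      positivity
    · rw [← mul_assoc]
      exact h1
  refine ⟨max w₀ X₀, fun p b h hw hP hK hM hb hlog hc hh => ?_⟩
  obtain ⟨hP1, e1, h1, hGP⟩ := key _ ((le_max_right _ _).trans hP)
  obtain ⟨hK1, e2, h2, hGK⟩ := key _ ((le_max_right _ _).trans hK)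
  obtain ⟨hM1, e3, h3, hGM⟩ := key _ ((le_max_right _ _).trans hM)
  obtain ⟨e0, h0, hV⟩ := fac hh (hw₀ p.w ((le_max_left _ _).trans hw) b hb hlog h hc)
  have hprod := prod4 hη1 h0 h1 h2 h3
  have hm : 0 < mt h p.P p.K p.M2 := by
    unfold mt
    have l1 := Real.log_pos hP1
    have l2 := Real.log_pos hK1
    have l3 := Real.log_pos hM1
    have l4 : 0 < Real.sqrt (p.P * p.K * p.M2) := by
      apply Real.sqrt_pos.2
      have : 0 < p.P := by linarith
      have : 0 < p.K := by linarith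
      have : 0 < p.M2 := by linarith
      positivity
    positivity
  have hMM : MM p 1 b = mt h p.P p.K p.M2 * ((1 + e0) * (1 + e1) * ((1 + e2) * (1 + e3))) := by
    unfold MM mt
    rw [nm_one, Nat.cast_one, div_one, Real.sqrt_one, div_one, hGP, hGK, hGM,
      Real.sqrt_mul (by nlinarith), Real.sqrt_mul (by linarith)]
    exact alg hV
  have h5 : MM p 1 b - mt h p.P p.K p.M2 =
      mt h p.P p.K p.M2 * ((1 + e0) * (1 + e1) * ((1 + e2) * (1 + e3)) - 1) := by
    rw [hMM]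
    ring
  rw [h5, abs_mul, abs_of_pos hm, mul_comm ε]
  exact mul_le_mul_of_nonneg_left (hprod.trans hηε) hm.le

end Pool.Agent.Lib.MP391708.X4
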