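import Pool.Agent.Lib.MP_391708_nt.X4.Spec
import Pool.Agent.Lib.MP_391708_nt.X.PSI

/-!
# THEOREM X4 (MP_391708), module FMA: the main term, asymptotically
-/

set_option autoImplicit false

namespace Pool.Agent.Lib.MP391708.X4

open Finset Filter Topology Pool.Agent.Lib.MP391708.MR
open Pool.Agent.Lib.MP391708.X (ChiG hk Dist Fam rgh VP Ix psi ix1 UOK lc On)
open Pool.Agent.Lib.MP391708.X3
open Pool.Agent.Lib.MP391708.X3M
open Pool.Agent.Lib.MP391708.XL (VS PS)

namespace FMAM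

lemma psi_ix1 (z : Gi) : psi ix1 z = 1 := by
  simp [psi, hk, ix1, xi]

lemma GH_nonneg (X : ℝ) : 0 ≤ GH X := sum_nonneg fun _ _ => by positivity

lemma ev_h (H : ℝ) : EV (fun p _ _ _ _ => H ≤ p.h) := by
  intro cw aU aQ aF _ _ _ _ _
  refine ⟨1, 1, one_pos, fun ch hch δ _ _ => ⟨0, fun cP _ => ⟨0, fun cT _ => ⟨0, fun cB _ => ?_⟩⟩⟩⟩
  filter_upwards [Real.tendsto_log_atTop.eventually_ge_atTop (max H 1)] with N hN T P B U b y _
  have h1 : H ≤ Real.log N := (le_max_left _ _).trans hN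
  have h2 : 1 ≤ Real.log N := (le_max_right _ _).trans hN
  have h3 : Real.log N ^ (1 : ℝ) ≤ Real.log N ^ ch := Real.rpow_le_rpow_of_exponent_le h2 hch
  rw [Real.rpow_one] at h3
  exact h1.trans h3

end FMAM

open FMAM Classical in
/-- **FMA**. -/
theorem specFMA (hFLP : SpecFLP) (hRED : SpecRED) (hBLX : SpecBLX) (hAVB : SpecAVB)
    (hTTA : SpecTTA) (hGSZ : SpecGSZ) (hRRA : SpecRRA) (hSIZ : SpecSIZ) : SpecFMA := by
  intro ε hε
  obtain ⟨C, hC, hF⟩ := hFLP
  obtain ⟨c, hc, hG⟩ := hGSZ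
  have hπ : 0 < Real.pi := Real.pi_pos
  -- the constants
  set η : ℝ := min 1 (ε / 6) with hη
  have hη0 : 0 < η := lt_min one_pos (by positivity)
  have hη1 : η ≤ 1 := min_le_left _ _
  have hη2 : η ≤ ε / 6 := min_le_right _ _
  set δ : ℝ := ε * c / 4 with hδ
  have hδ0 : 0 < δ := by positivity
  obtain ⟨m₀, hm₀⟩ := hRED C δ hC hδ0
  obtain ⟨m₁, hm₁⟩ := exists_nat_ge (Real.log (C / η))
  set m : ℕ := max m₀ m₁ with hm
  have hCm : C * Real.exp (-(m : ℝ)) ≤ η := by
    have h1 : Real.log (C / η) ≤ m := hm₁.trans (by exact_mod_cast le_max_right m₀ m₁)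
    have h2 : Real.exp (-(m : ℝ)) ≤ Real.exp (-(Real.log (C / η))) :=
      Real.exp_le_exp.2 (by linarith)
    rw [Real.exp_neg (Real.log (C / η)), Real.exp_log (by positivity), inv_div] at h2
    calc C * Real.exp (-(m : ℝ)) ≤ C * (η / C) := mul_le_mul_of_nonneg_left h2 hC.le
      _ = η := by field_simp
  have hlη : 0 < Real.log (1 + η) := Real.log_pos (by linarith)
  have h := ((((((((hm₀ m (le_max_left _ _)).and (hBLX C δ m hC hδ0)).and (hAVB C m)).and
    hTTA).and hRRA).and EV.uok).and hSIZ).and (ev_h (1 / Real.log (1 + η)))).and hG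
  refine h.mono ?_
  rintro p B U b y ⟨⟨⟨⟨⟨⟨⟨⟨r1, r2⟩, r3⟩, r4⟩, r5⟩, r6⟩, r7⟩, r8⟩, r9⟩
  obtain ⟨cc, dd, hW⟩ := hF m (p.w + 1) (by linarith [r7.w1])
  specialize r1 cc dd hW
  specialize r2 cc dd hW
  obtain ⟨r3a, r3b, r3c⟩ := r3 cc dd hW
  obtain ⟨hV, -, -⟩ := r5
  obtain ⟨hix, r6⟩ := r6
  obtain ⟨hMM, hXX, -⟩ := r9
  have hVS : 0 ≤ VS b (PS p.w) := by
    by_contra hneg
    push Not at hneg
    have h1 : VS b (PS p.w) / VP p.w ≤ 0 := (div_neg_of_neg_of_pos hneg hV).le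
    have h2 : MM p y b ≤ 0 := by
      unfold MM
      refine div_nonpos_of_nonpos_of_nonneg (mul_nonpos_of_nonpos_of_nonneg
        (mul_nonpos_of_nonneg_of_nonpos (by positivity) h1) ?_) (Real.sqrt_nonneg _)
      exact mul_nonneg (mul_nonneg (GH_nonneg _) (GH_nonneg _)) (GH_nonneg _)
    linarith
  have hh0 : 0 < p.h := lt_of_lt_of_le (by positivity) r8
  have hexp : Real.exp (1 / p.h) ≤ 1 + η := by
    rw [← Real.exp_log (show (0 : ℝ) < 1 + η by linarith), Real.exp_le_exp,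
      div_le_iff₀ hh0, ← div_le_iff₀' hlη]
    exact r8
  choose! x hx1 hx2 hx3 using r4
  -- the coefficient of the trivial character
  set a : ℝ := (AV p m cc U b ix1 ix1).re with ha
  have hAV : AV p m cc U b ix1 ix1 = (a : ℂ) := Complex.ext rfl (by rw [r3b, Complex.ofReal_im])
  have ha1 : VS b (PS p.w) ≤ a := r3c
  have ha2 : a ≤ (1 + η) * VS b (PS p.w) := by
    have h1 := r3a ix1 hix
    rw [hAV, Complex.norm_real] at h1
    calc a ≤ ‖a‖ := Real.le_norm_self a
      _ ≤ (1 + C * Real.exp (-(m : ℝ))) * VS b (PS p.w) := h1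
      _ ≤ _ := mul_le_mul_of_nonneg_right (by linarith) hVS
  have ha0 : 0 ≤ a := hVS.trans ha1
  -- the sum of the weights
  set g : Gi → ℝ := fun π => GH (p.K / nm y) * GH p.M2 / Real.sqrt ((nm y : ℝ) * nm π) with hg
  have hg0 : ∀ π, 0 ≤ g π := fun π =>
    div_nonneg (mul_nonneg (GH_nonneg _) (GH_nonneg _)) (Real.sqrt_nonneg _)
  have hsum : 1 / (2 * Real.pi * VP p.w) * (VS b (PS p.w) * ∑ π ∈ GP p.P (2 * p.P), 4 * g π) =
      MM p y b := by
    have e1 : ∑ π ∈ GP p.P (2 * p.P), 4 * g π =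
        4 * (GH (p.K / nm y) * GH p.M2 / Real.sqrt (nm y)) * GH p.P := by
      rw [show GH p.P = ∑ π ∈ GP p.P (2 * p.P), 1 / Real.sqrt (nm π) from rfl, mul_sum]
      refine sum_congr rfl fun π _ => ?_
      simp only [hg]
      rw [Real.sqrt_mul (Nat.cast_nonneg _)]
      ring
    rw [e1]
    unfold MM
    field_simp
    ring
  have hMM0 : 0 ≤ MM p y b := by
    rw [← hsum]
    exact mul_nonneg (by positivity) (mul_nonneg hVS (sum_nonneg fun π _ =>
      mul_nonneg (by norm_num) (hg0 π)))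
  set R : ℝ := 1 / (2 * Real.pi * VP p.w) * ∑ π ∈ GP p.P (2 * p.P), a * x π with hR
  have hR1 : MM p y b ≤ R := by
    rw [← hsum, hR]
    refine mul_le_mul_of_nonneg_left ?_ (by positivity)
    rw [mul_sum]
    exact sum_le_sum fun π hπ' => mul_le_mul ha1 (hx2 π hπ')
      (mul_nonneg (by norm_num) (hg0 π)) ha0
  have hR2 : R ≤ (1 + η) * (1 + η) * MM p y b := by
    have e1 : ∑ π ∈ GP p.P (2 * p.P), a * x π ≤
        (1 + η) * (1 + η) * (VS b (PS p.w) * ∑ π ∈ GP p.P (2 * p.P), 4 * g π) := by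
      rw [mul_sum, mul_sum]
      refine sum_le_sum fun π hπ' => ?_
      have h1 : x π ≤ 4 * g π * (1 + η) :=
        (hx3 π hπ').trans (mul_le_mul_of_nonneg_left hexp (mul_nonneg (by norm_num) (hg0 π)))
      calc a * x π ≤ a * (4 * g π * (1 + η)) := mul_le_mul_of_nonneg_left h1 ha0
        _ ≤ ((1 + η) * VS b (PS p.w)) * (4 * g π * (1 + η)) :=
            mul_le_mul_of_nonneg_right ha2 (mul_nonneg (mul_nonneg (by norm_num) (hg0 π))
              (by linarith))
        _ = _ := by ring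
    calc R ≤ 1 / (2 * Real.pi * VP p.w) * ((1 + η) * (1 + η) * (VS b (PS p.w) *
          ∑ π ∈ GP p.P (2 * p.P), 4 * g π)) := mul_le_mul_of_nonneg_left e1 (by positivity)
      _ = (1 + η) * (1 + η) * (1 / (2 * Real.pi * VP p.w) * (VS b (PS p.w) *
          ∑ π ∈ GP p.P (2 * p.P), 4 * g π)) := by ring
      _ = _ := by rw [hsum]
  -- the other characters
  set M : ℂ := ((1 / (2 * Real.pi * VP p.w) : ℝ) : ℂ) * ∑ π ∈ GP p.P (2 * p.P), ∑ i ∈ U,
    psi i y * psi i π * (AV p m cc U b i ix1 * TT p y π b i) with hMdef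
  have hM2 : ‖M - (R : ℂ)‖ ≤ δ * XX p y b / (2 * Real.pi) := by
    have e1 : M - (R : ℂ) = ((1 / (2 * Real.pi * VP p.w) : ℝ) : ℂ) * ∑ π ∈ GP p.P (2 * p.P),
        ∑ i ∈ U.erase ix1, psi i y * psi i π * (AV p m cc U b i ix1 * TT p y π b i) := by
      rw [hMdef, hR, Complex.ofReal_mul, ← mul_sub, Complex.ofReal_sum, ← sum_sub_distrib]
      congr 1
      refine sum_congr rfl fun π hπ' => ?_
      rw [← Finset.add_sum_erase U
        (fun i => psi i y * psi i π * (AV p m cc U b i ix1 * TT p y π b i)) hix]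
      simp only [psi_ix1]
      rw [hAV, hx1 π hπ']
      push_cast
      ring
    have e2 : ∀ π ∈ GP p.P (2 * p.P), ‖∑ i ∈ U.erase ix1, psi i y * psi i π *
        (AV p m cc U b i ix1 * TT p y π b i)‖ ≤ δ * VS b (PS p.w) * Z0 p y := by
      intro π hπ'
      refine (norm_sum_le _ _).trans (le_trans ?_ (r2 π hπ'))
      rw [Finset.filter_ne']
      refine Finset.sum_le_sum fun i hi => ?_
      have hiU := Finset.mem_of_mem_erase hi
      obtain ⟨-, hχ, -, -⟩ := r6 i hiU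
      rw [norm_mul, norm_mul]
      have n1 := X.PSIM.norm_psi_le hχ y
      have n2 := X.PSIM.norm_psi_le hχ π
      calc ‖psi i y‖ * ‖psi i π‖ * ‖AV p m cc U b i ix1 * TT p y π b i‖ ≤
            1 * 1 * ‖AV p m cc U b i ix1 * TT p y π b i‖ := by
            gcongr
        _ = ‖AV p m cc U b i ix1 * TT p y π b i‖ := by ring
    rw [e1, norm_mul, Complex.norm_real, Real.norm_of_nonneg (by positivity)]
    calc 1 / (2 * Real.pi * VP p.w) * ‖∑ π ∈ GP p.P (2 * p.P),
          ∑ i ∈ U.erase ix1, psi i y * psi i π * (AV p m cc U b i ix1 * TT p y π b i)‖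
        ≤ 1 / (2 * Real.pi * VP p.w) * (((GP p.P (2 * p.P)).card : ℝ) *
          (δ * VS b (PS p.w) * Z0 p y)) := by
          refine mul_le_mul_of_nonneg_left ?_ (by positivity)
          refine (norm_sum_le_of_le _ e2).trans ?_
          rw [sum_const, nsmul_eq_mul]
      _ = _ := by
          unfold XX
          ring
  -- the conclusion
  have hsplit : sy p y b (Kap p U) - (MM p y b : ℂ) =
      (sy p y b (Kap p U) - M) + (M - (R : ℂ)) + ((R - MM p y b : ℝ) : ℂ) := by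
    push_cast
    ring
  have hlast : ‖((R - MM p y b : ℝ) : ℂ)‖ ≤ ε / 2 * MM p y b := by
    rw [Complex.norm_real, Real.norm_of_nonneg (by linarith)]
    have h1 : (1 + η) * (1 + η) ≤ 1 + ε / 2 := by nlinarith
    nlinarith [mul_le_mul_of_nonneg_right h1 hMM0]
  have hd : δ / c = ε / 4 := by
    rw [hδ]
    field_simp
  have hXX2 : XX p y b ≤ MM p y b / c := by
    rw [le_div_iff₀ hc, mul_comm]
    exact hXX
  rw [hsplit]
  refine (norm_add₃_le).trans ?_
  have h1 : δ * XX p y b ≤ ε / 4 * MM p y b := by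
    rw [← hd]
    calc δ * XX p y b ≤ δ * (MM p y b / c) := mul_le_mul_of_nonneg_left hXX2 hδ0.le
      _ = _ := by ring
  have h2 : δ * XX p y b / (2 * Real.pi) ≤ ε / 4 * MM p y b := by
    rw [div_le_iff₀ (by positivity)]
    refine h1.trans (le_mul_of_one_le_right (mul_nonneg (by positivity) hMM0) ?_)
    have := Real.pi_gt_three
    linarith
  linarith

end Pool.Agent.Lib.MP391708.X4
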