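import Pool.Agent.Lib.MP_391708_nt.X4.Spec

/-!
# THEOREM X4 (MP_391708), module GPA: the sum of `N(π)^(-1/2)` over the Gaussian primes of a dyadic annulus (helper46)
-/

set_option autoImplicit false

namespace Pool.Agent.Lib.MP391708.X4

open Finset Filter Topology Pool.Agent.Lib.MP391708.MR

namespace GPAM

/-- change of scale in `F(M) log M / M → c` -/
lemma scale {F : ℝ → ℝ} {c a : ℝ} (ha : 0 < a)
    (h : Tendsto (fun M => F M * Real.log M / M) atTop (𝓝 c)) :
    Tendsto (fun X => F (a * X) * Real.log X / X) atTop (𝓝 (c * a)) := by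
  have h1 : Tendsto (fun X : ℝ => a * X) atTop atTop := tendsto_id.const_mul_atTop ha
  have h2 : Tendsto (fun X : ℝ => Real.log X / Real.log (a * X)) atTop (𝓝 1) := by
    have h5 : Tendsto (fun X : ℝ => 1 / (Real.log a / Real.log X + 1)) atTop (𝓝 (1 / (0 + 1))) := by
      apply Tendsto.div tendsto_const_nhds _ (by norm_num)
      apply Tendsto.add_const
      exact Tendsto.const_div_atTop Real.tendsto_log_atTop _
    simp only [zero_add, div_one] at h5
    refine h5.congr' ?_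
    filter_upwards [eventually_gt_atTop 1, h1.eventually_gt_atTop 1] with X hX hX2
    have h6 : Real.log X ≠ 0 := (Real.log_pos hX).ne'
    have h7 : Real.log (a * X) = Real.log a + Real.log X :=
      Real.log_mul ha.ne' (by linarith)
    have h8 : Real.log (a * X) ≠ 0 := (Real.log_pos hX2).ne'
    rw [h7] at h8 ⊢
    field_simp
  have h3 := ((h.comp h1).mul_const a).mul h2
  rw [mul_one] at h3
  refine h3.congr' ?_
  filter_upwards [eventually_gt_atTop 1, h1.eventually_gt_atTop 1] with X hX hX2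
  simp only [Function.comp_apply]
  have h6 : Real.log X ≠ 0 := (Real.log_pos hX).ne'
  have h8 : Real.log (a * X) ≠ 0 := (Real.log_pos hX2).ne'
  have : X ≠ 0 := by linarith
  field_simp

/-- the number of Gaussian primes in `(M, lam M]` -/
lemma card_tendsto (hg : X.SpecGPL) {lam : ℝ} (hl : 1 < lam) :
    Tendsto (fun M => ((GP M (lam * M)).card : ℝ) * Real.log M / M) atTop (𝓝 (lam - 1)) := by
  rw [Metric.tendsto_nhds]
  intro ε hε
  filter_upwards [hg lam (ε / 2) hl (by positivity), eventually_gt_atTop 1] with M h1 h2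
  have h3 : 0 < Real.log M := Real.log_pos h2
  have h4 : 0 < M := by linarith
  rw [Real.dist_eq]
  have h5 : ((GP M (lam * M)).card : ℝ) * Real.log M / M - (lam - 1) =
      (((GP M (lam * M)).card : ℝ) - (lam - 1) * M / Real.log M) * (Real.log M / M) := by
    field_simp
  rw [h5, abs_mul, abs_of_pos (by positivity : 0 < Real.log M / M)]
  calc _ ≤ (ε / 2 * M / Real.log M) * (Real.log M / M) := by gcongr
    _ = ε / 2 := by field_simp
    _ < ε := by linarith

lemma split {P Q R : ℝ} (h1 : P ≤ Q) (h2 : Q ≤ R) (f : Gi → ℝ) :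
    ∑ π ∈ GP P R, f π = ∑ π ∈ GP P Q, f π + ∑ π ∈ GP Q R, f π := by
  classical
  have hd : Disjoint (GP P Q) (GP Q R) := by
    rw [Finset.disjoint_left]
    intro z hz hz2
    rw [mem_GP] at hz hz2
    linarith [hz.2.2.2.2.2, hz2.2.2.2.2.1]
  rw [← sum_union hd]
  congr 1
  ext z
  rw [mem_union, mem_GP, mem_GP, mem_GP]
  constructor
  · rintro ⟨a, b, c, d, e, g⟩
    rcases le_or_gt (nm z : ℝ) Q with h | h
    · exact Or.inl ⟨a, b, c, d, e, h⟩
    · exact Or.inr ⟨a, b, c, d, h, g⟩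
  · rintro (⟨a, b, c, d, e, g⟩ | ⟨a, b, c, d, e, g⟩)
    · exact ⟨a, b, c, d, e, g.trans h2⟩
    · exact ⟨a, b, c, d, lt_of_le_of_lt h1 e, g⟩

lemma splitn {a : ℕ → ℝ} (ha : Monotone a) (f : Gi → ℝ) (n : ℕ) :
    ∑ π ∈ GP (a 0) (a n), f π = ∑ j ∈ range n, ∑ π ∈ GP (a j) (a (j + 1)), f π := by
  induction n with
  | zero =>
    rw [range_zero, sum_empty]
    refine sum_eq_zero fun z hz => ?_
    rw [mem_GP] at hz
    exact absurd hz.2.2.2.2.1 (not_lt.2 hz.2.2.2.2.2)
  | succ n ih =>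
    rw [sum_range_succ, ← ih]
    exact split (ha (Nat.zero_le n)) (ha (Nat.le_succ n)) f

lemma upper {P Q : ℝ} (hP : 0 < P) :
    ∑ π ∈ GP P Q, 1 / Real.sqrt (nm π) ≤ ((GP P Q).card : ℝ) * (1 / Real.sqrt P) := by
  rw [← nsmul_eq_mul]
  refine sum_le_card_nsmul _ _ _ fun z hz => ?_
  rw [mem_GP] at hz
  have h := hz.2.2.2.2.1
  exact one_div_le_one_div_of_le (Real.sqrt_pos.2 hP) (Real.sqrt_le_sqrt h.le)

lemma lower {P Q : ℝ} (hP : 0 < P) :
    ((GP P Q).card : ℝ) * (1 / Real.sqrt Q) ≤ ∑ π ∈ GP P Q, 1 / Real.sqrt (nm π) := by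
  rw [← nsmul_eq_mul]
  refine card_nsmul_le_sum _ _ _ fun z hz => ?_
  rw [mem_GP] at hz
  have h := hz.2.2.2.2.1
  exact one_div_le_one_div_of_le (Real.sqrt_pos.2 (hP.trans h)) (Real.sqrt_le_sqrt hz.2.2.2.2.2)

lemma alg {c L X s m : ℝ} (hX : X = s * s) (hs : s ≠ 0) (hm : m ≠ 0) :
    c * L / X * (1 / m) = c * (1 / (m * s)) * L / s := by
  subst hX
  field_simp

lemma alg2 {c L X s m μ : ℝ} (hX : X = s * s) (hs : s ≠ 0) (hm : m ≠ 0) (hμ : μ ≠ 0) :
    1 / μ * (c * L / X * (1 / m)) = c * (1 / (m * μ * s)) * L / s := by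
  subst hX
  field_simp

/-- the upper sum -/
noncomputable def UU (μ : ℝ) (n : ℕ) (X : ℝ) : ℝ :=
  ∑ j ∈ range n, (((GP (μ ^ (2 * j) * X) (μ ^ 2 * (μ ^ (2 * j) * X))).card : ℝ) * Real.log X / X) * (1 / μ ^ j)

lemma UU_tendsto (hg : X.SpecGPL) {μ : ℝ} (hμ : 1 < μ) (n : ℕ) :
    Tendsto (UU μ n) atTop (𝓝 ((μ + 1) * (μ ^ n - 1))) := by
  have h1 : ∀ j ∈ range n, Tendsto (fun X : ℝ =>
      (((GP (μ ^ (2 * j) * X) (μ ^ 2 * (μ ^ (2 * j) * X))).card : ℝ) * Real.log X / X) * (1 / μ ^ j)) atTop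
      (𝓝 (((μ ^ 2 - 1) * μ ^ (2 * j)) * (1 / μ ^ j))) := by
    intro j _
    refine Tendsto.mul_const _ ?_
    exact scale (F := fun M => ((GP M (μ ^ 2 * M)).card : ℝ)) (by positivity) (card_tendsto hg (by nlinarith))
  have h2 := tendsto_finsetSum _ h1
  have h3 : ∑ j ∈ range n, ((μ ^ 2 - 1) * μ ^ (2 * j)) * (1 / μ ^ j) = (μ + 1) * (μ ^ n - 1) := by
    have h4 : ∀ j ∈ range n, ((μ ^ 2 - 1) * μ ^ (2 * j)) * (1 / μ ^ j) = (μ ^ 2 - 1) * μ ^ j := by
      intro j _
      have : μ ^ j ≠ 0 := by positivity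
      rw [two_mul, pow_add]
      field_simp
    rw [sum_congr rfl h4, ← mul_sum, geom_sum_eq hμ.ne']
    have : μ - 1 ≠ 0 := by linarith
    field_simp
    ring
  rw [h3] at h2
  exact h2

lemma bounds {μ : ℝ} (hμ : 1 < μ) {n : ℕ} (hn : μ ^ (2 * n) = 2) {X : ℝ} (hX : 1 < X) :
    (∑ π ∈ GP X (2 * X), 1 / Real.sqrt (nm π)) * Real.log X / Real.sqrt X ≤ UU μ n X ∧
    (1 / μ) * UU μ n X ≤ (∑ π ∈ GP X (2 * X), 1 / Real.sqrt (nm π)) * Real.log X / Real.sqrt X := by
  have hX0 : 0 < X := by linarith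
  have hl : 0 < Real.log X := Real.log_pos hX
  have hμ0 : 0 < μ := by linarith
  have hs : 0 < Real.sqrt X := Real.sqrt_pos.2 hX0
  set a : ℕ → ℝ := fun j => μ ^ (2 * j) * X with ha
  have hmono : Monotone a := by
    intro i j hij
    simp only [ha]
    have : μ ^ (2 * i) ≤ μ ^ (2 * j) := pow_le_pow_right₀ hμ.le (by omega)
    gcongr
  have h0 : a 0 = X := by simp [ha]
  have h1 : a n = 2 * X := by simp [ha, hn]
  have h2 : ∀ j, a (j + 1) = μ ^ 2 * (μ ^ (2 * j) * X) := by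
    intro j
    simp only [ha]
    ring
  have h3 : ∀ j, Real.sqrt (a j) = μ ^ j * Real.sqrt X := by
    intro j
    simp only [ha]
    rw [Real.sqrt_mul (by positivity), mul_comm 2 j, pow_mul, Real.sqrt_sq (by positivity)]
  have h4 := splitn hmono (fun π => 1 / Real.sqrt (nm π)) n
  rw [h0, h1] at h4
  rw [h4, sum_mul, sum_div, UU, mul_sum]
  have hXs : X = Real.sqrt X * Real.sqrt X := (Real.mul_self_sqrt hX0.le).symm
  constructor
  · refine sum_le_sum fun j _ => ?_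
    have haj : 0 < a j := by simp only [ha]; positivity
    have h5 := upper (Q := a (j + 1)) haj
    rw [h3 j] at h5
    rw [← h2 j]
    change _ ≤ ((GP (a j) (a (j + 1))).card : ℝ) * Real.log X / X * (1 / μ ^ j)
    have h6 : ((GP (a j) (a (j + 1))).card : ℝ) * Real.log X / X * (1 / μ ^ j) =
        ((GP (a j) (a (j + 1))).card : ℝ) * (1 / (μ ^ j * Real.sqrt X)) * Real.log X / Real.sqrt X :=
      alg hXs hs.ne' (by positivity)
    rw [h6]
    gcongr
  · refine sum_le_sum fun j _ => ?_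
    have haj : 0 < a j := by simp only [ha]; positivity
    have h5 := lower (Q := a (j + 1)) haj
    rw [h3 (j + 1)] at h5
    rw [← h2 j]
    change 1 / μ * (((GP (a j) (a (j + 1))).card : ℝ) * Real.log X / X * (1 / μ ^ j)) ≤ _
    have h6 : 1 / μ * (((GP (a j) (a (j + 1))).card : ℝ) * Real.log X / X * (1 / μ ^ j)) =
        ((GP (a j) (a (j + 1))).card : ℝ) * (1 / (μ ^ (j + 1) * Real.sqrt X)) * Real.log X / Real.sqrt X := by
      rw [pow_succ]
      exact alg2 hXs hs.ne' (by positivity) hμ0.ne'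
    rw [h6]
    gcongr

lemma main (hg : X.SpecGPL) : Tendsto (fun X : ℝ => (∑ π ∈ GP X (2 * X), 1 / Real.sqrt (nm π)) * Real.log X / Real.sqrt X)
    atTop (𝓝 (2 * (Real.sqrt 2 - 1))) := by
  set μ : ℕ → ℝ := fun n => (2 : ℝ) ^ ((1 / 2 : ℝ) * (1 / ((n : ℝ) + 1))) with hμ
  have hμ1 : ∀ n, 1 < μ n := fun n => Real.one_lt_rpow (by norm_num) (by positivity)
  have hμn : ∀ n, μ n ^ (n + 1) = Real.sqrt 2 := by
    intro n
    simp only [hμ]
    rw [← Real.rpow_natCast, ← Real.rpow_mul (by norm_num), Real.sqrt_eq_rpow]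
    congr 1
    push_cast
    field_simp
  have hμ2 : ∀ n, μ n ^ (2 * (n + 1)) = 2 := by
    intro n
    rw [mul_comm, pow_mul, hμn, Real.sq_sqrt (by norm_num)]
  have hμt : Tendsto μ atTop (𝓝 1) := by
    have h1 : Tendsto (fun n : ℕ => (1 / 2 : ℝ) * (1 / ((n : ℝ) + 1))) atTop (𝓝 ((1 / 2 : ℝ) * 0)) :=
      tendsto_one_div_add_atTop_nhds_zero_nat.const_mul _
    rw [mul_zero] at h1
    have h2 := ((Real.continuous_const_rpow (by norm_num : (2 : ℝ) ≠ 0)).tendsto 0).comp h1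
    rw [Real.rpow_zero] at h2
    exact h2
  have hU : Tendsto (fun n => (μ n + 1) * (Real.sqrt 2 - 1)) atTop (𝓝 (2 * (Real.sqrt 2 - 1))) := by
    have := (hμt.add_const 1).mul_const (Real.sqrt 2 - 1)
    norm_num at this ⊢
    exact this
  have hL : Tendsto (fun n => (1 / μ n) * ((μ n + 1) * (Real.sqrt 2 - 1))) atTop
      (𝓝 (2 * (Real.sqrt 2 - 1))) := by
    have h1 : Tendsto (fun n => 1 / μ n) atTop (𝓝 1) := by
      have h2 := hμt.inv₀ one_ne_zero
      rw [inv_one] at h2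
      exact h2.congr fun n => (one_div _).symm
    have := h1.mul hU
    rwa [one_mul] at this
  rw [tendsto_order]
  constructor
  · intro a ha
    obtain ⟨n, hn⟩ := (hL.eventually_const_lt ha).exists
    have h1 := (UU_tendsto hg (hμ1 n) (n + 1)).const_mul (1 / μ n)
    rw [hμn] at h1
    filter_upwards [h1.eventually_const_lt hn, eventually_gt_atTop 1] with X h2 h3
    exact h2.trans_le (bounds (hμ1 n) (hμ2 n) h3).2
  · intro a ha
    obtain ⟨n, hn⟩ := (hU.eventually_lt_const ha).exists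
    have h1 := UU_tendsto hg (hμ1 n) (n + 1)
    rw [hμn] at h1
    filter_upwards [h1.eventually_lt_const hn, eventually_gt_atTop 1] with X h2 h3
    exact (bounds (hμ1 n) (hμ2 n) h3).1.trans_lt h2

end GPAM

/-- GPA: the sum of `N(π)^(-1/2)` over the Gaussian primes of a dyadic annulus -/
theorem specGPA (hg : X.SpecGPL) : SpecGPA := by
  intro ε hε
  filter_upwards [(Metric.tendsto_nhds.1 (GPAM.main hg)) ε hε, eventually_gt_atTop 1] with X h1 h2
  have h3 : 0 < Real.log X := Real.log_pos h2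
  have h4 : 0 < Real.sqrt X := Real.sqrt_pos.2 (by linarith)
  rw [Real.dist_eq] at h1
  have h5 : GH X - 2 * (Real.sqrt 2 - 1) * (Real.sqrt X / Real.log X) =
      ((∑ π ∈ GP X (2 * X), 1 / Real.sqrt (nm π)) * Real.log X / Real.sqrt X - 2 * (Real.sqrt 2 - 1)) *
        (Real.sqrt X / Real.log X) := by
    unfold GH
    field_simp
  rw [h5, abs_mul, abs_of_pos (by positivity : 0 < Real.sqrt X / Real.log X)]
  gcongr

end Pool.Agent.Lib.MP391708.X4
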