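import Pool.Agent.Lib.MP_391708_nt.X4.Spec

/-!
# THEOREM X4 (MP_391708), module GSZ: the sizes (helper89)
-/

set_option autoImplicit false

namespace Pool.Agent.Lib.MP391708.X4

open Finset Filter Topology Pool.Agent.Lib.MP391708.MR
open Pool.Agent.Lib.MP391708.X (ChiG hk Dist Fam rgh VP Ix psi ix1 UOK lc On)
open Pool.Agent.Lib.MP391708.X3
open Pool.Agent.Lib.MP391708.XL (VS PS)

namespace GSZM

/-- the number of the primes against `GH` -/
theorem gh_card {X : ℝ} : ((GP X (2 * X)).card : ℝ) / Real.sqrt (2 * X) ≤ GH X := by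
  unfold GH
  rw [div_eq_mul_one_div, ← nsmul_eq_mul, ← Finset.sum_const]
  refine Finset.sum_le_sum fun z hz => ?_
  obtain ⟨_, _, pz, _, lz, uz⟩ := mem_GP.1 hz
  have h0 : (0 : ℝ) < nm z := by exact_mod_cast pz.pos
  exact one_div_le_one_div_of_le (Real.sqrt_pos.2 h0) (Real.sqrt_le_sqrt uz)

theorem gh_low (hG : SpecGPA) : ∀ᶠ X : ℝ in atTop,
    3 / 10 * (Real.sqrt X / Real.log X) ≤ GH X := by
  filter_upwards [hG (1 / 2) (by norm_num), eventually_gt_atTop 1] with X hX hX1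
  have h2 : (7 / 5 : ℝ) ≤ Real.sqrt 2 := Real.le_sqrt_of_sq_le (by norm_num)
  have hl : 0 < Real.log X := Real.log_pos hX1
  have h3 : 0 ≤ Real.sqrt X / Real.log X := by positivity
  have h4 := (abs_le.1 hX).1
  nlinarith [mul_nonneg (sub_nonneg.2 h2) h3]

theorem ev_N {Q : ℝ → Prop} (h : ∀ᶠ N : ℝ in atTop, Q N) :
    X3M.EV (fun p _ _ _ _ => Q p.N) := by
  intro cw aU aQ aF _ _ _ _ _
  refine ⟨0, 1, one_pos, fun ch _ δ _ _ => ⟨0, fun cP _ => ⟨0, fun cT _ => ⟨0, fun cB _ => ?_⟩⟩⟩⟩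
  filter_upwards [h] with N hN T P B U b y _
  exact hN

theorem ev_log {c : ℝ} (hc : 0 < c) : X3M.EV (fun p _ _ _ _ =>
    Real.log p.P * Real.log (p.w + 1) ^ 4 ≤ c * Real.log p.N ^ 3) := by
  intro cw aU aQ aF h0 _ _ _ _
  refine ⟨0, 1, one_pos, fun ch _ δ _ _ => ⟨0, fun cP hcP => ⟨0, fun cT _ => ⟨0, fun cB _ => ?_⟩⟩⟩⟩
  have hA : 0 < 2 * cP * (cw + 1) ^ 4 + 1 := by positivity
  have hk : 0 < c / (2 * cP * (cw + 1) ^ 4 + 1) := by positivity
  have e1 := (Real.isLittleO_pow_log_id_atTop (n := 5)).bound hk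
  filter_upwards [Real.tendsto_log_atTop.eventually e1,
    Real.tendsto_log_atTop.eventually_ge_atTop 2] with N hN hN2 T P B U b y hcx
  change Real.log P * Real.log (Real.log N ^ cw + 1) ^ 4 ≤ c * Real.log N ^ 3
  set l := Real.log N with hl
  have hl0 : 0 < l := by linarith
  have hl1 : 1 ≤ l := by linarith
  have hL : 0 ≤ Real.log l := Real.log_nonneg hl1
  rw [Real.norm_eq_abs, Real.norm_eq_abs, abs_of_nonneg (pow_nonneg hL 5), id,
    abs_of_pos hl0] at hN
  have hP1 : (1 : ℝ) ≤ P := (Real.one_le_rpow hl1 hcP).trans hcx.box.P1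
  have hP2 : Real.log P ≤ 2 * cP * Real.log l := by
    rw [← Real.log_rpow hl0]
    exact Real.log_le_log (by linarith) hcx.box.P2
  have hP3 : 0 ≤ Real.log P := Real.log_nonneg hP1
  have hw1 : 1 ≤ l ^ cw := Real.one_le_rpow hl1 (by linarith)
  have hw : l ^ cw + 1 ≤ l ^ (cw + 1) := by
    rw [Real.rpow_add hl0, Real.rpow_one]
    nlinarith
  have hw2 : Real.log (l ^ cw + 1) ≤ (cw + 1) * Real.log l := by
    rw [← Real.log_rpow hl0]
    exact Real.log_le_log (by linarith) hw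
  have hw3 : 0 ≤ Real.log (l ^ cw + 1) := Real.log_nonneg (by linarith)
  calc Real.log P * Real.log (l ^ cw + 1) ^ 4
      ≤ (2 * cP * Real.log l) * ((cw + 1) * Real.log l) ^ 4 :=
        mul_le_mul hP2 (pow_le_pow_left₀ hw3 hw2 4) (by positivity) (by positivity)
    _ = 2 * cP * (cw + 1) ^ 4 * Real.log l ^ 5 := by ring
    _ ≤ (2 * cP * (cw + 1) ^ 4 + 1) * Real.log l ^ 5 := by
        have : 0 ≤ Real.log l ^ 5 := pow_nonneg hL 5
        nlinarith
    _ ≤ (2 * cP * (cw + 1) ^ 4 + 1) * (c / (2 * cP * (cw + 1) ^ 4 + 1) * l) :=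
        mul_le_mul_of_nonneg_left hN hA.le
    _ = c * l := by field_simp
    _ ≤ c * l ^ 3 := by
        have h1 : l ≤ l ^ 3 := by nlinarith [mul_pos hl0 hl0, sq_nonneg (l - 1)]
        exact mul_le_mul_of_nonneg_left h1 hc.le

/-- the inequality in one context -/
theorem one {N l n V W g K M2 P a b₁ b₂ : ℝ} (hN : 0 < N) (hl : 0 < l) (hn : 0 < n) (hV : 0 < V)
    (hW : 0 < W) (hg : 0 ≤ g) (hP : 0 < P) (hK : 0 < K) (hM2 : 0 < M2)
    (hprod : 8 * K * P * M2 = N ^ 2) (ha : g / Real.sqrt (2 * P) ≤ a)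
    (hb₁ : 3 / 10 * (Real.sqrt (K / n) / l) ≤ b₁) (hb₂ : 3 / 10 * (Real.sqrt M2 / (2 * l)) ≤ b₂) :
    1 / 25 * (V / W * g * (K / n * M2 / (N * l ^ 2))) ≤
      2 / Real.pi * (V / W) * (a * b₁ * b₂) / Real.sqrt n := by
  have hs : 0 < Real.sqrt (K / n) := Real.sqrt_pos.2 (by positivity)
  have ht : 0 < Real.sqrt M2 := Real.sqrt_pos.2 hM2
  have hq : 0 < Real.sqrt (2 * P) := Real.sqrt_pos.2 (by positivity)
  have hr : 0 < Real.sqrt n := Real.sqrt_pos.2 hn
  have es : Real.sqrt (K / n) ^ 2 = K / n := Real.sq_sqrt (by positivity)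
  have et : Real.sqrt M2 ^ 2 = M2 := Real.sq_sqrt hM2.le
  have eq' : Real.sqrt (2 * P) ^ 2 = 2 * P := Real.sq_sqrt (by positivity)
  have er : Real.sqrt n ^ 2 = n := Real.sq_sqrt hn.le
  set s := Real.sqrt (K / n) with hsd
  set t := Real.sqrt M2 with htd
  set q := Real.sqrt (2 * P) with hqd
  set r := Real.sqrt n with hrd
  have hKn : K = s ^ 2 * r ^ 2 := by
    rw [es, er]; field_simp
  have hNN : N = 2 * s * r * q * t := by
    have h1 : N ^ 2 = (2 * s * r * q * t) ^ 2 := by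
      rw [← hprod]
      have : P = q ^ 2 / 2 := by rw [eq']; ring
      rw [hKn, this, ← et]; ring
    have h2 : 0 ≤ 2 * s * r * q * t := by positivity
    exact (pow_left_inj₀ hN.le h2 (by norm_num)).1 h1
  have hVW : 0 < V / W := by positivity
  have hpi : 1 / 2 ≤ 2 / Real.pi := by
    rw [div_le_div_iff₀ (by norm_num) Real.pi_pos]
    linarith [Real.pi_le_four]
  have hab : g / q * (3 / 10 * (s / l)) * (3 / 10 * (t / (2 * l))) ≤ a * b₁ * b₂ := by
    have h1 : 0 ≤ g / q := by positivity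
    have h2 : 0 ≤ 3 / 10 * (s / l) := by positivity
    have h3 : 0 ≤ 3 / 10 * (t / (2 * l)) := by positivity
    exact mul_le_mul (mul_le_mul ha hb₁ h2 (h1.trans ha)) hb₂ h3
      (mul_nonneg (h1.trans ha) (h2.trans hb₁))
  have h5 : 1 / 25 * (V / W * g * (K / n * M2 / (N * l ^ 2))) ≤
      1 / 2 * (V / W) * (g / q * (3 / 10 * (s / l)) * (3 / 10 * (t / (2 * l)))) / r := by
    have e1 : K / n * M2 / (N * l ^ 2) = s * t / (2 * r * q * l ^ 2) := by
      rw [← es, ← et, hNN]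
      field_simp
    rw [e1]
    have e2 : 1 / 2 * (V / W) * (g / q * (3 / 10 * (s / l)) * (3 / 10 * (t / (2 * l)))) / r =
        9 / 200 * (V / W * g * (s * t / (2 * r * q * l ^ 2))) := by
      field_simp
      ring
    rw [e2]
    have h6 : 0 ≤ V / W * g * (s * t / (2 * r * q * l ^ 2)) := by positivity
    nlinarith
  refine h5.trans ?_
  have h7 : 0 ≤ g / q * (3 / 10 * (s / l)) * (3 / 10 * (t / (2 * l))) := by positivity
  gcongr

end GSZM

theorem specGSZ (hG : SpecGPA) (hS : X3M.SpecSIZ) (hR : X3M.SpecRRA) (hX : X3M.SpecXXL)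
    (hL : Pool.Agent.Lib.MP391708.XL.SpecLSM) : SpecGSZ := by
  obtain ⟨c₁, hc₁, hXe⟩ := hX
  obtain ⟨_, _, _, _, _, c', hc', hE⟩ := hL
  obtain ⟨X0, hX0⟩ := eventually_atTop.1 (GSZM.gh_low hG)
  refine ⟨1 / 25, by norm_num, ?_⟩
  have h1 := GSZM.ev_N (eventually_ge_atTop X0)
  have h1' := GSZM.ev_N ((tendsto_rpow_atTop (by norm_num : (0 : ℝ) < 9 / 10)).eventually_ge_atTop
    (max X0 2))
  have h2 := GSZM.ev_log (c := 1 / 25 * c₁ * c') (by positivity)
  refine (((((h1.and h1').and h2).and hS).and hR).and hXe).mono ?_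
  rintro p B U b y ⟨⟨⟨⟨⟨hN0, hN1⟩, hlg⟩, hs⟩, hVP, hVP1, _⟩, hx, hx0⟩
  obtain ⟨hV1, hV2, _⟩ := hE b p.w hs.w1
  have hP1 := hs.P1
  have hNm := hs.N1
  have hlm := hs.l1
  have hlP : 0 < Real.log p.P := Real.log_pos (by linarith)
  have hny : (0 : ℝ) < nm y := by
    have := hs.ny
    exact_mod_cast this
  have hNp : 0 < p.N := by linarith
  have hl : 0 < Real.log p.N := by linarith
  have hKy : max X0 2 ≤ p.K / nm y := hN1.trans hs.K1
  have hK2 : 2 ≤ p.K / nm y := (le_max_right _ _).trans hKy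
  have hK0 : 0 < p.K := by
    by_contra h3
    push Not at h3
    exact absurd (div_nonpos_of_nonpos_of_nonneg h3 hny.le) (by linarith)
  have hM2N := hs.M21
  have hM2 : 0 < p.M2 := lt_of_lt_of_le hNp hM2N
  have hb₁ : 3 / 10 * (Real.sqrt (p.K / nm y) / Real.log p.N) ≤ GH (p.K / nm y) := by
    refine le_trans ?_ (hX0 _ ((le_max_left _ _).trans hKy))
    have h3 : 0 < Real.log (p.K / nm y) := Real.log_pos (by linarith)
    have h4 : Real.log (p.K / nm y) ≤ Real.log p.N := Real.log_le_log (by linarith) hs.K2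
    exact mul_le_mul_of_nonneg_left (div_le_div_of_nonneg_left (Real.sqrt_nonneg _) h3 h4)
      (by norm_num)
  have hb₂ : 3 / 10 * (Real.sqrt p.M2 / (2 * Real.log p.N)) ≤ GH p.M2 := by
    refine le_trans ?_ (hX0 _ (hN0.trans hM2N))
    have h3 : 0 < Real.log p.M2 := Real.log_pos (by linarith)
    have h4 : Real.log p.M2 ≤ 2 * Real.log p.N := by
      have h5 : p.M2 ≤ p.N ^ (3 / 2 : ℝ) := by
        have := hs.M22
        linarith
      have h6 := Real.log_le_log hM2 h5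
      rw [Real.log_rpow hNp] at h6
      linarith
    exact mul_le_mul_of_nonneg_left (div_le_div_of_nonneg_left (Real.sqrt_nonneg _) h3 h4)
      (by norm_num)
  have hmain : 1 / 25 * X3M.XX p y b ≤ MM p y b := by
    unfold MM X3M.XX X3M.Z0
    exact GSZM.one hNp hl hny hV2 hVP (Nat.cast_nonneg _) (by linarith) hK0 hM2 hs.prod
      GSZM.gh_card hb₁ hb₂
  have hVW : 0 < VS b (PS p.w) / VP p.w := by positivity
  have hXpos : 0 < X3M.XX p y b := by
    refine lt_of_lt_of_le ?_ hx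
    positivity
  refine ⟨by linarith, hmain, fun hy => ?_⟩
  subst hy
  have hn1 : ((nm (1 : Gi) : ℕ) : ℝ) = 1 := by
    have : nm (1 : Gi) = 1 := by decide
    rw [this]; norm_num
  rw [hn1, mul_one] at hx
  have hLw : 0 < Real.log (p.w + 1) := Real.log_pos (by linarith [hs.w1])
  have hVW1 : c' / Real.log (p.w + 1) ^ 4 ≤ VS b (PS p.w) / VP p.w := by
    rw [le_div_iff₀ hVP]
    have h3 : 0 < c' / Real.log (p.w + 1) ^ 4 := by positivity
    nlinarith
  refine le_trans ?_ hmain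
  have h4 : 1 / 25 * (c₁ * (c' / Real.log (p.w + 1) ^ 4) *
      (p.N / (Real.log p.N ^ 2 * Real.log p.P))) ≤ 1 / 25 * X3M.XX p 1 b := by
    refine mul_le_mul_of_nonneg_left (le_trans ?_ hx) (by norm_num)
    gcongr
  refine le_trans ?_ h4
  have e1 : 1 / 25 * (c₁ * (c' / Real.log (p.w + 1) ^ 4) *
      (p.N / (Real.log p.N ^ 2 * Real.log p.P))) =
      (1 / 25 * c₁ * c') * p.N / (Real.log p.N ^ 2 * (Real.log p.P * Real.log (p.w + 1) ^ 4)) := by
    field_simp
  rw [e1, div_le_div_iff₀ (by positivity) (by positivity)]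
  have h5 : p.N * (Real.log p.N ^ 2 * (Real.log p.P * Real.log (p.w + 1) ^ 4)) ≤
      p.N * (Real.log p.N ^ 2 * (1 / 25 * c₁ * c' * Real.log p.N ^ 3)) := by
    gcongr
  refine h5.trans (le_of_eq ?_)
  ring

end Pool.Agent.Lib.MP391708.X4
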