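import Pool.Agent.Lib.MP_391708_nt.X4.Spec
import Pool.Agent.Lib.MP_391708_nt.XP.O.SSB
import Pool.Agent.Lib.MP_391708_nt.XP.O.HGB
import Pool.Agent.Lib.MP_391708_nt.XP.O.H1C
import Pool.Agent.Lib.MP_391708_nt.X.RGB
import Pool.Agent.Lib.MP_391708_nt.X.NTS

/-!
# THEOREM X4 (MP_391708), module HVA (helper49): `(4/π) VS/VP` tends to the constant of the problem
-/

set_option autoImplicit false

namespace Pool.Agent.Lib.MP391708.X4

open Finset Filter Topology Pool.Agent.Lib.MP391708.MR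
open Pool.Agent.Lib.MP391708.X (PI VP)
open Pool.Agent.Lib.MP391708.XL (VS PS gb pt)
open Pool.Agent.Lib.MP391708.XP (IsConst)

namespace HVAM

/-! ## the exact formula for `VP` -/

/-- the norm of the Gaussian primes over `p` -/
lemma nm_over {π : Gi} (hπ : Prime π) : (nm π).minFac.Prime ∧
    ((nm π).minFac % 4 ≠ 3 → nm π = (nm π).minFac) ∧
    ((nm π).minFac % 4 = 3 → nm π = (nm π).minFac ^ 2) := by
  have hu : nm π ≠ 1 := fun h => hπ.not_isUnit (isUnit_iff_nm.2 h)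
  have hp := Nat.minFac_prime hu
  obtain ⟨ρ, hρ, hd, h1, h2⟩ := XL.RGBM.ex_prime _ hp π (Nat.minFac_dvd _)
  have h3 : nm π = nm ρ := by
    obtain ⟨u, hu⟩ := hd
    have hun : IsUnit u := (hπ.irreducible.isUnit_or_isUnit hu).resolve_left hρ.not_isUnit
    have h4 : nm u = 1 := isUnit_iff_nm.1 hun
    have h5 : nm π = nm ρ * nm u := by
      conv_lhs => rw [hu]
      exact nm_mul _ _
    rw [h5, h4, mul_one]
  exact ⟨hp, fun h => h3.trans (h1 h), fun h => h3.trans (h2 h)⟩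

lemma maps {w : ℝ} (hw : 0 ≤ w) {π : Gi} (h : π ∈ PI w) : (nm π).minFac ∈ PS w := by
  obtain ⟨h1, h2, -, -⟩ := X.VPLM.mem_PI'.1 h
  obtain ⟨hp, h3, h4⟩ := nm_over h2
  rw [XL.RGBM.mem_PS w hw]
  by_cases h5 : (nm π).minFac % 4 = 3
  · have h6 : (((nm π).minFac : ℕ) : ℝ) ^ 2 ≤ w := by
      have h7 : ((nm π : ℕ) : ℝ) = (((nm π).minFac : ℕ) : ℝ) ^ 2 := by
        exact_mod_cast h4 h5
      rw [← h7]
      exact h1
    have h8 : (1 : ℝ) ≤ (((nm π).minFac : ℕ) : ℝ) := by exact_mod_cast hp.one_lt.le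
    exact ⟨by nlinarith, hp, Or.inr h6⟩
  · refine ⟨?_, hp, Or.inl h5⟩
    have h7 : ((nm π : ℕ) : ℝ) = (((nm π).minFac : ℕ) : ℝ) := by
      exact_mod_cast h3 h5
    rw [← h7]
    exact h1

/-- the fibre over `p` -/
noncomputable def fib (w : ℝ) (p : ℕ) : Finset Gi := (PI w).filter (fun π => (nm π).minFac = p)

lemma mem_fib {w : ℝ} {p : ℕ} {π : Gi} : π ∈ fib w p ↔ π ∈ PI w ∧ (nm π).minFac = p := by
  unfold fib
  rw [mem_filter]

lemma fib_two {w : ℝ} (h2 : (2 : ℝ) ≤ w) : fib w 2 = {(⟨1, 1⟩ : Gi)} := by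
  have hn : nm (⟨1, 1⟩ : Gi) = 2 := by
    have h := nm_cast (⟨1, 1⟩ : Gi)
    norm_num at h
    exact_mod_cast h
  ext π
  rw [mem_fib, mem_singleton, X.VPLM.mem_PI']
  constructor
  · rintro ⟨⟨h1, hp, h3, h4⟩, h5⟩
    obtain ⟨-, h6, -⟩ := nm_over hp
    have h7 : nm π = 2 := by
      have := h6 (by rw [h5]; norm_num)
      rw [this, h5]
    have h8 : (nm π : ℤ) = π.re ^ 2 + π.im ^ 2 := nm_cast π
    rw [h7] at h8
    push_cast at h8
    have h9 : π.re ≤ 1 := by nlinarith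
    have h10 : π.re = 1 := by omega
    rw [h10] at h8
    have h11 : π.im = 1 := by nlinarith
    ext
    · exact h10
    · exact h11
  · rintro rfl
    refine ⟨⟨by rw [hn]; exact_mod_cast h2, prime_of_nm_prime (by rw [hn]; exact Nat.prime_two), by norm_num, by norm_num⟩, ?_⟩
    rw [hn]
    rfl

lemma fib_three {w : ℝ} {p : ℕ} (hp : p.Prime) (h3 : p % 4 = 3) (hw : (p : ℝ) ^ 2 ≤ w) :
    fib w p = {(p : Gi)} := by
  have : Fact p.Prime := ⟨hp⟩
  have hpi : Prime (p : Gi) := GaussianInt.prime_of_nat_prime_of_mod_four_eq_three p h3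
  have hn : nm (p : Gi) = p ^ 2 := XL.RGBM.nm_natCast p
  have hmem : (p : Gi) ∈ PI w := by
    rw [X.VPLM.mem_PI']
    refine ⟨by rw [hn]; exact_mod_cast hw, hpi, ?_, ?_⟩
    · simpa using hp.pos
    · simp
  ext π
  rw [mem_fib, mem_singleton]
  constructor
  · rintro ⟨h1, h2⟩
    obtain ⟨-, -, h5⟩ := nm_over (X.VPLM.mem_PI'.1 h1).2.1
    rw [h2] at h5
    have h6 : p ∣ nm π := by
      rw [h5 h3]
      exact dvd_pow_self p two_ne_zero
    obtain ⟨ρ, hρ, hd, -, h8⟩ := XL.RGBM.ex_prime p hp π h6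
    have h9 : (p : Gi) ∣ π * star π := by
      rw [← XL.RGBM.star_mul_cast]
      exact_mod_cast (Nat.cast_dvd_cast (α := Gi) h6)
    have h10 : (p : Gi) ∣ π := by
      rcases hpi.dvd_or_dvd h9 with h | h
      · exact h
      · have := XL.RGBM.star_dvd h
        rw [star_star] at this
        simpa using this
    exact (X.NTSM.eq_of_dvd hmem h1 h10).symm
  · rintro rfl
    refine ⟨hmem, ?_⟩
    rw [hn, Nat.pow_minFac (by norm_num), hp.minFac_eq]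

lemma fib_one {w : ℝ} {p : ℕ} (hp : p.Prime) (h1 : p % 4 = 1) (hw : (p : ℝ) ≤ w) :
    (fib w p).card = 2 := by
  have e : (fib w p) = (PI w).filter (fun π => nm π = p) := by
    ext π
    rw [mem_fib, mem_filter]
    constructor
    · rintro ⟨h2, h3⟩
      obtain ⟨-, h4, -⟩ := nm_over (X.VPLM.mem_PI'.1 h2).2.1
      rw [h3] at h4
      exact ⟨h2, h4 (by omega)⟩
    · rintro ⟨h2, h3⟩
      exact ⟨h2, by rw [h3]; exact hp.minFac_eq⟩
  refine le_antisymm ?_ (by rw [e]; exact XP.SSBM.two_card hp h1 hw)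
  -- at most two
  by_contra hc
  push Not at hc
  obtain ⟨x, hx, y, hy, z, hz, hxy, hxz, hyz⟩ := Finset.two_lt_card.1 hc
  rw [e, mem_filter] at hx hy hz
  have key : ∀ π ρ : Gi, (π ∈ PI w ∧ nm π = p) → (ρ ∈ PI w ∧ nm ρ = p) → π ≠ ρ →
      ρ.re = π.im ∧ ρ.im = π.re := by
    rintro π ρ ⟨hπ, hπn⟩ ⟨hρ, hρn⟩ hne
    obtain ⟨-, hπp, hπ1, hπ2⟩ := X.VPLM.mem_PI'.1 hπ
    obtain ⟨-, hρp, hρ1, hρ2⟩ := X.VPLM.mem_PI'.1 hρ
    have him : 0 < π.im := by
      rcases hπ2.eq_or_lt with h | h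
      · exfalso
        have h8 : (nm π : ℤ) = π.re ^ 2 + π.im ^ 2 := nm_cast π
        rw [← h, hπn] at h8
        have h9 : (p : ℤ) = π.re ^ 2 := by rw [h8]; ring
        have h10 : ¬ IsSquare (p : ℤ) := by
          rw [Int.isSquare_natCast_iff]
          exact (Nat.Prime.prime hp).irreducible.not_isSquare
        exact h10 ⟨π.re, by rw [h9]; ring⟩
      · exact h
    have h5 : ρ ∣ π * star π := by
      rw [← XL.RGBM.star_mul_cast, hπn, ← hρn, XL.RGBM.star_mul_cast]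
      exact dvd_mul_right _ _
    rcases hρp.dvd_or_dvd h5 with h | h
    · exact absurd (X.NTSM.eq_of_dvd hρ hπ h).symm hne
    · have h6 : ρ ∣ (⟨π.im, π.re⟩ : Gi) := by
        obtain ⟨c, hc⟩ := h
        refine ⟨c * ⟨0, 1⟩, ?_⟩
        rw [← mul_assoc, ← hc]
        ext <;> simp
      have h7 : (⟨π.im, π.re⟩ : Gi) ∈ PI w := by
        have h8 : nm (⟨π.im, π.re⟩ : Gi) = p := by
          have h9 : ((nm (⟨π.im, π.re⟩ : Gi) : ℕ) : ℤ) = ((nm π : ℕ) : ℤ) := by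
            rw [nm_cast, nm_cast]
            ring
          rw [hπn] at h9
          exact_mod_cast h9
        rw [X.VPLM.mem_PI']
        exact ⟨by rw [h8]; exact hw, prime_of_nm_prime (by rw [h8]; exact hp), him, hπ1.le⟩
      have h8 := X.NTSM.eq_of_dvd hρ h7 h6
      rw [h8]
      exact ⟨rfl, rfl⟩
  have a1 := key x y hx hy hxy
  have a2 := key x z hx hz hxz
  apply hyz
  ext
  · rw [a1.1, a2.1]
  · rw [a1.2, a2.2]

/-- the local factor of `VP` -/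
noncomputable def vp (p : ℕ) : ℝ :=
  if p = 2 then 1 / 2 else if p % 4 = 3 then 1 - 1 / (p : ℝ) ^ 2 else (1 - 1 / (p : ℝ)) ^ 2

lemma VP_eq {w : ℝ} (hw : 2 ≤ w) : VP w = ∏ p ∈ PS w, vp p := by
  classical
  have hw0 : 0 ≤ w := by linarith
  unfold VP
  rw [← Finset.prod_fiberwise_of_maps_to (t := PS w) (g := fun π : Gi => (nm π).minFac)
    (fun π h => maps hw0 h)]
  refine prod_congr rfl fun p hp => ?_
  obtain ⟨h1, hpp, h3⟩ := (XL.RGBM.mem_PS w hw0 p).1 hp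
  have e : (PI w).filter (fun π => (nm π).minFac = p) = fib w p := rfl
  rw [e]
  unfold vp
  split_ifs with h2 h4
  · subst h2
    rw [fib_two hw, prod_singleton]
    have hn : nm (⟨1, 1⟩ : Gi) = 2 := by
      have h := nm_cast (⟨1, 1⟩ : Gi)
      norm_num at h
      exact_mod_cast h
    rw [hn]
    norm_num
  · rw [fib_three hpp h4 (h3.resolve_left (by simpa using h4)), prod_singleton,
      XL.RGBM.nm_natCast]
    push_cast
    rfl
  · have h5 : p % 4 = 1 := by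
      rcases Nat.odd_mod_four_iff.1 (Nat.odd_iff.1 (hpp.odd_of_ne_two h2)) with h | h
      · exact h
      · exact absurd h h4
    have h6 : ∏ π ∈ fib w p, (1 - 1 / (nm π : ℝ)) = ∏ _π ∈ fib w p, (1 - 1 / (p : ℝ)) := by
      refine prod_congr rfl fun π hπ => ?_
      obtain ⟨h7, h8⟩ := mem_fib.1 hπ
      obtain ⟨-, h9, -⟩ := nm_over (X.VPLM.mem_PI'.1 h7).2.1
      rw [h8] at h9
      rw [h9 h4]
    rw [h6, prod_const, fib_one hpp h5 h1]

/-! ## the local factors -/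

/-- the character modulo 4 -/
noncomputable def ch (p : ℕ) : ℝ := (jacobiSym (-1) p : ℝ)

/-- the factor of the Euler product at `1` -/
noncomputable def EE (p : ℕ) : ℝ := (1 - ch p / p)⁻¹

lemma ch_one {p : ℕ} (h : p % 4 = 1) : ch p = 1 := by
  unfold ch
  rw [jacobiSym.at_neg_one (Nat.odd_iff.2 (by omega)), ZMod.χ₄_nat_one_mod_four h]
  norm_num

lemma ch_three {p : ℕ} (h : p % 4 = 3) : ch p = -1 := by
  unfold ch
  rw [jacobiSym.at_neg_one (Nat.odd_iff.2 (by omega)), ZMod.χ₄_nat_three_mod_four h]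
  norm_num

lemma mod4 {p : ℕ} (hp : p.Prime) (h2 : p ≠ 2) : p % 4 = 1 ∨ p % 4 = 3 :=
  Nat.odd_mod_four_iff.1 (Nat.odd_iff.1 (hp.odd_of_ne_two h2))

lemma three_le {p : ℕ} (hp : p.Prime) (h2 : p ≠ 2) : (3 : ℝ) ≤ p := by
  have := hp.two_le
  exact_mod_cast (show 3 ≤ p by omega)

lemma vp_odd {p : ℕ} (hp : p.Prime) (h2 : p ≠ 2) :
    vp p = (1 - 1 / (p : ℝ)) * (1 - ch p / p) := by
  unfold vp
  rw [if_neg h2]
  have h3 := three_le hp h2
  rcases mod4 hp h2 with h | h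
  · rw [if_neg (by omega), ch_one h]
    ring
  · rw [if_pos h, ch_three h]
    ring

lemma gb_rho (b p : ℕ) : gb (b : ℤ) p = (QPA.rho ((b : ℤ) ^ 2) p : ℝ) / p := by
  unfold gb QPA.rho
  have h : (range p).filter (fun n : ℕ => p ∣ nm (pt n (b : ℤ))) =
      (range p).filter (fun ν : ℕ => (p : ℤ) ∣ (ν : ℤ) ^ 2 + (b : ℤ) ^ 2) := by
    refine filter_congr fun n _ => ?_
    rw [XL.GBBM.dvd_pt]
  rw [h]

lemma gb_two (b : ℕ) : gb (b : ℤ) 2 = 1 / 2 := by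
  rw [gb_rho, QPA.specRHO2]
  norm_num

lemma gb_odd (b : ℕ) {p : ℕ} (hp : p.Prime) (h2 : p ≠ 2) :
    1 - gb (b : ℤ) p = XP.HGBM.F b p * (1 - 1 / (p : ℝ)) := by
  have h3 := three_le hp h2
  have h4 := QPA.specRHOP ((b : ℤ) ^ 2) p hp h2
  have h5 : (QPA.rho ((b : ℤ) ^ 2) p : ℝ) = 1 + (jacobiSym (-((b : ℤ) ^ 2)) p : ℝ) := by
    exact_mod_cast h4
  rw [gb_rho, h5]
  unfold XP.HGBM.F
  have h6 : (p : ℝ) - 1 ≠ 0 := by linarith
  have h7 : (p : ℝ) ≠ 0 := by linarith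
  field_simp
  ring

lemma one_sub_pos {p : ℕ} (hp : p.Prime) (h2 : p ≠ 2) : 0 < 1 - ch p / (p : ℝ) := by
  have h3 := three_le hp h2
  have h4 : 0 < 1 / (p : ℝ) := by positivity
  have h5 : 1 / (p : ℝ) ≤ 1 / 3 := one_div_le_one_div_of_le (by norm_num) h3
  rcases mod4 hp h2 with h | h
  · rw [ch_one h]
    linarith
  · rw [ch_three h, neg_div]
    linarith

lemma loc (b : ℕ) {p : ℕ} (hp : p.Prime) (h2 : p ≠ 2) :
    (1 - gb (b : ℤ) p) / vp p = XP.HGBM.F b p * EE p := by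
  have h3 := three_le hp h2
  have h5 : 1 / (p : ℝ) ≤ 1 / 3 := one_div_le_one_div_of_le (by norm_num) h3
  rw [gb_odd b hp h2, vp_odd hp h2]
  unfold EE
  have h6 : 1 - 1 / (p : ℝ) ≠ 0 := by linarith
  have h7 := (one_sub_pos hp h2).ne'
  rw [mul_comm (1 - 1 / (p : ℝ)) (1 - ch p / p), mul_div_mul_right _ _ h6, div_eq_mul_inv]

lemma F_pos (b : ℕ) {p : ℕ} (hp : p.Prime) (h2 : p ≠ 2) : 0 < XP.HGBM.F b p := by
  by_cases h : p ∣ b
  · rw [XP.HGBM.F_dvd hp h]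
    exact one_pos
  · rw [XP.HGBM.F_ndvd hp h]
    exact XP.HGBM.F1_pos hp h2

lemma EE_pos {p : ℕ} (hp : p.Prime) (h2 : p ≠ 2) : 0 < EE p := inv_pos.2 (one_sub_pos hp h2)

open XP.HGBM (F R W)

/-- the primes missing in `PS w` -/
noncomputable def Miss (w : ℝ) : Finset ℕ := by
  classical exact (R ⌊w⌋₊).filter (fun p => ¬ (p % 4 ≠ 3 ∨ (p : ℝ) ^ 2 ≤ w))

lemma mem_R {X p : ℕ} : p ∈ R X ↔ p ≤ X ∧ p.Prime ∧ p ≠ 2 := by
  unfold R
  rw [mem_filter, mem_range, Nat.lt_succ_iff]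

lemma mem_Miss {w : ℝ} (hw : 0 ≤ w) {p : ℕ} :
    p ∈ Miss w ↔ (p : ℝ) ≤ w ∧ p.Prime ∧ p % 4 = 3 ∧ w < (p : ℝ) ^ 2 := by
  unfold Miss
  rw [mem_filter, mem_R, Nat.le_floor_iff hw]
  constructor
  · rintro ⟨⟨h1, h2, h3⟩, h4⟩
    push Not at h4
    exact ⟨h1, h2, h4.1, h4.2⟩
  · rintro ⟨h1, h2, h3, h4⟩
    refine ⟨⟨h1, h2, by rintro rfl; omega⟩, ?_⟩
    push Not
    exact ⟨h3, h4⟩

lemma ratio_eq (b : ℕ) {w : ℝ} (hw : 2 ≤ w) :
    VS (b : ℤ) (PS w) / VP w * ∏ p ∈ Miss w, (F b p * EE p) = ∏ p ∈ R ⌊w⌋₊, (F b p * EE p) := by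
  classical
  have hw0 : 0 ≤ w := by linarith
  have h1 : VS (b : ℤ) (PS w) / VP w =
      ∏ p ∈ (R ⌊w⌋₊).filter (fun p : ℕ => p % 4 ≠ 3 ∨ (p : ℝ) ^ 2 ≤ w), (F b p * EE p) := by
    rw [VP_eq hw]
    unfold VS
    rw [← prod_div_distrib]
    have h2 : (R ⌊w⌋₊).filter (fun p : ℕ => p % 4 ≠ 3 ∨ (p : ℝ) ^ 2 ≤ w) =
        (PS w).filter (fun p : ℕ => p ≠ 2) := by
      ext p
      rw [mem_filter, mem_filter, mem_R, XL.RGBM.mem_PS w hw0, Nat.le_floor_iff hw0]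
      tauto
    rw [h2, prod_filter]
    refine prod_congr rfl fun p hp => ?_
    obtain ⟨h3, h4, h5⟩ := (XL.RGBM.mem_PS w hw0 p).1 hp
    split_ifs with h6
    · exact loc b h4 h6
    · push Not at h6
      subst h6
      rw [gb_two]
      unfold vp
      norm_num
  rw [h1]
  unfold Miss
  exact prod_filter_mul_prod_filter_not _ _ _

/-! ## the decomposition -/

lemma splitX (b X : ℕ) :
    ∏ p ∈ R X, F 1 p = (∏ p ∈ R X, F b p) * ∏ p ∈ (R X).filter (fun p => p ∣ b), F 1 p := by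
  rw [Finset.prod_filter, ← Finset.prod_mul_distrib]
  refine Finset.prod_congr rfl fun p hp => ?_
  have hp' : p.Prime := (mem_R.1 hp).2.1
  split_ifs with h
  · rw [XP.HGBM.F_dvd hp' h, one_mul]
  · rw [XP.HGBM.F_ndvd hp' h, mul_one]

lemma splitW {b : ℕ} (hb : 1 ≤ b) (X : ℕ) :
    ∏ p ∈ W b, F 1 p = (∏ p ∈ (R X).filter (fun p => p ∣ b), F 1 p) *
      ∏ p ∈ (W b).filter (fun p => X < p), F 1 p := by
  have h1 : (R X).filter (fun p => p ∣ b) = (W b).filter (fun p => ¬ X < p) := by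
    ext p
    unfold W
    rw [mem_filter, mem_filter, mem_filter, mem_R, Nat.mem_primeFactors, not_lt]
    constructor
    · rintro ⟨⟨h1, h2, h3⟩, h4⟩
      exact ⟨⟨⟨h2, h4, by omega⟩, h3⟩, h1⟩
    · rintro ⟨⟨⟨h2, h4, h5⟩, h3⟩, h1⟩
      exact ⟨⟨h1, h2, h3⟩, h4⟩
  rw [h1, mul_comm]
  exact (prod_filter_mul_prod_filter_not _ _ _).symm

/-- the large primes which divide `b` -/
noncomputable def D2 (b : ℕ) (w : ℝ) : ℝ := ∏ p ∈ (W b).filter (fun p => ⌊w⌋₊ < p), F 1 p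

/-- the missing primes -/
noncomputable def Mis (b : ℕ) (w : ℝ) : ℝ := ∏ p ∈ Miss w, (F b p * EE p)

lemma mem_W {b p : ℕ} : p ∈ W b ↔ (p.Prime ∧ p ∣ b ∧ b ≠ 0) ∧ p ≠ 2 := by
  unfold W
  rw [mem_filter, Nat.mem_primeFactors]

lemma Mis_pos (b : ℕ) {w : ℝ} (hw : 2 ≤ w) : 0 < Mis b w := by
  refine prod_pos fun p hp => ?_
  obtain ⟨-, h2, h3, -⟩ := (mem_Miss (by linarith)).1 hp
  have h4 : p ≠ 2 := by rintro rfl; omega
  exact mul_pos (F_pos b h2 h4) (EE_pos h2 h4)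

lemma decomp {b : ℕ} (hb : 1 ≤ b) {w : ℝ} (hw : 2 ≤ w) {h1 : ℝ} (hh : 0 < h1) :
    4 / Real.pi * (VS (b : ℤ) (PS w) / VP w) =
      (h1 * (∏ p ∈ W b, F 1 p)⁻¹) *
        (4 / Real.pi * (∏ p ∈ R ⌊w⌋₊, EE p) * ((∏ p ∈ R ⌊w⌋₊, F 1 p) / h1)) *
        (D2 b w * (Mis b w)⁻¹) := by
  have e1 := ratio_eq b hw
  have e2 := splitX b ⌊w⌋₊
  have e3 := splitW hb ⌊w⌋₊
  have hM := Mis_pos b hw
  have hD1 : 0 < ∏ p ∈ (R ⌊w⌋₊).filter (fun p => p ∣ b), F 1 p := by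
    refine prod_pos fun p hp => ?_
    have := mem_R.1 (mem_filter.1 hp).1
    exact F_pos 1 this.2.1 this.2.2
  have hD2 : 0 < D2 b w := by
    refine prod_pos fun p hp => ?_
    have := mem_W.1 (mem_filter.1 hp).1
    exact F_pos 1 this.1.1 this.2
  have hFb : 0 < ∏ p ∈ R ⌊w⌋₊, F b p := by
    refine prod_pos fun p hp => ?_
    have := mem_R.1 hp
    exact F_pos b this.2.1 this.2.2
  have e1' : VS (b : ℤ) (PS w) / VP w =
      (∏ p ∈ R ⌊w⌋₊, F b p) * (∏ p ∈ R ⌊w⌋₊, EE p) / Mis b w := by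
    rw [eq_div_iff hM.ne', ← prod_mul_distrib]
    exact e1
  rw [e1', e3, e2]
  have e4 : ∏ p ∈ (W b).filter (fun p => ⌊w⌋₊ < p), F 1 p = D2 b w := rfl
  rw [e4]
  have := Real.pi_pos
  field_simp

/-! ## bounds -/

lemma log_le_sqrt {b : ℕ} (hb : 1 ≤ b) {w : ℝ} (h : Real.log b ^ 2 ≤ w) :
    Real.log b ≤ Real.sqrt w := by
  have h0 : 0 ≤ Real.log b := Real.log_nonneg (by exact_mod_cast hb)
  exact Real.le_sqrt_of_sq_le h

lemma card_large {b : ℕ} (hb : 1 ≤ b) {z : ℝ} (hz : 1 < z) {T : Finset ℕ}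
    (hT : T ⊆ b.primeFactors) (h : ∀ p ∈ T, z < (p : ℝ)) :
    (T.card : ℝ) * Real.log z ≤ Real.log b := by
  have h1 : z ^ T.card ≤ (b : ℝ) := by
    calc z ^ T.card = ∏ _p ∈ T, z := (Finset.prod_const _).symm
      _ ≤ ∏ p ∈ T, (p : ℝ) := prod_le_prod (fun _ _ => by linarith) (fun p hp => (h p hp).le)
      _ = ((∏ p ∈ T, p : ℕ) : ℝ) := by push_cast; rfl
      _ ≤ (b : ℝ) := by
          have h2 : ∏ p ∈ T, p ∣ b :=
            (Finset.prod_dvd_prod_of_subset T b.primeFactors (fun p => p) hT).trans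
              (Nat.prod_primeFactors_dvd b)
          exact_mod_cast Nat.le_of_dvd (by omega) h2
  have h3 := Real.log_le_log (by positivity) h1
  rwa [Real.log_pow] at h3

lemma F1_near {p : ℕ} (hp : p.Prime) (h2 : p ≠ 2) :
    1 - 1 / ((p : ℝ) - 1) ≤ F 1 p ∧ F 1 p ≤ 1 + 1 / ((p : ℝ) - 1) := by
  have h3 := three_le hp h2
  have h4 : 0 < 1 / ((p : ℝ) - 1) := by
    apply one_div_pos.2
    linarith
  rcases mod4 hp h2 with h | h
  · rw [XP.HGBM.F1_one h]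
    constructor <;> linarith
  · rw [XP.HGBM.F1_three h]
    constructor <;> linarith

lemma D2_bound {b : ℕ} (hb : 1 ≤ b) {w : ℝ} (hw : 9 ≤ w) (h : Real.log b ^ 2 ≤ w) :
    1 - 2 / Real.sqrt w ≤ D2 b w ∧ D2 b w ≤ Real.exp (2 / Real.sqrt w) := by
  set T := (W b).filter (fun p => ⌊w⌋₊ < p) with hTd
  have hT : ∀ p ∈ T, p.Prime ∧ p ≠ 2 ∧ w < (p : ℝ) ∧ p ∈ b.primeFactors := by
    intro p hp
    rw [hTd, mem_filter] at hp
    have h1 := mem_W.1 hp.1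
    exact ⟨h1.1.1, h1.2, Nat.lt_of_floor_lt hp.2, Nat.mem_primeFactors.2 h1.1⟩
  have hc := card_large hb (by linarith : 1 < w) (T := T) (fun p hp => (hT p hp).2.2.2)
    (fun p hp => (hT p hp).2.2.1)
  have hl : 1 ≤ Real.log w := by
    rw [Real.le_log_iff_exp_le (by linarith)]
    have := Real.exp_one_lt_d9
    linarith
  have hs := log_le_sqrt hb h
  have hcard : (T.card : ℝ) ≤ Real.sqrt w := by
    have h4 : (T.card : ℝ) * 1 ≤ T.card * Real.log w := mul_le_mul_of_nonneg_left hl (by positivity)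
    linarith
  have hs3 : 3 ≤ Real.sqrt w := Real.le_sqrt_of_sq_le (by norm_num; linarith)
  have hss : Real.sqrt w * Real.sqrt w = w := Real.mul_self_sqrt (by linarith)
  have hq : (T.card : ℝ) * (1 / (w - 1)) ≤ 2 / Real.sqrt w := by
    rw [mul_one_div, div_le_div_iff₀ (by linarith) (by linarith)]
    nlinarith
  have hw1 : 0 < w - 1 := by linarith
  have hnear : ∀ p ∈ T, 1 - 1 / (w - 1) ≤ F 1 p ∧ F 1 p ≤ 1 + 1 / (w - 1) := by
    intro p hp
    obtain ⟨h1, h2, h3, -⟩ := hT p hp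
    have h4 := F1_near h1 h2
    have h5 : 1 / ((p : ℝ) - 1) ≤ 1 / (w - 1) := one_div_le_one_div_of_le hw1 (by linarith)
    constructor <;> linarith [h4.1, h4.2]
  have hsm : 1 / (w - 1) ≤ 1 / 8 := one_div_le_one_div_of_le (by norm_num) (by linarith)
  constructor
  · have h6 : (1 - 1 / (w - 1)) ^ T.card ≤ D2 b w := by
      unfold D2
      rw [← prod_const]
      exact prod_le_prod (fun _ _ => by linarith) (fun p hp => (hnear p hp).1)
    have h7 := one_add_mul_le_pow (a := -(1 / (w - 1))) (by linarith) T.card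
    have h8 : (1 + -(1 / (w - 1))) = 1 - 1 / (w - 1) := by ring
    rw [h8] at h7
    linarith
  · have h6 : D2 b w ≤ ∏ _p ∈ T, Real.exp (1 / (w - 1)) := by
      unfold D2
      refine prod_le_prod (fun p hp => ?_) (fun p hp => ?_)
      · exact (F_pos 1 (hT p hp).1 (hT p hp).2.1).le
      · refine (hnear p hp).2.trans ?_
        have := Real.add_one_le_exp (1 / (w - 1))
        linarith
    rw [prod_const, ← Real.exp_nat_mul] at h6
    exact h6.trans (Real.exp_le_exp.2 hq)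

/-- the telescoping product -/
lemma tel {m : ℕ} (hm : 1 ≤ m) (X : ℕ) (hX : m ≤ X) :
    ∏ n ∈ Ioc m X, (1 - 1 / (n : ℝ) ^ 2) = (m : ℝ) / (m + 1) * (((X : ℝ) + 1) / X) := by
  induction X, hX using Nat.le_induction with
  | base =>
    have : (1 : ℝ) ≤ m := by exact_mod_cast hm
    simp only [Finset.Ioc_self, Finset.prod_empty]
    field_simp
  | succ X hX ih =>
    rw [Finset.prod_Ioc_succ_top hX, ih]
    have h1 : (1 : ℝ) ≤ m := by exact_mod_cast hm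
    have h2 : (1 : ℝ) ≤ X := by exact_mod_cast hm.trans hX
    push_cast
    field_simp
    ring

lemma inv_fac {b : ℕ} {w : ℝ} (hw : 0 ≤ w) {p : ℕ} (hp : p ∈ Miss w) :
    (F b p * EE p)⁻¹ = if p ∣ b then 1 + 1 / (p : ℝ) else 1 - 1 / (p : ℝ) ^ 2 := by
  obtain ⟨h1, h2, h3, h4⟩ := (mem_Miss hw).1 hp
  have h5 : p ≠ 2 := by rintro rfl; omega
  have h6 := three_le h2 h5
  unfold EE
  rw [ch_three h3]
  split_ifs with h
  · rw [XP.HGBM.F_dvd h2 h, one_mul, inv_inv]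
    ring
  · rw [XP.HGBM.F_ndvd h2 h, XP.HGBM.F1_three h3]
    have h7 : (p : ℝ) - 1 ≠ 0 := by linarith
    have h8 : (p : ℝ) ≠ 0 := by linarith
    have h9 : (1 : ℝ) + 1 / ((p : ℝ) - 1) = p / (p - 1) := by
      field_simp
      ring
    rw [h9, mul_inv, inv_inv, inv_div]
    field_simp
    ring

lemma Mis_bound {b : ℕ} (hb : 1 ≤ b) {w : ℝ} (hw : 9 ≤ w) (h : Real.log b ^ 2 ≤ w) :
    1 - 1 / Real.sqrt w ≤ (Mis b w)⁻¹ ∧ (Mis b w)⁻¹ ≤ Real.exp (1 / Real.log (Real.sqrt w)) := by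
  have hw0 : 0 ≤ w := by linarith
  have hs3 : 3 ≤ Real.sqrt w := Real.le_sqrt_of_sq_le (by norm_num; linarith)
  have hss : Real.sqrt w * Real.sqrt w = w := Real.mul_self_sqrt (by linarith)
  have hbig : ∀ p ∈ Miss w, Real.sqrt w < (p : ℝ) := by
    intro p hp
    obtain ⟨h1, h2, h3, h4⟩ := (mem_Miss hw0).1 hp
    exact (Real.sqrt_lt' (by exact_mod_cast h2.pos)).2 h4
  have e : (Mis b w)⁻¹ = ∏ p ∈ Miss w, (if p ∣ b then 1 + 1 / (p : ℝ) else 1 - 1 / (p : ℝ) ^ 2) := by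
    unfold Mis
    rw [← prod_inv_distrib]
    exact prod_congr rfl fun p hp => inv_fac hw0 hp
  have hfac : ∀ n : ℕ, 1 ≤ n → 0 ≤ 1 - 1 / (n : ℝ) ^ 2 ∧ 1 - 1 / (n : ℝ) ^ 2 ≤ 1 := by
    intro n hn
    have h1 : (1 : ℝ) ≤ n := by exact_mod_cast hn
    have h2 : 1 / (n : ℝ) ^ 2 ≤ 1 := by
      rw [div_le_one (by positivity)]
      nlinarith
    have h3 : 0 ≤ 1 / (n : ℝ) ^ 2 := by positivity
    constructor <;> linarith
  rw [e]
  constructor
  · -- lower bound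
    set m := ⌊Real.sqrt w⌋₊ with hm
    have hm1 : 1 ≤ m := by
      rw [hm, Nat.one_le_floor_iff]
      linarith
    have hmX : m ≤ ⌊w⌋₊ := by
      rw [hm]
      refine Nat.floor_le_floor ?_
      nlinarith
    have hsub : Miss w ⊆ Ioc m ⌊w⌋₊ := by
      intro p hp
      rw [mem_Ioc, Nat.le_floor_iff hw0]
      refine ⟨?_, ((mem_Miss hw0).1 hp).1⟩
      have h1 := hbig p hp
      have h2 : (m : ℝ) ≤ Real.sqrt w := Nat.floor_le (by linarith)
      have h3 : (m : ℝ) < (p : ℝ) := lt_of_le_of_lt h2 h1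
      exact_mod_cast h3
    have h1 : ∏ n ∈ Ioc m ⌊w⌋₊, (1 - 1 / (n : ℝ) ^ 2) ≤ ∏ p ∈ Miss w, (1 - 1 / (p : ℝ) ^ 2) :=
      XP.SSBM.prod_sub hsub (fun n hn => (hfac n (by have := mem_Ioc.1 hn; omega)).1)
        (fun n hn => (hfac n (by have := mem_Ioc.1 hn; omega)).2)
    rw [tel hm1 _ hmX] at h1
    have hX1 : (1 : ℝ) ≤ (⌊w⌋₊ : ℝ) := by exact_mod_cast hm1.trans hmX
    have hm1' : (1 : ℝ) ≤ (m : ℝ) := by exact_mod_cast hm1
    have h2 : (1 : ℝ) ≤ ((⌊w⌋₊ : ℝ) + 1) / (⌊w⌋₊ : ℝ) := by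
      rw [le_div_iff₀ (by linarith)]
      linarith
    have h3 : (m : ℝ) / (m + 1) = 1 - 1 / ((m : ℝ) + 1) := by
      field_simp
      ring
    have h4 : Real.sqrt w < (m : ℝ) + 1 := Nat.lt_floor_add_one _
    have h5 : 1 / ((m : ℝ) + 1) ≤ 1 / Real.sqrt w := one_div_le_one_div_of_le (by linarith) h4.le
    have h6 : 1 - 1 / Real.sqrt w ≤ (m : ℝ) / (m + 1) * (((⌊w⌋₊ : ℝ) + 1) / (⌊w⌋₊ : ℝ)) := by
      have h7 : 0 ≤ (m : ℝ) / (m + 1) := by positivity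
      nlinarith
    refine h6.trans (h1.trans ?_)
    refine prod_le_prod (fun p hp => ?_) (fun p hp => ?_)
    · exact (hfac p ((mem_Miss hw0).1 hp).2.1.pos).1
    · split_ifs with hd
      · have h8 := (hfac p ((mem_Miss hw0).1 hp).2.1.pos).2
        have h9 : 0 ≤ 1 / (p : ℝ) := by positivity
        linarith
      · exact le_rfl
  · -- upper bound
    set T := (Miss w).filter (fun p => p ∣ b) with hT
    have hTb : T ⊆ b.primeFactors := by
      intro p hp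
      rw [hT, mem_filter] at hp
      rw [Nat.mem_primeFactors]
      exact ⟨((mem_Miss hw0).1 hp.1).2.1, hp.2, by omega⟩
    have hc := card_large hb (by linarith : 1 < Real.sqrt w) hTb
      (fun p hp => hbig p (mem_filter.1 hp).1)
    have hls : 0 < Real.log (Real.sqrt w) := Real.log_pos (by linarith)
    have hs := log_le_sqrt hb h
    have h1 : ∏ p ∈ Miss w, (if p ∣ b then 1 + 1 / (p : ℝ) else 1 - 1 / (p : ℝ) ^ 2) ≤
        ∏ p ∈ Miss w, (if p ∣ b then Real.exp (1 / Real.sqrt w) else 1) := by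
      refine prod_le_prod (fun p hp => ?_) (fun p hp => ?_)
      · split_ifs with hd
        · positivity
        · exact (hfac p ((mem_Miss hw0).1 hp).2.1.pos).1
      · split_ifs with hd
        · have h2 := hbig p hp
          have h3 : 1 / (p : ℝ) ≤ 1 / Real.sqrt w := one_div_le_one_div_of_le (by linarith) h2.le
          have h4 := Real.add_one_le_exp (1 / Real.sqrt w)
          linarith
        · exact (hfac p ((mem_Miss hw0).1 hp).2.1.pos).2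
    refine h1.trans ?_
    rw [← prod_filter, prod_const, ← Real.exp_nat_mul]
    refine Real.exp_le_exp.2 ?_
    rw [mul_one_div, div_le_div_iff₀ (by linarith) hls]
    linarith

/-! ## the value of the Euler product -/

lemma sum_odd (k : ℕ) : ∑ n ∈ (Icc 1 (2 * k)).filter Odd, (jacobiSym (-1) n : ℝ) / n =
    ∑ i ∈ range k, (-1 : ℝ) ^ i / (2 * i + 1) := by
  induction k with
  | zero => simp
  | succ k ih =>
    rw [sum_range_succ, ← ih, sum_filter, sum_filter]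
    rw [show 2 * (k + 1) = 2 * k + 1 + 1 by ring, Finset.sum_Icc_succ_top (by omega),
      Finset.sum_Icc_succ_top (by omega)]
    have h1 : ¬ Odd (2 * k + 1 + 1) := by
      rw [Nat.not_odd_iff_even]
      exact ⟨k + 1, by ring⟩
    have h2 : Odd (2 * k + 1) := ⟨k, rfl⟩
    rw [if_neg h1, if_pos h2, add_zero]
    congr 1
    rw [jacobiSym.at_neg_one h2, ZMod.χ₄_eq_neg_one_pow (by omega)]
    have h3 : (2 * k + 1) / 2 = k := by omega
    rw [h3]
    push_cast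
    rfl

lemma euler : Tendsto (fun X : ℕ => ∏ p ∈ R X, EE p) atTop (𝓝 (Real.pi / 4)) := by
  obtain ⟨l, hl, h1, h2⟩ := QPA.specEUL 1 XP.H1CM.not_isSquare
  have h3 : Tendsto (fun k : ℕ => 2 * k) atTop atTop :=
    tendsto_atTop_mono (fun k => (show k ≤ 2 * k by omega)) tendsto_id
  have h4 := h1.comp h3
  have h5 : l = Real.pi / 4 := by
    refine tendsto_nhds_unique h4 ?_
    refine Real.tendsto_sum_pi_div_four.congr fun k => ?_
    rw [Function.comp_apply, ← sum_odd]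
  rw [← h5]
  exact h2

end HVAM

open HVAM in
/-- **HVA**. -/
theorem specHVA : SpecHVA := by
  intro ε hε
  obtain ⟨h1, hh, hc⟩ := XP.specH1C
  have hfl : Tendsto (fun w : ℝ => ⌊w⌋₊) atTop atTop := tendsto_nat_floor_atTop
  have ha1 : Tendsto (fun w : ℝ => ∏ p ∈ XP.HGBM.R ⌊w⌋₊, EE p) atTop (𝓝 (Real.pi / 4)) :=
    euler.comp hfl
  have ha2 : Tendsto (fun w : ℝ => ∏ p ∈ XP.HGBM.R ⌊w⌋₊, XP.HGBM.F 1 p) atTop (𝓝 h1) :=
    hc.comp hfl
  have hπ := Real.pi_pos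
  have ha : Tendsto (fun w : ℝ => 4 / Real.pi * (∏ p ∈ XP.HGBM.R ⌊w⌋₊, EE p) *
      ((∏ p ∈ XP.HGBM.R ⌊w⌋₊, XP.HGBM.F 1 p) / h1)) atTop (𝓝 1) := by
    have h2 := (ha1.const_mul (4 / Real.pi)).mul (ha2.div_const h1)
    have h3 : 4 / Real.pi * (Real.pi / 4) * (h1 / h1) = 1 := by
      field_simp
    rwa [h3] at h2
  have hs : Tendsto (fun w : ℝ => Real.sqrt w) atTop atTop := Real.tendsto_sqrt_atTop
  have hs1 : Tendsto (fun w : ℝ => 1 / Real.sqrt w) atTop (𝓝 0) :=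
    (tendsto_inv_atTop_zero.comp hs).congr fun w => (one_div _).symm
  have hs2 : Tendsto (fun w : ℝ => 2 / Real.sqrt w) atTop (𝓝 0) := by
    have := hs1.const_mul 2
    simpa only [mul_one_div, mul_zero] using this
  have hs3 : Tendsto (fun w : ℝ => 1 / Real.log (Real.sqrt w)) atTop (𝓝 0) :=
    (tendsto_inv_atTop_zero.comp (Real.tendsto_log_atTop.comp hs)).congr fun w => (one_div _).symm
  have hlo : Tendsto (fun w : ℝ => (1 - 2 / Real.sqrt w) * (1 - 1 / Real.sqrt w)) atTop (𝓝 1) := by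
    have := (tendsto_const_nhds (x := (1 : ℝ)) |>.sub hs2).mul
      (tendsto_const_nhds (x := (1 : ℝ)) |>.sub hs1)
    simpa using this
  have hup : Tendsto (fun w : ℝ => Real.exp (2 / Real.sqrt w) *
      Real.exp (1 / Real.log (Real.sqrt w))) atTop (𝓝 1) := by
    have e1 := (Real.continuous_exp.tendsto 0).comp hs2
    have e2 := (Real.continuous_exp.tendsto 0).comp hs3
    have := e1.mul e2
    simpa using this
  have f1 := (ha.mul hlo).eventually_const_le (show 1 - ε < 1 * 1 by linarith)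
  have f2 := (ha.mul hup).eventually_le_const (show 1 * 1 < 1 + ε by linarith)
  have f3 := ha.eventually_const_lt (show (0 : ℝ) < 1 by norm_num)
  obtain ⟨w1, hw1⟩ := eventually_atTop.1 (f1.and (f2.and f3))
  refine ⟨max w1 9, fun w hw b hb hbw h hcon => ?_⟩
  obtain ⟨g1, g2, g3⟩ := hw1 w (le_of_max_le_left hw)
  have hw9 : 9 ≤ w := le_of_max_le_right hw
  obtain ⟨a1, a2⟩ := D2_bound hb hw9 hbw
  obtain ⟨c1, c2⟩ := Mis_bound hb hw9 hbw
  have hD : 0 < ∏ p ∈ XP.HGBM.W b, XP.HGBM.F 1 p := by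
    refine prod_pos fun p hp => ?_
    have := mem_W.1 hp
    exact F_pos 1 this.1.1 this.2
  -- the value of `h`
  have hh' : h = h1 * (∏ p ∈ XP.HGBM.W b, XP.HGBM.F 1 p)⁻¹ := by
    have h2 : Tendsto (fun X : ℕ => (∏ w ∈ XP.HGBM.R X, XP.HGBM.F 1 w) *
        (∏ w ∈ XP.HGBM.W b, XP.HGBM.F 1 w)⁻¹) atTop
        (𝓝 (h1 * (∏ w ∈ XP.HGBM.W b, XP.HGBM.F 1 w)⁻¹)) := Tendsto.mul_const _ hc
    refine tendsto_nhds_unique hcon (h2.congr' ?_)
    filter_upwards [eventually_ge_atTop b] with X hX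
    rw [XP.HGBM.split hb hX, mul_assoc, mul_inv_cancel₀ hD.ne', mul_one]
    rfl
  have hpos : 0 < h := by rw [hh']; positivity
  rw [decomp hb (by linarith : 2 ≤ w) hh, ← hh']
  set a := 4 / Real.pi * (∏ p ∈ XP.HGBM.R ⌊w⌋₊, EE p) *
      ((∏ p ∈ XP.HGBM.R ⌊w⌋₊, XP.HGBM.F 1 p) / h1) with had
  have hs3' : 3 ≤ Real.sqrt w := Real.le_sqrt_of_sq_le (by norm_num; linarith)
  have b1 : 2 / Real.sqrt w ≤ 2 / 3 := div_le_div_of_nonneg_left (by norm_num) (by norm_num) hs3'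
  have b2 : 1 / Real.sqrt w ≤ 1 / 3 := one_div_le_one_div_of_le (by norm_num) hs3'
  have hx1 : (1 - 2 / Real.sqrt w) * (1 - 1 / Real.sqrt w) ≤ D2 b w * (Mis b w)⁻¹ :=
    mul_le_mul a1 c1 (by linarith) (by linarith)
  have hx2 : D2 b w * (Mis b w)⁻¹ ≤ Real.exp (2 / Real.sqrt w) *
      Real.exp (1 / Real.log (Real.sqrt w)) :=
    mul_le_mul a2 c2 (by linarith) (Real.exp_pos _).le
  have hy1 : 1 - ε ≤ a * (D2 b w * (Mis b w)⁻¹) :=
    g1.trans (mul_le_mul_of_nonneg_left hx1 g3.le)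
  have hy2 : a * (D2 b w * (Mis b w)⁻¹) ≤ 1 + ε :=
    (mul_le_mul_of_nonneg_left hx2 g3.le).trans g2
  have hz : h * a * (D2 b w * (Mis b w)⁻¹) - h = h * (a * (D2 b w * (Mis b w)⁻¹) - 1) := by ring
  rw [hz, abs_mul, abs_of_pos hpos, mul_comm ε h]
  refine mul_le_mul_of_nonneg_left ?_ hpos.le
  rw [abs_le]
  constructor <;> linarith

end Pool.Agent.Lib.MP391708.X4
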