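import Pool.Agent.Lib.MP_391708_nt.X4.Spec
import Pool.Agent.Lib.MP_391708_nt.X3.O.ONE

/-!
# THEOREM X4 (MP_391708), module ONA: one box
-/

set_option autoImplicit false

namespace Pool.Agent.Lib.MP391708.X4

open Finset Filter Topology Pool.Agent.Lib.MP391708.MR
open Pool.Agent.Lib.MP391708.X (ChiG hk Dist Fam rgh VP Ix psi ix1 UOK lc On YOK)
open Pool.Agent.Lib.MP391708.X3
open Pool.Agent.Lib.MP391708.XL (VS PS)
open Pool.Agent.Lib.MP391708.XP (gB IsConst count)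
open scoped ComplexConjugate

namespace ONAM

/-- the exceptional `b` of a box -/
def Bad (ε N T P : ℝ) (b : ℕ) : Prop := ∃ h : ℝ, 0 < h ∧ IsConst b h ∧
  ε * mt h P (N / T) (N * T / (8 * P)) < |(W3 b P (N / T) (N * T / (8 * P)) : ℝ) - mt h P (N / T) (N * T / (8 * P))|

/-- few bad `b` -/
lemma few {I : Finset ℕ} {D : ℕ → ℂ} {Q : ℕ → Prop} [DecidablePred Q] {N ℓ A B : ℝ} (hN : 0 < N) (hl : 20 ≤ ℓ)
    (hB : 0 ≤ B) (h1 : ∀ b ∈ I, Q b → N / ℓ ^ 6 ≤ ‖D b‖)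
    (h2 : ∑ b ∈ I, ‖D b‖ ^ 2 ≤ 20 * ℓ ^ (-(A + 16)) * B * N ^ 2) : ((I.filter Q).card : ℝ) ≤ B * ℓ ^ (-A) := by
  have hl0 : 0 < ℓ := by linarith
  have h3 : ((I.filter Q).card : ℝ) * (N / ℓ ^ 6) ^ 2 ≤ ∑ b ∈ I, ‖D b‖ ^ 2 := by
    calc ((I.filter Q).card : ℝ) * (N / ℓ ^ 6) ^ 2 = ∑ b ∈ I.filter Q, (N / ℓ ^ 6) ^ 2 := by
          rw [Finset.sum_const, nsmul_eq_mul]
      _ ≤ ∑ b ∈ I.filter Q, ‖D b‖ ^ 2 := by
          refine Finset.sum_le_sum fun b hb => ?_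
          rw [Finset.mem_filter] at hb
          exact pow_le_pow_left₀ (by positivity) (h1 b hb.1 hb.2) 2
      _ ≤ ∑ b ∈ I, ‖D b‖ ^ 2 :=
          Finset.sum_le_sum_of_subset_of_nonneg (Finset.filter_subset _ _) fun _ _ _ => by positivity
  have h4 : ℓ ^ (-(A + 16)) = ℓ ^ (-A) * (ℓ ^ 16)⁻¹ := by
    rw [neg_add, Real.rpow_add hl0, Real.rpow_neg hl0.le 16]
    norm_num
  have hlA : 0 < ℓ ^ (-A) := Real.rpow_pos_of_pos hl0 _
  have h5 := h3.trans h2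
  rw [h4] at h5
  have h6 : ((I.filter Q).card : ℝ) * ℓ ^ 4 ≤ 20 * (B * ℓ ^ (-A)) := by
    have e1 : ((I.filter Q).card : ℝ) * ℓ ^ 4 * (N ^ 2 / ℓ ^ 16) =
        ((I.filter Q).card : ℝ) * (N / ℓ ^ 6) ^ 2 := by
      field_simp
    have e2 : 20 * (B * ℓ ^ (-A)) * (N ^ 2 / ℓ ^ 16) = 20 * (ℓ ^ (-A) * (ℓ ^ 16)⁻¹) * B * N ^ 2 := by
      field_simp
    have h7 : 0 < N ^ 2 / ℓ ^ 16 := by positivity
    refine le_of_mul_le_mul_right ?_ h7
    rw [e1, e2]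
    exact h5
  have h8 : (20 : ℝ) ≤ ℓ ^ 4 := by
    calc (20 : ℝ) ≤ 20 ^ 4 := by norm_num
      _ ≤ ℓ ^ 4 := pow_le_pow_left₀ (by norm_num) hl 4
  have h9 : (0 : ℝ) ≤ ((I.filter Q).card : ℝ) := Nat.cast_nonneg _
  have h10 : 0 ≤ B * ℓ ^ (-A) := by positivity
  nlinarith

lemma prim_one : prim (1 : Gi) := by
  unfold prim
  simp

lemma nm_one' : nm (1 : Gi) = 1 := by
  unfold nm
  simp

/-- the inequalities at one good `b` -/
lemma good {ε ε₁ W M m t : ℝ} {S K : ℂ} (h0 : 0 < ε₁) (h1 : ε₁ ≤ 1) (h5 : 5 * ε₁ ≤ ε) (hW : S = (W : ℂ))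
    (hD : ‖S - K‖ ≤ t) (ht : t ≤ ε₁ * M) (hF : ‖K - (M : ℂ)‖ ≤ ε₁ * M) (hC : |M - m| ≤ ε₁ * m) : |W - m| ≤ ε * m := by
  have hm : 0 ≤ m := by
    have := (abs_nonneg _).trans hC
    exact nonneg_of_mul_nonneg_right this h0
  have hMm : M ≤ 2 * m := by
    have := (abs_le.1 hC).2
    nlinarith
  have hWM : |W - M| ≤ 2 * ε₁ * M := by
    have e : ((W - M : ℝ) : ℂ) = (S - K) + (K - (M : ℂ)) := by
      rw [hW]; push_cast; ring
    have h2 : |W - M| = ‖((W - M : ℝ) : ℂ)‖ := by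
      rw [Complex.norm_real, Real.norm_eq_abs]
    rw [h2, e]
    refine (norm_add_le _ _).trans ?_
    linarith
  calc |W - m| ≤ |W - M| + |M - m| := abs_sub_le _ _ _
    _ ≤ 2 * ε₁ * M + ε₁ * m := add_le_add hWM hC
    _ ≤ 2 * ε₁ * (2 * m) + ε₁ * m := by
        have : 2 * ε₁ * M ≤ 2 * ε₁ * (2 * m) := mul_le_mul_of_nonneg_left hMm (by linarith)
        linarith
    _ = 5 * ε₁ * m := by ring
    _ ≤ ε * m := mul_le_mul_of_nonneg_right h5 hm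

open scoped Classical in
/-- one range of `P` -/
lemma oneP (hVAR : SpecVAR) (hFMA : SpecFMA) (hGSZ : SpecGSZ) (hCNE : SpecCNE) (hCVM : SpecCVM) (hCSX : SpecCSX)
    (ε A : ℝ) (hε : 0 < ε) (hA : 0 < A) : ∃ C₀ δ : ℝ, 1 ≤ C₀ ∧ 0 < δ ∧ ∀ cP : ℝ, C₀ ≤ cP → ∃ D : ℝ, ∀ᶠ N : ℝ in atTop,
    ∀ T P B : ℝ, Real.log N ^ cP ≤ P → P ≤ Real.log N ^ (2 * cP) → P * Real.log N ^ D ≤ T → T ≤ N ^ δ →
    T * P * Real.log N ^ D ≤ B → B ^ 2 ≤ 2 * N →
      (((Ioc ⌊B⌋₊ ⌊2 * B⌋₊).filter (fun b => Bad ε N T P b)).card : ℝ) ≤ B * Real.log N ^ (-A) := by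
  obtain ⟨ε₁, hε₁⟩ : ∃ ε₁, ε₁ = min (ε / 5) 1 := ⟨_, rfl⟩
  have he0 : 0 < ε₁ := by rw [hε₁]; exact lt_min (by positivity) one_pos
  have he1 : ε₁ ≤ 1 := by rw [hε₁]; exact min_le_right _ _
  have he5 : 5 * ε₁ ≤ ε := by
    have : ε₁ ≤ ε / 5 := by rw [hε₁]; exact min_le_left _ _
    linarith
  obtain ⟨cw, aU, aQ, aF, ch1, hcw1, hcw, haU, haQ, haF, hch1, δ1, hδ1, hV⟩ := hVAR (A + 16) (by linarith)
  obtain ⟨cG, hcG, hG⟩ := hGSZ
  obtain ⟨ch2, δ2, hδ2, hM⟩ := ((hFMA ε₁ he0).and hG) cw aU aQ aF hcw1 hcw haU haQ haF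
  obtain ⟨x₀, hx₀⟩ := hCVM ε₁ he0
  obtain ⟨ch, hch⟩ : ∃ ch, ch = max ch1 ch2 := ⟨_, rfl⟩
  obtain ⟨δ, hδ⟩ : ∃ δ, δ = min (min δ1 δ2) (1 / 100) := ⟨_, rfl⟩
  have hδ0 : 0 < δ := by rw [hδ]; exact lt_min (lt_min hδ1 hδ2) (by norm_num)
  have hδa : δ ≤ δ1 := by rw [hδ]; exact (min_le_left _ _).trans (min_le_left _ _)
  have hδb : δ ≤ δ2 := by rw [hδ]; exact (min_le_left _ _).trans (min_le_right _ _)
  have hδc : δ ≤ 1 / 100 := by rw [hδ]; exact min_le_right _ _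
  obtain ⟨cP1, hV⟩ := hV ch (by rw [hch]; exact le_max_left _ _) δ hδ0 hδa
  obtain ⟨cP2, hM⟩ := hM ch (by rw [hch]; exact le_max_right _ _) δ hδ0 hδb
  refine ⟨max (max cP1 cP2) 2, δ, (by norm_num : (1 : ℝ) ≤ 2).trans (le_max_right _ _), hδ0, ?_⟩
  intro cP hcP
  have hcP1 : cP1 ≤ cP := ((le_max_left _ _).trans (le_max_left _ _)).trans hcP
  have hcP2 : cP2 ≤ cP := ((le_max_right _ _).trans (le_max_left _ _)).trans hcP
  have hcP4 : 1 ≤ cP := (by norm_num : (1 : ℝ) ≤ 2).trans ((le_max_right _ _).trans hcP)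
  obtain ⟨cT1, hV⟩ := hV cP hcP1
  obtain ⟨cT2, hM⟩ := hM cP hcP2
  obtain ⟨cT, hcT⟩ : ∃ cT, cT = max (max cT1 cT2) 1 := ⟨_, rfl⟩
  have hcT1 : cT1 ≤ cT := by rw [hcT]; exact (le_max_left _ _).trans (le_max_left _ _)
  have hcT2 : cT2 ≤ cT := by rw [hcT]; exact (le_max_right _ _).trans (le_max_left _ _)
  have hcT3 : 1 ≤ cT := by rw [hcT]; exact le_max_right _ _
  obtain ⟨cB1, hV⟩ := hV cT hcT1
  obtain ⟨cB2, hM⟩ := hM cT hcT2
  obtain ⟨cB, hcB⟩ : ∃ cB, cB = max (max cB1 cB2) 0 := ⟨_, rfl⟩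
  have hcB1 : cB1 ≤ cB := by rw [hcB]; exact (le_max_left _ _).trans (le_max_left _ _)
  have hcB2 : cB2 ≤ cB := by rw [hcB]; exact (le_max_right _ _).trans (le_max_left _ _)
  have hcB3 : 0 ≤ cB := by rw [hcB]; exact le_max_right _ _
  have hV := hV cB hcB1
  have hM := hM cB hcB2
  refine ⟨max cT cB, ?_⟩
  have hlog : ∀ᶠ N : ℝ in atTop, max (max 20 (1 / ε₁)) x₀ ≤ Real.log N :=
    Real.tendsto_log_atTop.eventually (eventually_ge_atTop _)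
  have hL : ∀ᶠ N : ℝ in atTop, Real.log N ^ (4 * cP + 1) ≤ N ^ (1 / 20 : ℝ) := by
    have h := (isLittleO_log_rpow_rpow_atTop (4 * cP + 1) (by norm_num : (0 : ℝ) < 1 / 20)).bound
      (by norm_num : (0 : ℝ) < 1)
    filter_upwards [h, eventually_ge_atTop 1] with N h1 h2
    rw [one_mul, Real.norm_of_nonneg (Real.rpow_nonneg (Real.log_nonneg h2) _),
      Real.norm_of_nonneg (Real.rpow_nonneg (by linarith) _)] at h1
    exact h1
  filter_upwards [hV, hM, hlog, hL, eventually_ge_atTop 8] with N hV hM hl hL hN8 T P B hP1 hP2 hT1 hT2 hB1 hBN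
  have hN0 : 0 < N := by linarith
  have hN1 : 1 < N := by linarith
  obtain ⟨ℓ, hℓ⟩ : ∃ ℓ, ℓ = Real.log N := ⟨_, rfl⟩
  rw [← hℓ] at hl hL hP1 hP2 hT1 hB1 ⊢
  have hl20 : 20 ≤ ℓ := ((le_max_left _ _).trans (le_max_left _ _)).trans hl
  have hlε : 1 / ε₁ ≤ ℓ := ((le_max_right _ _).trans (le_max_left _ _)).trans hl
  have hlx : x₀ ≤ ℓ := (le_max_right _ _).trans hl
  have hl0 : 0 < ℓ := by linarith
  have hl1 : 1 ≤ ℓ := by linarith
  have hPp : 0 < P := lt_of_lt_of_le (Real.rpow_pos_of_pos hl0 _) hP1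
  have hT1' : P * ℓ ^ cT ≤ T :=
    (mul_le_mul_of_nonneg_left (Real.rpow_le_rpow_of_exponent_le hl1 (le_max_left _ _)) hPp.le).trans hT1
  have hTp : 0 < T := lt_of_lt_of_le (mul_pos hPp (Real.rpow_pos_of_pos hl0 _)) hT1'
  have hB1' : T * P * ℓ ^ cB ≤ B :=
    (mul_le_mul_of_nonneg_left (Real.rpow_le_rpow_of_exponent_le hl1 (le_max_right _ _))
      (mul_pos hTp hPp).le).trans hB1
  have hBox : Box δ cP cT cB N T P B := by
    refine ⟨?_, ?_, ?_, hT2, ?_, hBN⟩ <;> rw [← hℓ] <;> assumption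
  obtain ⟨⟨s1, s2, s3, s4, s5⟩, g1, g2, g3, g4⟩ := X3.ONEM.sizes ch cw hBox hN1 (by rw [← hℓ]; exact hl20) hδc hcP4
    hcT3 (by rw [← hℓ]; exact hL)
  obtain ⟨U, hU, hVar⟩ := hV T P B hBox
  rw [← hℓ] at hVar s1 s3
  set p : Par := par N T P ch cw with hp
  have hB0 : 0 < B := lt_of_lt_of_le (mul_pos (mul_pos hTp hPp) (Real.rpow_pos_of_pos hl0 _)) hB1'
  have hPℓ : ℓ ≤ P := by
    calc ℓ = ℓ ^ (1 : ℝ) := (Real.rpow_one _).symm
      _ ≤ ℓ ^ cP := Real.rpow_le_rpow_of_exponent_le hl1 hcP4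
      _ ≤ P := hP1
  have hPl : p.P = P := rfl
  have hKl : p.K = N / T := rfl
  have hMl : p.M2 = N * T / (8 * P) := rfl
  have hTl : p.T = T := rfl
  have hNl : p.N = N := rfl
  have hwl : p.w = ℓ ^ cw := by rw [hp, hℓ]; rfl
  have hhl : p.h = ℓ ^ ch := by rw [hp, hℓ]; rfl
  have hw1 : ℓ ^ 2 ≤ p.w := by
    rw [hwl, ← Real.rpow_natCast ℓ 2]
    apply Real.rpow_le_rpow_of_exponent_le hl1
    push_cast
    linarith
  have hlN : ℓ ≤ N ^ (1 / 10 : ℝ) := by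
    have h1 : ℓ ≤ P := hPℓ
    have h2 : 2 * P ≤ N ^ (1 / 10 : ℝ) := s2
    linarith
  have hKg : N ^ (1 / 10 : ℝ) ≤ p.K := by
    refine le_trans ?_ s3
    have h1 : (1 : ℝ) ≤ ℓ ^ (cP / 2) := Real.one_le_rpow hl1 (by linarith)
    have h2 : 0 < N ^ (1 / 10 : ℝ) := Real.rpow_pos_of_pos hN0 _
    nlinarith
  have hNl' : ℓ ≤ N := by
    rw [hℓ]
    have := Real.log_le_sub_one_of_pos hN0
    linarith
  refine few (D := fun b => ∑ y ∈ ({1} : Finset Gi), sy p y b (fun z => Eta p z - Kap p U z)) hN0 hl20 hB0.le ?_ ?_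
  · intro b hb hbad
    by_contra hno
    push Not at hno
    obtain ⟨h, hh0, hh, hlt⟩ := hbad
    rw [Finset.mem_Ioc] at hb
    have hbB : B < b := (Nat.floor_lt hB0.le).1 hb.1
    have hbB2 : (b : ℝ) ≤ 2 * B := (Nat.le_floor_iff (by linarith)).1 hb.2
    have hb0 : (0 : ℝ) < b := by linarith
    have hb1 : 1 ≤ b := by exact_mod_cast hb0
    have hbN : (b : ℝ) ≤ N := by
      have h1 : (b : ℝ) ^ 2 ≤ 8 * N := by nlinarith
      have h2 : 8 * N ≤ N ^ 2 := by nlinarith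
      exact le_of_sq_le_sq (h1.trans h2) hN0.le
    have hlb : Real.log b ^ 2 ≤ p.w := by
      refine le_trans ?_ hw1
      have h1 : Real.log b ≤ ℓ := by rw [hℓ]; exact Real.log_le_log hb0 hbN
      have h2 : 0 ≤ Real.log b := Real.log_nonneg (by exact_mod_cast hb1)
      exact pow_le_pow_left₀ h2 h1 2
    obtain ⟨hFM, hMM0, -, hMMy⟩ := hM T P B U b 1 ⟨hBox, hU, hbB, hbB2, prim_one, by
        rw [nm_one', ← hℓ]
        push_cast
        exact Real.one_le_rpow hl1 (by linarith), by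
        intro π hπ hd
        exact absurd (isUnit_of_dvd_one hd) hπ.not_unit⟩
    rw [← hp] at hFM hMM0 hMMy
    have hMMy := hMMy rfl
    have hC := hx₀ p b h (by
        refine hlx.trans (le_trans ?_ hw1)
        nlinarith) (hlx.trans hPℓ) (hlx.trans (hlN.trans hKg)) (hlx.trans (hNl'.trans s5)) hb1 hlb hh hh0
    have hE := hCNE p b hb1 hN0 g2 g1 (by
        have h2 : 2 * p.P ≤ N ^ (1 / 10 : ℝ) := s2
        linarith) (by linarith) (by rw [hhl]; exact Real.rpow_nonneg hl0.le _) (by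
        rw [hKl, hPl, hMl, hNl]; field_simp) (by
        rw [hMl, hNl, hTl, ← mul_div_assoc, div_le_iff₀ (by positivity)]
        have h1 : 0 < N * T := by positivity
        have h2 : 2 ≤ P := g1
        nlinarith)
    rw [Finset.sum_singleton, X3.ONEM.sy_sub] at hno
    have ht : N / ℓ ^ 6 ≤ ε₁ * MM p 1 b := by
      have h1 : p.N / Real.log p.N ^ 5 ≤ MM p 1 b := hMMy
      rw [hNl, ← hℓ] at h1
      have h2 : N / ℓ ^ 6 ≤ ε₁ * (N / ℓ ^ 5) := by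
        have h3 : 1 ≤ ε₁ * ℓ := by
          rw [div_le_iff₀ he0] at hlε
          linarith
        rw [div_le_iff₀ (by positivity)]
        have h4 : ε₁ * (N / ℓ ^ 5) * ℓ ^ 6 = N * (ε₁ * ℓ) := by
          field_simp
        rw [h4]
        nlinarith
      exact h2.trans (mul_le_mul_of_nonneg_left h1 he0.le)
    have hfin := good (W := (W3 b p.P p.K p.M2 : ℝ)) he0 he1 he5 (by rw [hE]; push_cast; rfl) hno.le ht hFM hC
    exact absurd hfin (not_le.2 hlt)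
  · have hYOK : YOK 0 2 p.P ({1} : Finset Gi) := by
      refine ⟨?_, ?_, ?_, ?_⟩
      · intro y hy
        rw [Finset.mem_singleton] at hy
        rw [hy, nm_one']
        exact ⟨squarefree_one, by simp⟩
      · intro y hy y' hy' _
        rw [Finset.mem_singleton] at hy hy'
        rw [hy, hy']
      · intro y hy
        rw [Finset.mem_singleton] at hy
        rw [hy, nm_one']
        push_cast
        linarith
      · intro y hy π hπ hd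
        rw [Finset.mem_singleton] at hy
        rw [hy] at hd
        exact absurd (isUnit_of_dvd_one hd) hπ.not_unit
    have hcs := hCSX 0 p ({1} : Finset Gi) 2 B (fun z => Eta p z - Kap p U z) g1 g2 g3 g4 hYOK
    refine hcs.trans ?_
    have hK0 : 0 ≤ 20 * p.K := by linarith
    refine (mul_le_mul_of_nonneg_left hVar hK0).trans (le_of_eq ?_)
    rw [hKl, hTl]
    field_simp

open scoped Classical in
/-- all the ranges of `P` -/
lemma ranges {ε A C₀ δ : ℝ} (hC : 1 ≤ C₀) (h : ∀ cP : ℝ, C₀ ≤ cP → ∃ D : ℝ, ∀ᶠ N : ℝ in atTop,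
    ∀ T P B : ℝ, Real.log N ^ cP ≤ P → P ≤ Real.log N ^ (2 * cP) → P * Real.log N ^ D ≤ T → T ≤ N ^ δ →
    T * P * Real.log N ^ D ≤ B → B ^ 2 ≤ 2 * N →
      (((Ioc ⌊B⌋₊ ⌊2 * B⌋₊).filter (fun b => Bad ε N T P b)).card : ℝ) ≤ B * Real.log N ^ (-A)) (m : ℕ) :
    ∃ D : ℝ, ∀ᶠ N : ℝ in atTop,
    ∀ T P B : ℝ, Real.log N ^ C₀ ≤ P → P ≤ Real.log N ^ (2 ^ m * C₀) → P * Real.log N ^ D ≤ T → T ≤ N ^ δ →
    T * P * Real.log N ^ D ≤ B → B ^ 2 ≤ 2 * N →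
      (((Ioc ⌊B⌋₊ ⌊2 * B⌋₊).filter (fun b => Bad ε N T P b)).card : ℝ) ≤ B * Real.log N ^ (-A) := by
  have hlog : ∀ᶠ N : ℝ in atTop, 1 ≤ Real.log N :=
    Real.tendsto_log_atTop.eventually (eventually_ge_atTop _)
  induction m with
  | zero =>
    obtain ⟨D, hD⟩ := h C₀ le_rfl
    refine ⟨D, ?_⟩
    filter_upwards [hD, hlog] with N hN hl T P B h1 h2 h3 h4 h5 h6
    refine hN T P B h1 (h2.trans ?_) h3 h4 h5 h6
    apply Real.rpow_le_rpow_of_exponent_le hl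
    simp only [pow_zero, one_mul]
    linarith
  | succ m ih =>
    obtain ⟨D₁, hD₁⟩ := ih
    obtain ⟨D₂, hD₂⟩ := h (2 ^ m * C₀) (by
      have : (1 : ℝ) ≤ 2 ^ m := one_le_pow₀ (by norm_num)
      nlinarith)
    refine ⟨max D₁ D₂, ?_⟩
    filter_upwards [hD₁, hD₂, hlog] with N hN₁ hN₂ hl T P B h1 h2 h3 h4 h5 h6
    have hl0 : 0 < Real.log N := by linarith
    have hP : 0 < P := lt_of_lt_of_le (Real.rpow_pos_of_pos hl0 _) h1
    have hT : 0 < T := lt_of_lt_of_le (mul_pos hP (Real.rpow_pos_of_pos hl0 _)) h3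
    have k : ∀ D : ℝ, D ≤ max D₁ D₂ → P * Real.log N ^ D ≤ T ∧ T * P * Real.log N ^ D ≤ B := by
      intro D hD
      have h7 := Real.rpow_le_rpow_of_exponent_le hl hD
      exact ⟨(mul_le_mul_of_nonneg_left h7 hP.le).trans h3,
        (mul_le_mul_of_nonneg_left h7 (mul_pos hT hP).le).trans h5⟩
    by_cases hc : P ≤ Real.log N ^ (2 ^ m * C₀)
    · obtain ⟨k1, k2⟩ := k D₁ (le_max_left _ _)
      exact hN₁ T P B h1 hc k1 h4 k2 h6
    · obtain ⟨k1, k2⟩ := k D₂ (le_max_right _ _)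
      refine hN₂ T P B (not_le.1 hc).le (h2.trans (le_of_eq ?_)) k1 h4 k2 h6
      congr 1
      rw [pow_succ]
      ring

end ONAM

open ONAM in
/-- **ONA**. -/
theorem specONA (hVAR : X3.SpecVAR) (hFMA : SpecFMA) (hGSZ : SpecGSZ) (hCNE : SpecCNE) (hCVM : SpecCVM)
    (hCSX : X3.SpecCSX) : SpecONA := by
  classical
  intro ε hε A hA
  obtain ⟨C₀, δ, hC₀, hδ, h⟩ := oneP hVAR hFMA hGSZ hCNE hCVM hCSX ε A hε hA
  refine ⟨C₀, fun C₁ => ?_⟩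
  obtain ⟨m, hm⟩ : ∃ m : ℕ, C₁ ≤ 2 ^ m * C₀ := by
    obtain ⟨m, hm⟩ := pow_unbounded_of_one_lt C₁ (by norm_num : (1 : ℝ) < 2)
    refine ⟨m, hm.le.trans ?_⟩
    have : (0 : ℝ) < 2 ^ m := by positivity
    nlinarith
  obtain ⟨D, hD⟩ := ranges hC₀ h m
  refine ⟨D, δ, hδ, ?_⟩
  have hlog : ∀ᶠ N : ℝ in atTop, 1 ≤ Real.log N :=
    Real.tendsto_log_atTop.eventually (eventually_ge_atTop _)
  filter_upwards [hD, hlog] with N hN hl T P B h1 h2 h3 h4 h5 h6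
  have h7 := hN T P B h1 (h2.trans (Real.rpow_le_rpow_of_exponent_le hl hm)) h3 h4 h5 h6
  unfold Bad at h7
  convert h7

end Pool.Agent.Lib.MP391708.X4
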