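import Pool.Agent.Lib.MP_391708_nt.X4.Spec
import Pool.Agent.Lib.MP_391708_nt.X3.MT.MNX

/-!
# THEOREM X4 (MP_391708), module TTA: the bilinear sum of the trivial character
-/

set_option autoImplicit false

namespace Pool.Agent.Lib.MP391708.X4

open Finset Filter Topology Pool.Agent.Lib.MP391708.MR
open Pool.Agent.Lib.MP391708.X (Ix psi ix1)
open Pool.Agent.Lib.MP391708.X3
open Pool.Agent.Lib.MP391708.X3M

namespace TTAM

/-- the sum over the cells -/
noncomputable def cs (h M : ℝ) : ℝ :=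
  ∑ v ∈ VV h M (2 * M), ((cell h M (2 * M) v).card : ℝ) * Real.exp (-((v : ℝ) / (2 * h)))

lemma GH_nonneg (X : ℝ) : 0 ≤ GH X := sum_nonneg fun _ _ => by positivity

lemma GH_eq {h M : ℝ} (hh : 0 < h) (hM : 0 < M) :
    GH M = ∑ v ∈ VV h M (2 * M), ∑ z ∈ cell h M (2 * M) v, 1 / Real.sqrt (nm z) := by
  unfold GH cell
  refine (Finset.sum_fiberwise_of_maps_to (fun z hz => ?_) _).symm
  unfold GP disc at hz
  rw [mem_filter, mem_filter] at hz
  obtain ⟨⟨-, -, h2⟩, -, -, -, -, h3⟩ := hz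
  unfold VV
  rw [Finset.mem_Icc]
  constructor
  · exact Nat.floor_le_floor (mul_le_mul_of_nonneg_left (Real.log_le_log hM h3.le) hh.le)
  · exact Nat.floor_le_floor (mul_le_mul_of_nonneg_left
      (Real.log_le_log (hM.trans h3) h2) hh.le)

/-- the weight of a point of a cell -/
lemma pt_cell {h M : ℝ} (hh : 0 < h) {v : ℕ} {z : Gi} (hz : z ∈ cell h M (2 * M) v) :
    1 / Real.sqrt (nm z) ≤ Real.exp (-((v : ℝ) / (2 * h))) ∧
      Real.exp (-((v : ℝ) / (2 * h))) ≤ Real.exp (1 / (2 * h)) * (1 / Real.sqrt (nm z)) := by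
  unfold cell GP at hz
  rw [mem_filter, mem_filter] at hz
  obtain ⟨⟨-, -, -, hp, -, -⟩, hv⟩ := hz
  have hx : (1 : ℝ) ≤ nm z := by exact_mod_cast hp.one_lt.le
  have hx0 : (0 : ℝ) < nm z := by linarith
  have e : 1 / Real.sqrt (nm z) = Real.exp (-(Real.log (nm z) / 2)) := by
    rw [Real.exp_neg, Real.exp_half, Real.exp_log hx0, one_div]
  have hl : 0 ≤ h * Real.log (nm z) := mul_nonneg hh.le (Real.log_nonneg hx)
  have h1 := Nat.floor_le hl
  have h2 := Nat.lt_floor_add_one (h * Real.log (nm z))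
  rw [hv] at h1 h2
  rw [e]
  constructor
  · rw [Real.exp_le_exp, neg_le_neg_iff, div_le_div_iff₀ (by positivity) (by norm_num)]
    nlinarith
  · rw [← Real.exp_add, Real.exp_le_exp]
    have h3 : Real.log (nm z) / 2 ≤ ((v : ℝ) + 1) / (2 * h) := by
      rw [div_le_div_iff₀ (by norm_num) (by positivity)]
      nlinarith
    have h4 : ((v : ℝ) + 1) / (2 * h) = (v : ℝ) / (2 * h) + 1 / (2 * h) := by ring
    rw [h4] at h3
    linarith

lemma cs_bd {h M : ℝ} (hh : 0 < h) (hM : 0 < M) :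
    GH M ≤ cs h M ∧ cs h M ≤ Real.exp (1 / (2 * h)) * GH M := by
  rw [GH_eq hh hM]
  unfold cs
  constructor
  · refine sum_le_sum fun v _ => ?_
    rw [← nsmul_eq_mul, ← sum_const]
    exact sum_le_sum fun z hz => (pt_cell hh hz).1
  · rw [mul_sum]
    refine sum_le_sum fun v _ => ?_
    rw [← nsmul_eq_mul, ← sum_const, mul_sum]
    exact sum_le_sum fun z hz => (pt_cell hh hz).2

lemma rad_eq (p : Par) (y π : Gi) (s : ℕ) :
    1 / rad p y π s = 1 / Real.sqrt ((nm y : ℝ) * nm π) * Real.exp (-((s : ℝ) / (2 * p.h))) := by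
  have e : (s : ℝ) / (2 * p.h) = (s : ℝ) / p.h / 2 := by ring
  unfold rad
  rw [Real.sqrt_mul (by positivity), Real.exp_neg, e, Real.exp_half, one_div, one_div, mul_inv]

lemma t_eq (p : Par) (y π : Gi) : MNXM.t p y π =
    4 / Real.sqrt ((nm y : ℝ) * nm π) * (cs p.h (p.K / nm y) * cs p.h p.M2) := by
  unfold MNXM.t cs I1 I2
  rw [sum_mul_sum, mul_sum]
  refine sum_congr rfl fun u _ => ?_
  rw [mul_sum]
  refine sum_congr rfl fun v _ => ?_
  have e : -(((u + v : ℕ) : ℝ) / (2 * p.h)) = -((u : ℝ) / (2 * p.h)) + -((v : ℝ) / (2 * p.h)) := by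
    push_cast
    ring
  rw [rad_eq, e, Real.exp_add]
  ring

theorem tta (p : Par) (y π : Gi) (b : ℕ) (hh : 0 < p.h) (hK : 0 < p.K / nm y) (hM : 0 < p.M2) :
    ∃ x : ℝ, TT p y π b ix1 = x ∧
    4 * (GH (p.K / nm y) * GH p.M2 / Real.sqrt ((nm y : ℝ) * nm π)) ≤ x ∧
    x ≤ 4 * (GH (p.K / nm y) * GH p.M2 / Real.sqrt ((nm y : ℝ) * nm π)) *
      Real.exp (1 / p.h) := by
  have h0 : 0 ≤ 4 / Real.sqrt ((nm y : ℝ) * nm π) := by positivity
  obtain ⟨h1, h2⟩ := cs_bd hh hK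
  obtain ⟨h3, h4⟩ := cs_bd hh hM
  have g1 := GH_nonneg (p.K / nm y)
  have g2 := GH_nonneg p.M2
  refine ⟨MNXM.t p y π, MNXM.TT_eq p y π b, ?_, ?_⟩
  · rw [t_eq]
    calc 4 * (GH (p.K / nm y) * GH p.M2 / Real.sqrt ((nm y : ℝ) * nm π))
        = 4 / Real.sqrt ((nm y : ℝ) * nm π) * (GH (p.K / nm y) * GH p.M2) := by ring
      _ ≤ _ := mul_le_mul_of_nonneg_left (mul_le_mul h1 h3 g2 (g1.trans h1)) h0
  · rw [t_eq]
    calc 4 / Real.sqrt ((nm y : ℝ) * nm π) * (cs p.h (p.K / nm y) * cs p.h p.M2)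
        ≤ 4 / Real.sqrt ((nm y : ℝ) * nm π) * ((Real.exp (1 / (2 * p.h)) * GH (p.K / nm y)) *
            (Real.exp (1 / (2 * p.h)) * GH p.M2)) :=
          mul_le_mul_of_nonneg_left (mul_le_mul h2 h4 (g2.trans h3)
            (mul_nonneg (Real.exp_pos _).le g1)) h0
      _ = _ := by
          have e : Real.exp (1 / p.h) = Real.exp (1 / (2 * p.h)) * Real.exp (1 / (2 * p.h)) := by
            rw [← Real.exp_add]
            congr 1
            field_simp
            norm_num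
          rw [e]
          ring

end TTAM

open TTAM in
/-- **TTA**. -/
theorem specTTA (hSIZ : SpecSIZ) : SpecTTA := by
  refine hSIZ.mono ?_
  rintro p B U b y hS π hπ
  have h1 := hS.N1
  have h2 := hS.h1
  have h3 := hS.K1
  have h4 := hS.M21
  have h5 : 0 < p.N ^ (9 / 10 : ℝ) := Real.rpow_pos_of_pos (by linarith) _
  exact tta p y π b (by linarith) (by linarith) (by linarith)

end Pool.Agent.Lib.MP391708.X4
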