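import Pool.Agent.Lib.MP_391708_nt.X4.Spec
import Pool.Agent.Lib.MP_391708_nt.XP.O.UNP

/-!
# THEOREM X4 (MP_391708), module UNA: the union over the boxes and over `ε`, `C₁` (helper6)
-/

set_option autoImplicit false

namespace Pool.Agent.Lib.MP391708.X4

open Finset Filter Topology
open Pool.Agent.Lib.MP391708.XP (gB IsConst count)
open Pool.Agent.Lib.MP391708.XP.UNPM (count_of_blocks union_sets)

namespace UNAM

/-- the box `(i, j, l)` fails for `b` -/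
def Fl (ε : ℝ) (b : ℕ) (P K M : ℝ) : Prop := ∃ h : ℝ, 0 < h ∧ IsConst b h ∧
  ε * mt h P K M < |(W3 b P K M : ℝ) - mt h P K M|

/-- the exceptional set for one choice of the parameters -/
def Em (ε C₀ C₁ D c : ℝ) : Set ℕ := {b | ∃ i j l : ℕ, ∃ N : ℝ,
  Adm C₀ C₁ D c b (2 ^ i) (2 ^ j) (2 ^ l) N ∧ Fl ε b (2 ^ i) (2 ^ j) (2 ^ l)}

lemma mt_nonneg {h : ℝ} (hh : 0 < h) (i j l : ℕ) : 0 ≤ mt h (2 ^ i) (2 ^ j) (2 ^ l) := by
  unfold mt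
  have h1 : (0 : ℝ) ≤ Real.sqrt 2 - 1 := by
    rw [sub_nonneg]
    exact Real.one_le_sqrt.2 (by norm_num)
  have h2 : ∀ n : ℕ, 0 ≤ Real.log ((2 : ℝ) ^ n) := fun n =>
    Real.log_nonneg (one_le_pow₀ (by norm_num))
  have := h2 i
  have := h2 j
  have := h2 l
  positivity

/-- the size of `N` -/
lemma sizeN {i j l : ℕ} {N : ℝ} (h : N = Real.sqrt (8 * 2 ^ i * 2 ^ j * 2 ^ l)) :
    0 < N ∧ N ^ 2 = 8 * 2 ^ i * 2 ^ j * 2 ^ l ∧ N ^ 2 = 2 ^ (3 + i + j + l) ∧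
      Real.log N = (3 + i + j + l : ℝ) / 2 * Real.log 2 := by
  have h0 : (8 : ℝ) * 2 ^ i * 2 ^ j * 2 ^ l = 2 ^ (3 + i + j + l) := by
    rw [pow_add, pow_add, pow_add]; norm_num
  have hp : (0 : ℝ) < 8 * 2 ^ i * 2 ^ j * 2 ^ l := by positivity
  have h1 : N ^ 2 = 8 * 2 ^ i * 2 ^ j * 2 ^ l := by rw [h, Real.sq_sqrt hp.le]
  refine ⟨by rw [h]; exact Real.sqrt_pos.2 hp, h1, by rw [h1, h0], ?_⟩
  rw [h, Real.log_sqrt hp.le, h0, Real.log_pow]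
  push_cast; ring

/-- the facts about an admissible box -/
lemma facts {C₀ C₁ D δ : ℝ} {s b i j l : ℕ} {N : ℝ} (hD : 1 ≤ D) (hs : 1 ≤ s) (hb : 2 ^ s < b)
    (hb2 : b ≤ 2 ^ (s + 1)) (hA : Adm C₀ C₁ D δ b (2 ^ i) (2 ^ j) (2 ^ l) N) :
    1 ≤ Real.log N ∧ 4 * s ≤ 3 + i + j + l ∧ 3 + i + j + l ≤ 3 * 2 ^ (s + 1) ∧ ((2 : ℝ) ^ s) ^ 2 ≤ N := by
  obtain ⟨h1, h2, h3, h4⟩ := sizeN hA.N8
  have hbR : (2 : ℝ) ^ s < b := by exact_mod_cast hb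
  have hs0 : (0 : ℝ) < 2 ^ s := by positivity
  have hN : ((2 : ℝ) ^ s) ^ 2 ≤ N := (by gcongr : ((2 : ℝ) ^ s) ^ 2 ≤ (b : ℝ) ^ 2).trans hA.b2
  have h5 : 4 * s ≤ 3 + i + j + l := by
    have h6 : (2 : ℝ) ^ (4 * s) ≤ 2 ^ (3 + i + j + l) := by
      rw [← h3]
      calc (2 : ℝ) ^ (4 * s) = (((2 : ℝ) ^ s) ^ 2) ^ 2 := by rw [← pow_mul, ← pow_mul]; ring_nf
        _ ≤ N ^ 2 := by gcongr
    exact (pow_le_pow_iff_right₀ (by norm_num : (1 : ℝ) < 2)).1 h6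
  have hl2 := Real.log_two_gt_d9
  have h7 : (4 : ℝ) * s ≤ 3 + i + j + l := by exact_mod_cast h5
  have hsR : (1 : ℝ) ≤ s := by exact_mod_cast hs
  have hlog : 1 ≤ Real.log N := by
    rw [h4]; nlinarith
  refine ⟨hlog, h5, ?_, hN⟩
  -- the upper bound
  have hP : (1 : ℝ) ≤ 2 ^ i := one_le_pow₀ (by norm_num)
  have hlD : Real.log N ≤ Real.log N ^ D := by
    calc Real.log N = Real.log N ^ (1 : ℝ) := (Real.rpow_one _).symm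
      _ ≤ Real.log N ^ D := Real.rpow_le_rpow_of_exponent_le hlog hD
  have h8 : 1 ≤ N / 2 ^ j := by
    refine le_trans ?_ hA.T1
    nlinarith
  have h9 : Real.log N ≤ b := by
    refine le_trans ?_ hA.T3
    have h10 : 1 ≤ N / 2 ^ j * 2 ^ i := by nlinarith
    calc Real.log N ≤ 1 * Real.log N ^ D := by linarith
      _ ≤ _ := by gcongr
  have h10 : (b : ℝ) ≤ 2 ^ (s + 1) := by exact_mod_cast hb2
  have h11 : (3 + i + j + l : ℝ) ≤ 3 * 2 ^ (s + 1) := by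
    rw [h4] at h9
    nlinarith
  exact_mod_cast h11

lemma sum_sq (R : ℕ) : ∑ i ∈ range R, 1 / ((i : ℝ) + 1) ^ 2 ≤ 2 := by
  have h := Pool.Agent.Lib.MP391708.X.UNM.sum_inv_sq_le ((range R).map ⟨Nat.succ, Nat.succ_injective⟩)
  rw [sum_map] at h
  simpa using h

open scoped Classical in
/-- one dyadic block of numbers `b` -/
lemma one_block (ε C₀ C₁ D₀ δ : ℝ) (a : ℕ) (N₀ : ℝ)
    (h : ∀ N : ℝ, N₀ ≤ N → ∀ T P B : ℝ, Real.log N ^ C₀ ≤ P → P ≤ Real.log N ^ C₁ → P * Real.log N ^ D₀ ≤ T →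
      T ≤ N ^ δ → T * P * Real.log N ^ D₀ ≤ B → B ^ 2 ≤ 2 * N →
      (((Ioc ⌊B⌋₊ ⌊2 * B⌋₊).filter (fun b => ∃ h : ℝ, 0 < h ∧ IsConst b h ∧
        ε * mt h P (N / T) (N * T / (8 * P)) <
          |(W3 b P (N / T) (N * T / (8 * P)) : ℝ) - mt h P (N / T) (N * T / (8 * P))|)).card : ℝ) ≤
        B * Real.log N ^ (-((a : ℝ) + 6))) :
    ∃ s₀ : ℕ, ∀ s : ℕ, s₀ ≤ s →
      (((Ioc (2 ^ s) (2 ^ (s + 1))).filter (fun b => b ∈ Em ε C₀ C₁ (max D₀ 0 + 1) δ)).card : ℝ) ≤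
        5832 * 2 ^ s / (s : ℝ) ^ a := by
  obtain ⟨s₁, hs₁⟩ : ∃ s₁ : ℕ, N₀ ≤ 2 ^ s₁ :=
    pow_unbounded_of_one_lt N₀ (by norm_num) |>.imp fun _ h => h.le
  refine ⟨s₁ + 3, fun s hs => ?_⟩
  have hs1 : 1 ≤ s := by omega
  have hs0 : (0 : ℝ) < s := by exact_mod_cast hs1
  have hD : 1 ≤ max D₀ 0 + 1 := by linarith [le_max_right D₀ 0]
  have hD0 : D₀ ≤ max D₀ 0 := le_max_left _ _
  set R := 3 * 2 ^ (s + 1) + 1 with hR
  set J := (range R ×ˢ range R ×ˢ range R).filter (fun q => ∃ b : ℕ, 2 ^ s < b ∧ b ≤ 2 ^ (s + 1) ∧ ∃ N : ℝ,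
    Adm C₀ C₁ (max D₀ 0 + 1) δ b (2 ^ q.1) (2 ^ q.2.1) (2 ^ q.2.2) N) with hJ
  have hsub : (Ioc (2 ^ s) (2 ^ (s + 1))).filter (fun b => b ∈ Em ε C₀ C₁ (max D₀ 0 + 1) δ) ⊆
      J.biUnion (fun q => (Ioc (2 ^ s) (2 * 2 ^ s)).filter
        (fun b => Fl ε b (2 ^ q.1) (2 ^ q.2.1) (2 ^ q.2.2))) := by
    intro b hb
    rw [mem_filter, mem_Ioc] at hb
    obtain ⟨⟨hb1, hb2⟩, i, j, l, N, hA, hF⟩ := hb
    obtain ⟨-, -, h3, -⟩ := facts hD hs1 hb1 hb2 hA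
    rw [mem_biUnion]
    refine ⟨(i, j, l), ?_, ?_⟩
    · rw [hJ, mem_filter, mem_product, mem_product, mem_range, mem_range, mem_range]
      exact ⟨⟨by simp only; omega, by simp only; omega, by simp only; omega⟩, b, hb1, hb2, N, hA⟩
    · rw [mem_filter, mem_Ioc]
      exact ⟨⟨hb1, by rw [pow_succ] at hb2; omega⟩, hF⟩
  have hterm : ∀ q ∈ J, (((Ioc (2 ^ s) (2 * 2 ^ s)).filter
        (fun b => Fl ε b (2 ^ q.1) (2 ^ q.2.1) (2 ^ q.2.2))).card : ℝ) ≤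
      (729 * 2 ^ s / (s : ℝ) ^ a) *
        (1 / ((q.1 : ℝ) + 1) ^ 2 * (1 / ((q.2.1 : ℝ) + 1) ^ 2 * (1 / ((q.2.2 : ℝ) + 1) ^ 2))) := by
    rintro ⟨i, j, l⟩ hq
    rw [hJ, mem_filter] at hq
    obtain ⟨-, b, hb1, hb2, N, hA⟩ := hq
    simp only at hA
    obtain ⟨hlog, h2, -, h4⟩ := facts hD hs1 hb1 hb2 hA
    obtain ⟨hN0, g1, g2, g3⟩ := sizeN hA.N8
    have hl2 := Real.log_two_gt_d9
    have hbR : (b : ℝ) ≤ 2 ^ (s + 1) := by exact_mod_cast hb2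
    have hlog2 : 2 ≤ Real.log N := by
      have h7 : (4 : ℝ) * s ≤ 3 + i + j + l := by exact_mod_cast h2
      have h8 : (3 : ℝ) ≤ s := by exact_mod_cast (by omega : 3 ≤ s)
      rw [g3]; nlinarith
    have hTpos : 0 < N / 2 ^ j := by positivity
    have hNN₀ : N₀ ≤ N := by
      refine hs₁.trans (le_trans ?_ h4)
      rw [← pow_mul]
      exact pow_le_pow_right₀ (by norm_num) (by omega)
    have hmono : Real.log N ^ D₀ ≤ Real.log N ^ (max D₀ 0) :=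
      Real.rpow_le_rpow_of_exponent_le hlog hD0
    have hsucc : Real.log N ^ (max D₀ 0 + 1) = Real.log N ^ (max D₀ 0) * Real.log N := by
      rw [Real.rpow_add (by linarith), Real.rpow_one]
    have hpos : 0 < Real.log N ^ (max D₀ 0) := Real.rpow_pos_of_pos (by linarith) _
    have hle1 : Real.log N ^ D₀ ≤ Real.log N ^ (max D₀ 0 + 1) := by
      rw [hsucc]; nlinarith
    have e1 : N / (N / 2 ^ j) = 2 ^ j := by field_simp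
    have e2 : N * (N / 2 ^ j) / (8 * 2 ^ i) = (2 : ℝ) ^ l := by
      rw [div_eq_iff (by positivity), mul_div_assoc', div_eq_iff (by positivity), ← sq, g1]
      ring
    have hfin := h N hNN₀ (N / 2 ^ j) (2 ^ i) (2 ^ s) hA.P1 hA.P2
      (le_trans (by gcongr) hA.T1) hA.T2
      (by
        have h5 : N / 2 ^ j * 2 ^ i * (Real.log N ^ (max D₀ 0) * Real.log N) ≤ 2 ^ (s + 1) := by
          rw [← hsucc]; exact hA.T3.trans hbR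
        have hX : 0 < N / 2 ^ j * 2 ^ i := by positivity
        have h6 : N / 2 ^ j * 2 ^ i * Real.log N ^ (max D₀ 0) * 2 ≤ 2 ^ s * 2 := by
          calc N / 2 ^ j * 2 ^ i * Real.log N ^ (max D₀ 0) * 2
              ≤ N / 2 ^ j * 2 ^ i * Real.log N ^ (max D₀ 0) * Real.log N := by gcongr
            _ = N / 2 ^ j * 2 ^ i * (Real.log N ^ (max D₀ 0) * Real.log N) := by ring
            _ ≤ 2 ^ (s + 1) := h5
            _ = 2 ^ s * 2 := pow_succ _ _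
        calc N / 2 ^ j * 2 ^ i * Real.log N ^ D₀ ≤ N / 2 ^ j * 2 ^ i * Real.log N ^ (max D₀ 0) := by gcongr
          _ ≤ 2 ^ s := by linarith)
      (by linarith [h4, hN0])
    rw [e1, e2] at hfin
    have e3 : ⌊(2 : ℝ) ^ s⌋₊ = 2 ^ s := by
      rw [show (2 : ℝ) ^ s = ((2 ^ s : ℕ) : ℝ) by push_cast; rfl, Nat.floor_natCast]
    have e4 : ⌊2 * (2 : ℝ) ^ s⌋₊ = 2 * 2 ^ s := by
      rw [show 2 * (2 : ℝ) ^ s = ((2 * 2 ^ s : ℕ) : ℝ) by push_cast; rfl, Nat.floor_natCast]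
    rw [e3, e4] at hfin
    refine (Eq.le ?_).trans (hfin.trans ?_)
    · congr
    -- the size of the bound
    have t1 : ((3 : ℝ) + i + j + l) / 3 ≤ Real.log N := by
      rw [g3]
      have : (0 : ℝ) ≤ 3 + i + j + l := by positivity
      nlinarith
    have t2 : (s : ℝ) ≤ Real.log N := by
      have h7 : (4 : ℝ) * s ≤ 3 + i + j + l := by exact_mod_cast h2
      linarith
    have i0 : (0 : ℝ) ≤ i := Nat.cast_nonneg _
    have j0 : (0 : ℝ) ≤ j := Nat.cast_nonneg _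
    have l0 : (0 : ℝ) ≤ l := Nat.cast_nonneg _
    have t3 : ((i : ℝ) + 1) / 3 ≤ Real.log N := by linarith
    have t4 : ((j : ℝ) + 1) / 3 ≤ Real.log N := by linarith
    have t5 : ((l : ℝ) + 1) / 3 ≤ Real.log N := by linarith
    have e5 : Real.log N ^ (-((a : ℝ) + 6)) = (Real.log N ^ (a + 6))⁻¹ := by
      rw [Real.rpow_neg (by linarith), show ((a : ℝ) + 6) = ((a + 6 : ℕ) : ℝ) by push_cast; rfl,
        Real.rpow_natCast]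
    rw [e5]
    have t6 : (s : ℝ) ^ a * ((((i : ℝ) + 1) / 3) ^ 2 * ((((j : ℝ) + 1) / 3) ^ 2 * (((l : ℝ) + 1) / 3) ^ 2)) ≤
        Real.log N ^ (a + 6) := by
      rw [show Real.log N ^ (a + 6) = Real.log N ^ a * (Real.log N ^ 2 * (Real.log N ^ 2 * Real.log N ^ 2)) by
        ring]
      gcongr
    calc (2 : ℝ) ^ s * (Real.log N ^ (a + 6))⁻¹
        ≤ 2 ^ s * ((s : ℝ) ^ a * ((((i : ℝ) + 1) / 3) ^ 2 *
            ((((j : ℝ) + 1) / 3) ^ 2 * (((l : ℝ) + 1) / 3) ^ 2)))⁻¹ := by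
          gcongr
      _ = _ := by
          field_simp
          ring
  refine le_trans (Nat.cast_le.2 ((card_le_card hsub).trans card_biUnion_le)) ?_
  rw [Nat.cast_sum]
  refine (sum_le_sum hterm).trans ?_
  rw [← mul_sum]
  have hbig : ∑ q ∈ J, (1 / ((q.1 : ℝ) + 1) ^ 2 * (1 / ((q.2.1 : ℝ) + 1) ^ 2 * (1 / ((q.2.2 : ℝ) + 1) ^ 2))) ≤ 8 := by
    have hle : ∑ q ∈ J, (1 / ((q.1 : ℝ) + 1) ^ 2 * (1 / ((q.2.1 : ℝ) + 1) ^ 2 * (1 / ((q.2.2 : ℝ) + 1) ^ 2))) ≤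
        ∑ q ∈ range R ×ˢ range R ×ˢ range R,
          (1 / ((q.1 : ℝ) + 1) ^ 2 * (1 / ((q.2.1 : ℝ) + 1) ^ 2 * (1 / ((q.2.2 : ℝ) + 1) ^ 2))) := by
      refine sum_le_sum_of_subset_of_nonneg (filter_subset _ _) fun q _ _ => by positivity
    refine hle.trans ?_
    rw [sum_product]
    simp_rw [sum_product, ← mul_sum, ← sum_mul]
    have hS := sum_sq R
    have hS0 : 0 ≤ ∑ i ∈ range R, 1 / ((i : ℝ) + 1) ^ 2 := sum_nonneg fun _ _ => by positivity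
    calc _ ≤ (2 : ℝ) * (2 * 2) := by gcongr
      _ = 8 := by norm_num
  calc 729 * 2 ^ s / (s : ℝ) ^ a * ∑ q ∈ J,
        (1 / ((q.1 : ℝ) + 1) ^ 2 * (1 / ((q.2.1 : ℝ) + 1) ^ 2 * (1 / ((q.2.2 : ℝ) + 1) ^ 2)))
      ≤ 729 * 2 ^ s / (s : ℝ) ^ a * 8 := by gcongr
    _ = _ := by ring

end UNAM

open UNAM in
/-- **UNA**: the union over the boxes and over `ε`, `C₁`. -/
theorem specUNA : SpecUNA := by
  intro hONA hHGB A
  classical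
  obtain ⟨C, hC, hH⟩ := hHGB
  have h1 : ∀ m₁ : ℕ, ∃ C₀ : ℝ, ∀ m₂ : ℕ, ∃ D c : ℝ, 0 < c ∧ ∀ᶠ x : ℕ in atTop,
      (count (Em (1 / ((m₁ : ℝ) + 1)) C₀ m₂ D c) x : ℝ) ≤ x / (Real.log x) ^ (A + 1) := by
    intro m₁
    obtain ⟨C₀, h2⟩ := hONA (1 / ((m₁ : ℝ) + 1)) (by positivity) (((A + 2 : ℕ) : ℝ) + 6) (by positivity)
    refine ⟨C₀, fun m₂ => ?_⟩
    obtain ⟨D₀, δ, hδ, h3⟩ := h2 m₂
    obtain ⟨N₀, hN₀⟩ := eventually_atTop.1 h3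
    obtain ⟨s₀, hs₀⟩ := one_block (1 / ((m₁ : ℝ) + 1)) C₀ m₂ D₀ δ (A + 2) N₀
      (fun N hN T P B a1 a2 a3 a4 a5 a6 => hN₀ N hN T P B a1 a2 a3 a4 a5 a6)
    exact ⟨max D₀ 0 + 1, δ, hδ, count_of_blocks _ 5832 (by norm_num) (A + 1) s₀ hs₀⟩
  choose C₀ h2 using h1
  choose D c hc hcnt using h2
  obtain ⟨E, hE1, hE2⟩ := union_sets A (fun k => Em (1 / (((Nat.unpair k).1 : ℝ) + 1)) (C₀ (Nat.unpair k).1)
    ((Nat.unpair k).2 : ℝ) (D (Nat.unpair k).1 (Nat.unpair k).2) (c (Nat.unpair k).1 (Nat.unpair k).2))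
    (fun k => hcnt _ _)
  refine ⟨E, hE1, fun ε hε => ?_⟩
  obtain ⟨m₁, hm₁⟩ := exists_nat_one_div_lt hε
  refine ⟨C₀ m₁, fun C₁ => ?_⟩
  obtain ⟨m₂, hm₂⟩ := exists_nat_ge C₁
  refine ⟨D m₁ m₂, c m₁ m₂, hc m₁ m₂, ?_⟩
  obtain ⟨b₀, hb₀⟩ := hE2 (Nat.pair m₁ m₂)
  refine ⟨max b₀ 2, fun b hb hbE => ?_⟩
  have hb2 : 2 ≤ b := (le_max_right _ _).trans hb
  obtain ⟨h, hh, hconst, -⟩ := hH b (by omega)
  refine ⟨h, hh, hconst, fun i j l N hA => ?_⟩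
  by_contra hcon
  push Not at hcon
  apply hbE
  apply hb₀ b ((le_max_left _ _).trans hb)
  simp only [Nat.unpair_pair]
  have hNe : Real.exp 1 ≤ N := by
    have h5 : (2 : ℝ) ≤ b := by exact_mod_cast hb2
    have h6 := hA.b2
    have h7 := Real.exp_one_lt_d9
    nlinarith
  have hlog : 1 ≤ Real.log N := by
    rw [Real.le_log_iff_exp_le (lt_of_lt_of_le (Real.exp_pos 1) hNe)]
    exact hNe
  refine ⟨i, j, l, N, ⟨hA.N8, hA.b2, hA.P1, hA.P2.trans (Real.rpow_le_rpow_of_exponent_le hlog hm₂),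
    hA.T1, hA.T2, hA.T3⟩, h, hh, hconst, lt_of_le_of_lt ?_ hcon⟩
  exact mul_le_mul_of_nonneg_right hm₁.le (mt_nonneg hh i j l)

end Pool.Agent.Lib.MP391708.X4
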