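import Pool.Agent.Lib.MP_391708_nt.X3.Final
import Pool.Agent.Lib.MP_391708_nt.X4.HVA
import Pool.Agent.Lib.MP_391708_nt.X4.GPA
import Pool.Agent.Lib.MP_391708_nt.X4.TTA
import Pool.Agent.Lib.MP_391708_nt.X4.GSZ
import Pool.Agent.Lib.MP_391708_nt.X4.FMA
import Pool.Agent.Lib.MP_391708_nt.X4.CNE
import Pool.Agent.Lib.MP_391708_nt.X4.CVM
import Pool.Agent.Lib.MP_391708_nt.X4.ONA
import Pool.Agent.Lib.MP_391708_nt.X4.UNA

/-!
# THEOREM X4 (MP_391708): assembly
-/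

set_option autoImplicit false

namespace Pool.Agent.Lib.MP391708.X4

open Pool.Agent.Lib.MP391708

theorem x4_gpl : X.SpecGPL := X.specGPL QPA.specPNTAP
theorem x4_gpa : SpecGPA := specGPA x4_gpl
theorem x4_hva : SpecHVA := specHVA
theorem x4_tta : SpecTTA := specTTA X3M.mt_siz
theorem x4_gsz : SpecGSZ := specGSZ x4_gpa X3M.mt_siz X3M.mt_rra X3M.mt_xxl XL.ls_lsm
theorem x4_fma : SpecFMA := specFMA X3M.mt_flp X3M.mt_red X3M.mt_blx X3M.mt_avb x4_tta x4_gsz X3M.mt_rra X3M.mt_siz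
theorem x4_cvm : SpecCVM := specCVM x4_gpa x4_hva
theorem x4_var : X3.SpecVAR := X3.x3_varOf X3U.specFIN
theorem x4_ona : SpecONA := specONA x4_var x4_fma x4_gsz specCNE x4_cvm X3.specCSX

/-- THEOREM X4, without hypotheses: the asymptotic formula for three primes -/
theorem mainX4 : MainX4 := specUNA x4_ona (XP.specHGB XP.specH1C)

end Pool.Agent.Lib.MP391708.X4
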