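import Pool.Agent.Lib.MP_391708_nt.X4.SpecK
import Pool.Agent.Lib.MP_391708_nt.X4.GPA

/-!
# THEOREM X4 (MP_391708), module GPB: the sum of `1/N(π)` over the Gaussian primes of a dyadic annulus (helper64)
-/

set_option autoImplicit false

namespace Pool.Agent.Lib.MP391708.X4

open Finset Filter Topology Pool.Agent.Lib.MP391708.MR

namespace GPBM

lemma upper {P Q : ℝ} (hP : 0 < P) :
    ∑ π ∈ GP P Q, 1 / (nm π : ℝ) ≤ ((GP P Q).card : ℝ) * (1 / P) := by
  rw [← nsmul_eq_mul]
  refine sum_le_card_nsmul _ _ _ fun z hz => ?_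
  rw [mem_GP] at hz
  exact one_div_le_one_div_of_le hP hz.2.2.2.2.1.le

lemma lower {P Q : ℝ} (hP : 0 < P) :
    ((GP P Q).card : ℝ) * (1 / Q) ≤ ∑ π ∈ GP P Q, 1 / (nm π : ℝ) := by
  rw [← nsmul_eq_mul]
  refine card_nsmul_le_sum _ _ _ fun z hz => ?_
  rw [mem_GP] at hz
  have h := hz.2.2.2.2.1
  exact one_div_le_one_div_of_le (hP.trans h) hz.2.2.2.2.2

/-- the upper sum -/
noncomputable def UL (μ : ℝ) (n : ℕ) (X : ℝ) : ℝ :=
  ∑ j ∈ range n, (((GP (μ ^ j * X) (μ * (μ ^ j * X))).card : ℝ) * Real.log X / X) * (1 / μ ^ j)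

lemma UL_tendsto (hg : X.SpecGPL) {μ : ℝ} (hμ : 1 < μ) (n : ℕ) :
    Tendsto (UL μ n) atTop (𝓝 (n * (μ - 1))) := by
  have h1 : ∀ j ∈ range n, Tendsto (fun X : ℝ =>
      (((GP (μ ^ j * X) (μ * (μ ^ j * X))).card : ℝ) * Real.log X / X) * (1 / μ ^ j)) atTop
      (𝓝 (((μ - 1) * μ ^ j) * (1 / μ ^ j))) := by
    intro j _
    refine Tendsto.mul_const _ ?_
    exact GPAM.scale (F := fun M => ((GP M (μ * M)).card : ℝ)) (by positivity) (GPAM.card_tendsto hg hμ)
  have h2 := tendsto_finsetSum _ h1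
  have h3 : ∑ j ∈ range n, ((μ - 1) * μ ^ j) * (1 / μ ^ j) = n * (μ - 1) := by
    have h4 : ∀ j ∈ range n, ((μ - 1) * μ ^ j) * (1 / μ ^ j) = μ - 1 := by
      intro j _
      have : μ ^ j ≠ 0 := by positivity
      field_simp
    rw [sum_congr rfl h4, sum_const, card_range, nsmul_eq_mul]
  rw [h3] at h2
  exact h2

lemma bounds {μ : ℝ} (hμ : 1 < μ) {n : ℕ} (hn : μ ^ n = 2) {X : ℝ} (hX : 1 < X) :
    WW X (2 * X) * Real.log X ≤ UL μ n X ∧ (1 / μ) * UL μ n X ≤ WW X (2 * X) * Real.log X := by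
  have hX0 : 0 < X := by linarith
  have hl : 0 < Real.log X := Real.log_pos hX
  have hμ0 : 0 < μ := by linarith
  set a : ℕ → ℝ := fun j => μ ^ j * X with ha
  have hmono : Monotone a := by
    intro i j hij
    simp only [ha]
    have : μ ^ i ≤ μ ^ j := pow_le_pow_right₀ hμ.le hij
    gcongr
  have h0 : a 0 = X := by simp [ha]
  have h1 : a n = 2 * X := by simp [ha, hn]
  have h2 : ∀ j, a (j + 1) = μ * (μ ^ j * X) := by
    intro j
    simp only [ha]
    ring
  have h4 := GPAM.splitn hmono (fun π => 1 / (nm π : ℝ)) n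
  rw [h0, h1] at h4
  rw [WW, h4, sum_mul, UL, mul_sum]
  constructor
  · refine sum_le_sum fun j _ => ?_
    have haj : 0 < a j := by simp only [ha]; positivity
    have h5 := upper (Q := a (j + 1)) haj
    rw [← h2 j]
    have h6 : ((GP (μ ^ j * X) (a (j + 1))).card : ℝ) * Real.log X / X * (1 / μ ^ j) =
        ((GP (a j) (a (j + 1))).card : ℝ) * (1 / a j) * Real.log X := by
      simp only [ha]
      field_simp
    rw [h6]
    gcongr
  · refine sum_le_sum fun j _ => ?_
    have haj : 0 < a j := by simp only [ha]; positivity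
    have h5 := lower (Q := a (j + 1)) haj
    rw [← h2 j]
    have h6 : 1 / μ * (((GP (μ ^ j * X) (a (j + 1))).card : ℝ) * Real.log X / X * (1 / μ ^ j)) =
        ((GP (a j) (a (j + 1))).card : ℝ) * (1 / a (j + 1)) * Real.log X := by
      simp only [ha]
      field_simp
      ring
    rw [h6]
    gcongr

lemma two_rpow : Tendsto (fun n : ℕ => ((n + 1 : ℕ) : ℝ) * ((2 : ℝ) ^ (1 / ((n : ℝ) + 1)) - 1)) atTop (𝓝 (Real.log 2)) := by
  have h1 : HasDerivAt (fun x : ℝ => (2 : ℝ) ^ x) (Real.log 2) 0 := by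
    have := (Real.hasStrictDerivAt_const_rpow (by norm_num : (0 : ℝ) < 2) 0).hasDerivAt
    simpa using this
  rw [hasDerivAt_iff_tendsto_slope] at h1
  have h2 : Tendsto (fun n : ℕ => 1 / ((n : ℝ) + 1)) atTop (𝓝[≠] 0) := by
    rw [tendsto_nhdsWithin_iff]
    refine ⟨tendsto_one_div_add_atTop_nhds_zero_nat, ?_⟩
    filter_upwards with n
    simp only [Set.mem_compl_iff, Set.mem_singleton_iff]
    positivity
  refine (h1.comp h2).congr' ?_
  filter_upwards with n
  simp only [Function.comp_apply, slope_def_field, Real.rpow_zero, sub_zero]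
  push_cast
  field_simp

lemma main (hg : X.SpecGPL) : Tendsto (fun X : ℝ => WW X (2 * X) * Real.log X) atTop (𝓝 (Real.log 2)) := by
  set μ : ℕ → ℝ := fun n => (2 : ℝ) ^ (1 / ((n : ℝ) + 1)) with hμ
  have hμ1 : ∀ n, 1 < μ n := fun n => Real.one_lt_rpow (by norm_num) (by positivity)
  have hμn : ∀ n, μ n ^ (n + 1) = 2 := by
    intro n
    simp only [hμ]
    rw [← Real.rpow_natCast, ← Real.rpow_mul (by norm_num)]
    have : 1 / ((n : ℝ) + 1) * ((n + 1 : ℕ) : ℝ) = 1 := by
      push_cast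
      field_simp
    rw [this, Real.rpow_one]
  have hμt : Tendsto μ atTop (𝓝 1) := by
    have h2 := ((Real.continuous_const_rpow (by norm_num : (2 : ℝ) ≠ 0)).tendsto 0).comp
      (tendsto_one_div_add_atTop_nhds_zero_nat (𝕜 := ℝ))
    rw [Real.rpow_zero] at h2
    exact h2
  have hL : Tendsto (fun n => (1 / μ n) * (((n + 1 : ℕ) : ℝ) * (μ n - 1))) atTop (𝓝 (Real.log 2)) := by
    have h1 : Tendsto (fun n => 1 / μ n) atTop (𝓝 1) := by
      have h2 := hμt.inv₀ one_ne_zero
      rw [inv_one] at h2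
      exact h2.congr fun n => (one_div _).symm
    have := h1.mul two_rpow
    rwa [one_mul] at this
  rw [tendsto_order]
  constructor
  · intro a ha
    obtain ⟨n, hn⟩ := (hL.eventually_const_lt ha).exists
    have h1 := (UL_tendsto hg (hμ1 n) (n + 1)).const_mul (1 / μ n)
    filter_upwards [h1.eventually_const_lt hn, eventually_gt_atTop 1] with X h2 h3
    exact h2.trans_le (bounds (hμ1 n) (hμn n) h3).2
  · intro a ha
    obtain ⟨n, hn⟩ := (two_rpow.eventually_lt_const ha).exists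
    have h1 := UL_tendsto hg (hμ1 n) (n + 1)
    filter_upwards [h1.eventually_lt_const hn, eventually_gt_atTop 1] with X h2 h3
    exact (bounds (hμ1 n) (hμn n) h3).1.trans_lt h2

end GPBM

/-- GPB: the sum of `1/N(π)` over the Gaussian primes of a dyadic annulus -/
theorem specGPB (hg : X.SpecGPL) : SpecGPB := by
  intro ε hε
  filter_upwards [(Metric.tendsto_nhds.1 (GPBM.main hg)) ε hε, eventually_gt_atTop 1] with X h1 h2
  have h3 : 0 < Real.log X := Real.log_pos h2
  rw [Real.dist_eq] at h1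
  have h5 : WW X (2 * X) - Real.log 2 / Real.log X = (WW X (2 * X) * Real.log X - Real.log 2) / Real.log X := by
    field_simp
  rw [h5, abs_div, abs_of_pos h3]
  gcongr

end Pool.Agent.Lib.MP391708.X4
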