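import Pool.Agent.Lib.MP_391708_nt.X4.SpecK
import Pool.Agent.Lib.MP_391708_nt.X4.ONA

/-!
# THEOREM X4 (MP_391708), module ONK: one box, every number of primes
-/

set_option autoImplicit false

namespace Pool.Agent.Lib.MP391708.X4

open Finset Filter Topology Pool.Agent.Lib.MP391708.MR
open Pool.Agent.Lib.MP391708.X (ChiG hk Dist Fam rgh VP Ix psi ix1 UOK lc On YOK)
open Pool.Agent.Lib.MP391708.X3
open Pool.Agent.Lib.MP391708.XL (VS PS)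
open Pool.Agent.Lib.MP391708.XP (gB IsConst count)
open scoped ComplexConjugate

namespace ONKM

/-- the exceptional `b` of a box -/
def Bad {r : ℕ} (ε N T P : ℝ) (e : Fin r → ℝ) (b : ℕ) : Prop := ∃ h : ℝ, 0 < h ∧ IsConst b h ∧
  ε * mtk e h P (N / T) (N * T / (8 * P)) <
    |(WK e b P (N / T) (N * T / (8 * P)) : ℝ) - mtk e h P (N / T) (N * T / (8 * P))|

/-- few bad `b` -/
lemma few {I : Finset ℕ} {D : ℕ → ℂ} {Q : ℕ → Prop} [DecidablePred Q] {N ℓ A B : ℝ} (hN : 0 < N) (hl : 20 ≤ ℓ)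
    (hB : 0 ≤ B) (h1 : ∀ b ∈ I, Q b → N / ℓ ^ 8 ≤ ‖D b‖)
    (h2 : ∑ b ∈ I, ‖D b‖ ^ 2 ≤ 20 * ℓ ^ (-(A + 20)) * B * N ^ 2) : ((I.filter Q).card : ℝ) ≤ B * ℓ ^ (-A) := by
  have hl0 : 0 < ℓ := by linarith
  have h3 : ((I.filter Q).card : ℝ) * (N / ℓ ^ 8) ^ 2 ≤ ∑ b ∈ I, ‖D b‖ ^ 2 := by
    calc ((I.filter Q).card : ℝ) * (N / ℓ ^ 8) ^ 2 = ∑ b ∈ I.filter Q, (N / ℓ ^ 8) ^ 2 := by
          rw [Finset.sum_const, nsmul_eq_mul]
      _ ≤ ∑ b ∈ I.filter Q, ‖D b‖ ^ 2 := by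
          refine Finset.sum_le_sum fun b hb => ?_
          rw [Finset.mem_filter] at hb
          exact pow_le_pow_left₀ (by positivity) (h1 b hb.1 hb.2) 2
      _ ≤ ∑ b ∈ I, ‖D b‖ ^ 2 :=
          Finset.sum_le_sum_of_subset_of_nonneg (Finset.filter_subset _ _) fun _ _ _ => by positivity
  have h4 : ℓ ^ (-(A + 20)) = ℓ ^ (-A) * (ℓ ^ 20)⁻¹ := by
    rw [neg_add, Real.rpow_add hl0, Real.rpow_neg hl0.le 20]
    norm_num
  have hlA : 0 < ℓ ^ (-A) := Real.rpow_pos_of_pos hl0 _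
  have h5 := h3.trans h2
  rw [h4] at h5
  have h6 : ((I.filter Q).card : ℝ) * ℓ ^ 4 ≤ 20 * (B * ℓ ^ (-A)) := by
    have e1 : ((I.filter Q).card : ℝ) * ℓ ^ 4 * (N ^ 2 / ℓ ^ 20) =
        ((I.filter Q).card : ℝ) * (N / ℓ ^ 8) ^ 2 := by
      field_simp
    have e2 : 20 * (B * ℓ ^ (-A)) * (N ^ 2 / ℓ ^ 20) = 20 * (ℓ ^ (-A) * (ℓ ^ 20)⁻¹) * B * N ^ 2 := by
      field_simp
    have h7 : 0 < N ^ 2 / ℓ ^ 20 := by positivity
    refine le_of_mul_le_mul_right ?_ h7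
    rw [e1, e2]
    exact h5
  have h8 : (20 : ℝ) ≤ ℓ ^ 4 := by
    calc (20 : ℝ) ≤ 20 ^ 4 := by norm_num
      _ ≤ ℓ ^ 4 := pow_le_pow_left₀ (by norm_num) hl 4
  have h9 : (0 : ℝ) ≤ ((I.filter Q).card : ℝ) := Nat.cast_nonneg _
  have h10 : 0 ≤ B * ℓ ^ (-A) := by positivity
  nlinarith

lemma one_le_pr {r : ℕ} {e : Fin r → ℝ} (h : ∀ i, 2 ≤ e i) (s : Finset (Fin r)) : 1 ≤ ∏ i ∈ s, (2 * e i) := by
  calc (1 : ℝ) = ∏ i ∈ s, (1 : ℝ) := by rw [Finset.prod_const_one]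
    _ ≤ ∏ i ∈ s, (2 * e i) := Finset.prod_le_prod (fun _ _ => zero_le_one) fun i _ => by
        have := h i
        linarith

lemma le_pr {r : ℕ} {e : Fin r → ℝ} (h : ∀ i, 2 ≤ e i) (i : Fin r) : e i ≤ ∏ j, (2 * e j) := by
  rw [← Finset.mul_prod_erase Finset.univ (fun j => 2 * e j) (Finset.mem_univ i)]
  have h1 := one_le_pr h (Finset.univ.erase i)
  have h2 := h i
  nlinarith

/-- the factors of the small primes are not too small -/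
lemma lowprod {r : ℕ} {e : Fin r → ℝ} {L ℓ : ℝ} (h2 : ∀ i, 2 ≤ e i) (hle : ∀ i, Real.log (e i) ≤ L) (hL : 0 < L)
    (hr : (L / Real.log 2) ^ r ≤ ℓ) : 1 / ℓ ≤ ∏ i, (Real.log 2 / Real.log (e i)) := by
  have hl2 : 0 < Real.log 2 := Real.log_pos (by norm_num)
  have h0 : 0 < (L / Real.log 2) ^ r := by positivity
  calc 1 / ℓ ≤ 1 / (L / Real.log 2) ^ r := one_div_le_one_div_of_le h0 hr
    _ = (Real.log 2 / L) ^ r := by
        rw [one_div, ← inv_pow, inv_div]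
    _ = ∏ _i : Fin r, (Real.log 2 / L) := by
        rw [Finset.prod_const, Finset.card_univ, Fintype.card_fin]
    _ ≤ ∏ i, (Real.log 2 / Real.log (e i)) := by
        refine Finset.prod_le_prod (fun _ _ => by positivity) fun i _ => ?_
        have h3 : 0 < Real.log (e i) := Real.log_pos (by linarith [h2 i])
        exact div_le_div_of_nonneg_left hl2.le h3 (hle i)

/-- the lower bound for the main term -/
lemma low {ε₁ ℓ N M₁ m₁ pr M : ℝ} (h0 : 0 < ε₁) (h1 : ε₁ ≤ 1 / 2) (hl : 20 ≤ ℓ) (hle : 1 / ε₁ ≤ ℓ) (hN : 0 < N)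
    (hg : N / ℓ ^ 5 ≤ M₁) (hc : |M₁ - m₁| ≤ ε₁ * m₁) (hp : 1 / ℓ ≤ pr)
    (hC : |M - m₁ * pr| ≤ ε₁ * (m₁ * pr)) : N / ℓ ^ 8 ≤ ε₁ * M := by
  have hl0 : 0 < ℓ := by linarith
  have a1 := (abs_le.1 hc).2
  have hm0 : 0 ≤ m₁ := nonneg_of_mul_nonneg_right ((abs_nonneg _).trans hc) h0
  have a2 : N / (2 * ℓ ^ 5) ≤ m₁ := by
    have e : N / (2 * ℓ ^ 5) = N / ℓ ^ 5 / 2 := by
      field_simp
    rw [e]
    nlinarith
  have a3 : N / (2 * ℓ ^ 6) ≤ m₁ * pr := by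
    have e : N / (2 * ℓ ^ 6) = N / (2 * ℓ ^ 5) * (1 / ℓ) := by
      field_simp
    rw [e]
    exact mul_le_mul a2 hp (by positivity) hm0
  have a4 := (abs_le.1 hC).1
  have a5 : N / (4 * ℓ ^ 6) ≤ M := by
    have e : N / (4 * ℓ ^ 6) = N / (2 * ℓ ^ 6) / 2 := by
      field_simp
      norm_num
    rw [e]
    have h3 : 0 ≤ m₁ * pr := le_trans (by positivity) a3
    nlinarith
  refine le_trans ?_ (mul_le_mul_of_nonneg_left a5 h0.le)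
  rw [div_le_iff₀ (by positivity)]
  have e : ε₁ * (N / (4 * ℓ ^ 6)) * ℓ ^ 8 = N * (ε₁ * ℓ * ℓ / 4) := by
    field_simp
  rw [e]
  have h3 : 1 ≤ ε₁ * ℓ := by
    rw [div_le_iff₀ h0] at hle
    linarith
  have h4 : 1 ≤ ε₁ * ℓ * ℓ / 4 := by nlinarith
  nlinarith

/-- the sizes, all in terms of the parameters -/
lemma nums {δ cP cT cB N T P B : ℝ} (ch cw : ℝ) (hb : Box δ cP cT cB N T P B) (hN : 8 ≤ N)
    (hl : 20 ≤ Real.log N) (hδ : δ ≤ 1 / 100) (hcP : 1 ≤ cP) (hcT : 1 ≤ cT) (hcw : 2 ≤ cw)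
    (hL : Real.log N ^ (4 * cP + 1) ≤ N ^ (1 / 20 : ℝ)) :
    (Real.log N ^ 2 ≤ (par N T P ch cw).w ∧ Real.log N ≤ (par N T P ch cw).w ∧ Real.log N ≤ (par N T P ch cw).P ∧
      Real.log N ≤ (par N T P ch cw).K ∧ Real.log N ≤ (par N T P ch cw).M2 ∧ N ^ (1 / 10 : ℝ) ≤ (par N T P ch cw).K) ∧
    (2 ≤ (par N T P ch cw).P ∧ 0 < (par N T P ch cw).T ∧ 1 ≤ (par N T P ch cw).K ∧
      (par N T P ch cw).P ^ 2 < (par N T P ch cw).K) ∧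
    (2 * (par N T P ch cw).P * (par N T P ch cw).P ≤ (par N T P ch cw).K ∧
      2 * (par N T P ch cw).K ≤ (par N T P ch cw).M2 ∧ 0 ≤ (par N T P ch cw).h ∧
      8 * (par N T P ch cw).K * (par N T P ch cw).P * (par N T P ch cw).M2 = (par N T P ch cw).N ^ 2 ∧
      2 * (par N T P ch cw).M2 ≤ (par N T P ch cw).N * (par N T P ch cw).T) := by
  have hN1 : 1 < N := by linarith
  have hN0 : 0 < N := by linarith
  obtain ⟨⟨s1, s2, s3, s4, s5⟩, g1, g2, g3, g4⟩ := X3.ONEM.sizes ch cw hb hN1 hl hδ hcP hcT hL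
  obtain ⟨P1, P2, -, -, -, -⟩ := hb
  obtain ⟨ℓ, hℓ⟩ : ∃ ℓ, ℓ = Real.log N := ⟨_, rfl⟩
  rw [← hℓ] at P1 P2 s1 s3 hL hl ⊢
  change 2 * P ≤ N ^ (1 / 10 : ℝ) at s2
  change N ^ (1 / 10 : ℝ) * ℓ ^ (cP / 2) ≤ N / T at s3
  change 2 * (N / T) ≤ N at s4
  change N ≤ N * T / (8 * P) at s5
  change 2 ≤ P at g1
  change 0 < T at g2
  have hl0 : 0 < ℓ := by linarith
  have hl1 : 1 ≤ ℓ := by linarith
  have hPp : 0 < P := by linarith
  have hPℓ : ℓ ≤ P := by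
    calc ℓ = ℓ ^ (1 : ℝ) := (Real.rpow_one _).symm
      _ ≤ ℓ ^ cP := Real.rpow_le_rpow_of_exponent_le hl1 hcP
      _ ≤ P := P1
  have hw1 : ℓ ^ 2 ≤ (par N T P ch cw).w := by
    change ℓ ^ 2 ≤ Real.log N ^ cw
    rw [← hℓ, ← Real.rpow_natCast ℓ 2]
    apply Real.rpow_le_rpow_of_exponent_le hl1
    push_cast
    exact hcw
  have hll : ℓ ≤ ℓ ^ 2 := by nlinarith
  have hlN : ℓ ≤ N ^ (1 / 10 : ℝ) := by linarith
  have hKg : N ^ (1 / 10 : ℝ) ≤ N / T := by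
    refine le_trans ?_ s3
    have h1 : (1 : ℝ) ≤ ℓ ^ (cP / 2) := Real.one_le_rpow hl1 (by linarith)
    exact le_mul_of_one_le_right (Real.rpow_nonneg hN0.le _) h1
  have hNl' : ℓ ≤ N := by
    rw [hℓ]
    have := Real.log_le_sub_one_of_pos hN0
    linarith
  refine ⟨⟨hw1, hll.trans hw1, hPℓ, hlN.trans hKg, hNl'.trans s5, hKg⟩, ⟨g1, g2, g3, g4⟩, ?_, ?_, ?_, ?_, ?_⟩
  · change 2 * P * P ≤ N / T
    refine le_trans ?_ hKg
    have h1 : ℓ * (ℓ ^ (2 * cP) * ℓ ^ (2 * cP)) = ℓ ^ (4 * cP + 1) := by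
      rw [← Real.rpow_add hl0, Real.rpow_add hl0 (4 * cP) 1, Real.rpow_one, mul_comm]
      congr 2
      ring
    have h2 : N ^ (1 / 20 : ℝ) ≤ N ^ (1 / 10 : ℝ) := Real.rpow_le_rpow_of_exponent_le hN1.le (by norm_num)
    refine le_trans ?_ (hL.trans h2)
    rw [← h1, mul_assoc]
    exact mul_le_mul (by linarith) (mul_le_mul P2 P2 hPp.le (Real.rpow_nonneg hl0.le _)) (by positivity) hl0.le
  · change 2 * (N / T) ≤ N * T / (8 * P)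
    exact s4.trans s5
  · change 0 ≤ Real.log N ^ ch
    rw [← hℓ]
    exact Real.rpow_nonneg hl0.le _
  · change 8 * (N / T) * P * (N * T / (8 * P)) = N ^ 2
    field_simp
  · change 2 * (N * T / (8 * P)) ≤ N * T
    rw [← mul_div_assoc, div_le_iff₀ (by positivity)]
    have h1 : 0 < N * T := by positivity
    nlinarith

/-- the outer factors: sizes -/
lemma outer {r : ℕ} {e : Fin r → ℝ} {cP C₀ x₁ ℓ P K : ℝ} (hl : 20 ≤ ℓ) (hcP : 1 ≤ cP) (hC : 1 ≤ C₀)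
    (hEB : EB (ℓ ^ C₀) e) (hE4 : (∏ i, (2 * e i)) ^ 4 ≤ P) (hP2 : P ≤ ℓ ^ (2 * cP)) (hPp : 0 < P)
    (hR1 : (2 * cP * Real.log ℓ / Real.log 2) ^ r ≤ ℓ) (hR2 : |x₁| * (2 * cP * Real.log ℓ) ≤ ℓ / 10)
    (hK : ℓ / 10 ≤ Real.log K) (hx : x₁ ≤ ℓ) :
    ∏ i, (2 * e i) ≤ P ∧ ∏ i, (2 * e i) ≤ ℓ ^ (cP / 2) ∧ EB 2 e ∧ EB x₁ e ∧
      1 / ℓ ≤ ∏ i, (Real.log 2 / Real.log (e i)) ∧ x₁ * Real.log (∏ i, (2 * e i)) ≤ Real.log K := by
  have hl0 : 0 < ℓ := by linarith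
  have hl1 : 1 ≤ ℓ := by linarith
  have hpr1 : 1 ≤ ∏ i, (2 * e i) := one_le_pr hEB.one _
  have hprP : ∏ i, (2 * e i) ≤ P := (le_self_pow₀ hpr1 (by norm_num)).trans hE4
  have hlC : ℓ ≤ ℓ ^ C₀ := by
    calc ℓ = ℓ ^ (1 : ℝ) := (Real.rpow_one _).symm
      _ ≤ ℓ ^ C₀ := Real.rpow_le_rpow_of_exponent_le hl1 hC
  have hlogP : Real.log P ≤ 2 * cP * Real.log ℓ := by
    have := Real.log_le_log hPp hP2
    rwa [Real.log_rpow hl0] at this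
  have hll : 0 < Real.log ℓ := Real.log_pos (by linarith)
  refine ⟨hprP, ?_, ⟨hEB.one, hEB.one, hEB.dj⟩, ⟨hEB.one, fun i => hx.trans (hlC.trans (hEB.lo i)), hEB.dj⟩, ?_, ?_⟩
  · have h1 : (∏ i, (2 * e i)) ^ 4 ≤ (ℓ ^ (cP / 2)) ^ 4 := by
      refine hE4.trans (hP2.trans (le_of_eq ?_))
      rw [← Real.rpow_natCast (ℓ ^ (cP / 2)) 4, ← Real.rpow_mul hl0.le]
      congr 1
      push_cast
      ring
    exact le_of_pow_le_pow_left₀ (by norm_num) (Real.rpow_nonneg hl0.le _) h1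
  · refine lowprod hEB.one (fun i => ?_) (by positivity : 0 < 2 * cP * Real.log ℓ) hR1
    have h1 : 0 < e i := by linarith [hEB.one i]
    exact (Real.log_le_log h1 ((le_pr hEB.one i).trans hprP)).trans hlogP
  · have h1 : Real.log (∏ i, (2 * e i)) ≤ 2 * cP * Real.log ℓ :=
      (Real.log_le_log (by linarith) hprP).trans hlogP
    have h2 : 0 ≤ Real.log (∏ i, (2 * e i)) := Real.log_nonneg hpr1
    calc x₁ * Real.log (∏ i, (2 * e i)) ≤ |x₁| * Real.log (∏ i, (2 * e i)) :=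
          mul_le_mul_of_nonneg_right (le_abs_self _) h2
      _ ≤ |x₁| * (2 * cP * Real.log ℓ) := mul_le_mul_of_nonneg_left h1 (abs_nonneg _)
      _ ≤ ℓ / 10 := hR2
      _ ≤ _ := hK

/-- the line -/
lemma bfacts {N B ℓ w : ℝ} {b : ℕ} (hN : 8 ≤ N) (hℓ : ℓ = Real.log N) (hB0 : 0 < B) (hBN : B ^ 2 ≤ 2 * N)
    (hb : b ∈ Ioc ⌊B⌋₊ ⌊2 * B⌋₊) (hw : ℓ ^ 2 ≤ w) :
    B < b ∧ (b : ℝ) ≤ 2 * B ∧ 1 ≤ b ∧ Real.log b ^ 2 ≤ w := by
  rw [Finset.mem_Ioc] at hb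
  have hbB : B < b := (Nat.floor_lt hB0.le).1 hb.1
  have hbB2 : (b : ℝ) ≤ 2 * B := (Nat.le_floor_iff (by linarith)).1 hb.2
  have hb0 : (0 : ℝ) < b := by linarith
  have hb1 : 1 ≤ b := by exact_mod_cast hb0
  have hbN : (b : ℝ) ≤ N := by
    have h1 : (b : ℝ) ^ 2 ≤ 8 * N := by nlinarith
    have h2 : 8 * N ≤ N ^ 2 := by nlinarith
    exact le_of_sq_le_sq (h1.trans h2) (by linarith)
  refine ⟨hbB, hbB2, hb1, le_trans ?_ hw⟩
  have h1 : Real.log b ≤ ℓ := by rw [hℓ]; exact Real.log_le_log hb0 hbN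
  have h2 : 0 ≤ Real.log b := Real.log_nonneg (by exact_mod_cast hb1)
  exact pow_le_pow_left₀ h2 h1 2

/-- one good `b` -/
lemma atb {r : ℕ} {ε ε₁ ℓ : ℝ} {p : Par} {U : Finset Ix} {b : ℕ} {h : ℝ} {e : Fin r → ℝ}
    (he0 : 0 < ε₁) (he2 : ε₁ ≤ 1 / 2) (he5 : 5 * ε₁ ≤ ε) (hl : 20 ≤ ℓ) (hle : 1 / ε₁ ≤ ℓ) (hN : 0 < p.N)
    (hFM : ∀ y ∈ YY e, ‖sy p y b (Kap p U) - (MM p y b : ℂ)‖ ≤ ε₁ * MM p y b)
    (hMM5 : p.N / ℓ ^ 5 ≤ MM p 1 b)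
    (hC : |MM p 1 b - mt h p.P p.K p.M2| ≤ ε₁ * mt h p.P p.K p.M2)
    (hCK : |∑ y ∈ YY e, MM p y b - mtk e h p.P p.K p.M2| ≤ ε₁ * mtk e h p.P p.K p.M2)
    (hE : ∑ y ∈ YY e, sy p y b (Eta p) = (WK e b p.P p.K p.M2 : ℂ))
    (hlow : 1 / ℓ ≤ ∏ i, (Real.log 2 / Real.log (e i)))
    (hno : ‖∑ y ∈ YY e, sy p y b (fun z => Eta p z - Kap p U z)‖ ≤ p.N / ℓ ^ 8) :
    |(WK e b p.P p.K p.M2 : ℝ) - mtk e h p.P p.K p.M2| ≤ ε * mtk e h p.P p.K p.M2 := by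
  have hsub : ∑ y ∈ YY e, sy p y b (fun z => Eta p z - Kap p U z) =
      ∑ y ∈ YY e, sy p y b (Eta p) - ∑ y ∈ YY e, sy p y b (Kap p U) := by
    rw [← Finset.sum_sub_distrib]
    exact Finset.sum_congr rfl fun y _ => X3.ONEM.sy_sub _ _ _ _ _
  rw [hsub] at hno
  have hFM' : ‖∑ y ∈ YY e, sy p y b (Kap p U) - ((∑ y ∈ YY e, MM p y b : ℝ) : ℂ)‖ ≤
      ε₁ * ∑ y ∈ YY e, MM p y b := by
    rw [Complex.ofReal_sum, ← Finset.sum_sub_distrib, Finset.mul_sum]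
    exact norm_sum_le_of_le _ hFM
  have ht : p.N / ℓ ^ 8 ≤ ε₁ * ∑ y ∈ YY e, MM p y b :=
    low he0 he2 hl hle hN hMM5 hC hlow hCK
  have hW : ∑ y ∈ YY e, sy p y b (Eta p) = ((WK e b p.P p.K p.M2 : ℝ) : ℂ) := by
    rw [hE]
    push_cast
    rfl
  exact ONAM.good (W := (WK e b p.P p.K p.M2 : ℝ)) he0 (by linarith) he5 hW hno ht hFM' hCK

lemma evR1 (cP : ℝ) (hcP : 0 < cP) (r : ℕ) :
    ∀ᶠ N : ℝ in atTop, (2 * cP * Real.log (Real.log N) / Real.log 2) ^ r ≤ Real.log N := by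
  have hl2 : 0 < Real.log 2 := Real.log_pos (by norm_num)
  have hc : 0 < (2 * cP / Real.log 2) ^ r := by positivity
  have h := (Real.isLittleO_pow_log_id_atTop (n := r)).bound (c := 1 / (2 * cP / Real.log 2) ^ r) (by positivity)
  have h' : ∀ᶠ x : ℝ in atTop, (2 * cP * Real.log x / Real.log 2) ^ r ≤ x := by
    filter_upwards [h, eventually_ge_atTop 1] with x h1 h2
    rw [Real.norm_of_nonneg (pow_nonneg (Real.log_nonneg h2) _), id, Real.norm_of_nonneg (by linarith),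
      one_div, ← div_eq_inv_mul, le_div_iff₀ hc] at h1
    have e : (2 * cP * Real.log x / Real.log 2) ^ r = Real.log x ^ r * (2 * cP / Real.log 2) ^ r := by
      rw [← mul_pow]
      congr 1
      ring
    rw [e]
    exact h1
  exact Real.tendsto_log_atTop.eventually h'

lemma evR2 (cP x₁ : ℝ) (hcP : 0 < cP) :
    ∀ᶠ N : ℝ in atTop, |x₁| * (2 * cP * Real.log (Real.log N)) ≤ Real.log N / 10 := by
  have hc : 0 < 20 * cP * |x₁| + 1 := by positivity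
  have h := (Real.isLittleO_pow_log_id_atTop (n := 1)).bound (c := 1 / (20 * cP * |x₁| + 1)) (by positivity)
  have h' : ∀ᶠ x : ℝ in atTop, |x₁| * (2 * cP * Real.log x) ≤ x / 10 := by
    filter_upwards [h, eventually_ge_atTop 1] with x h1 h2
    have h3 := Real.log_nonneg h2
    rw [pow_one, Real.norm_of_nonneg h3, id, Real.norm_of_nonneg (by linarith),
      one_div, ← div_eq_inv_mul, le_div_iff₀ hc] at h1
    nlinarith
  exact Real.tendsto_log_atTop.eventually h'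

lemma evL (cP : ℝ) : ∀ᶠ N : ℝ in atTop, Real.log N ^ (4 * cP + 1) ≤ N ^ (1 / 20 : ℝ) := by
  have h := (isLittleO_log_rpow_rpow_atTop (4 * cP + 1) (by norm_num : (0 : ℝ) < 1 / 20)).bound
    (by norm_num : (0 : ℝ) < 1)
  filter_upwards [h, eventually_ge_atTop 1] with N h1 h2
  rw [one_mul, Real.norm_of_nonneg (Real.rpow_nonneg (Real.log_nonneg h2) _),
    Real.norm_of_nonneg (Real.rpow_nonneg (by linarith) _)] at h1
  exact h1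

/-- the algebra of the variance -/
lemma valg {K N T V ℓA B : ℝ} (hK : K = N / T) (hT : 0 < T) (hV : V ≤ ℓA * (B * K * T ^ 2)) (hK0 : 0 ≤ K) :
    20 * K * V ≤ 20 * ℓA * B * N ^ 2 := by
  refine (mul_le_mul_of_nonneg_left hV (by linarith)).trans (le_of_eq ?_)
  rw [hK]
  field_simp

open scoped Classical in
/-- one range of `P` -/
lemma oneP (hVAR : SpecVAR) (hFMA : SpecFMA) (hGSZ : SpecGSZ) (hYYP : SpecYYP) (hCNK : SpecCNK) (hCVM : SpecCVM)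
    (hCVK : SpecCVK) (hCSX : SpecCSX) (r : ℕ)
    (ε A : ℝ) (hε : 0 < ε) (hA : 0 < A) : ∃ C₀ δ : ℝ, 1 ≤ C₀ ∧ 0 < δ ∧ ∀ cP : ℝ, C₀ ≤ cP → ∃ D : ℝ, ∀ᶠ N : ℝ in atTop,
    ∀ (T P B : ℝ) (e : Fin r → ℝ), Real.log N ^ cP ≤ P → P ≤ Real.log N ^ (2 * cP) → P * Real.log N ^ D ≤ T → T ≤ N ^ δ →
    EB (Real.log N ^ C₀) e → (∏ i, (2 * e i)) ^ 4 ≤ P →
    T * P * Real.log N ^ D ≤ B → B ^ 2 ≤ 2 * N →
      (((Ioc ⌊B⌋₊ ⌊2 * B⌋₊).filter (fun b => Bad ε N T P e b)).card : ℝ) ≤ B * Real.log N ^ (-A) := by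
  obtain ⟨ε₁, hε₁⟩ : ∃ ε₁, ε₁ = min (ε / 5) (1 / 2) := ⟨_, rfl⟩
  have he0 : 0 < ε₁ := by rw [hε₁]; exact lt_min (by positivity) (by norm_num)
  have he2 : ε₁ ≤ 1 / 2 := by rw [hε₁]; exact min_le_right _ _
  have he5 : 5 * ε₁ ≤ ε := by
    have : ε₁ ≤ ε / 5 := by rw [hε₁]; exact min_le_left _ _
    linarith
  obtain ⟨cw, aU, aQ, aF, ch1, hcw1, hcw, haU, haQ, haF, hch1, δ1, hδ1, hV⟩ := hVAR (A + 20) (by linarith)
  have hcw2 : 2 ≤ cw := by linarith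
  obtain ⟨cG, hcG, hG⟩ := hGSZ
  obtain ⟨ch2, δ2, hδ2, hM⟩ := ((hFMA ε₁ he0).and hG) cw aU aQ aF hcw1 hcw haU haQ haF
  obtain ⟨x₀, hx₀⟩ := hCVM ε₁ he0
  obtain ⟨x₁, hx₁⟩ := hCVK r ε₁ he0
  obtain ⟨ch, hch⟩ : ∃ ch, ch = max ch1 ch2 := ⟨_, rfl⟩
  obtain ⟨δ, hδ⟩ : ∃ δ, δ = min (min δ1 δ2) (1 / 100) := ⟨_, rfl⟩
  have hδ0 : 0 < δ := by rw [hδ]; exact lt_min (lt_min hδ1 hδ2) (by norm_num)
  have hδa : δ ≤ δ1 := by rw [hδ]; exact (min_le_left _ _).trans (min_le_left _ _)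
  have hδb : δ ≤ δ2 := by rw [hδ]; exact (min_le_left _ _).trans (min_le_right _ _)
  have hδc : δ ≤ 1 / 100 := by rw [hδ]; exact min_le_right _ _
  obtain ⟨cP1, hV⟩ := hV ch (by rw [hch]; exact le_max_left _ _) δ hδ0 hδa
  obtain ⟨cP2, hM⟩ := hM ch (by rw [hch]; exact le_max_right _ _) δ hδ0 hδb
  obtain ⟨C₀, hC₀⟩ : ∃ C₀, C₀ = max (max (max cP1 cP2) 2) (max cw aQ) := ⟨_, rfl⟩
  have hC1 : cP1 ≤ C₀ := by
    rw [hC₀]; exact ((le_max_left _ _).trans (le_max_left _ _)).trans (le_max_left _ _)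
  have hC2 : cP2 ≤ C₀ := by
    rw [hC₀]; exact ((le_max_right _ _).trans (le_max_left _ _)).trans (le_max_left _ _)
  have hC3 : 2 ≤ C₀ := by rw [hC₀]; exact (le_max_right _ _).trans (le_max_left _ _)
  have hC4 : cw ≤ C₀ := by rw [hC₀]; exact (le_max_left _ _).trans (le_max_right _ _)
  have hC5 : aQ ≤ C₀ := by rw [hC₀]; exact (le_max_right _ _).trans (le_max_right _ _)
  have hC6 : 1 ≤ C₀ := (by norm_num : (1 : ℝ) ≤ 2).trans hC3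
  refine ⟨C₀, δ, hC6, hδ0, ?_⟩
  intro cP hcP
  have hcP1 : cP1 ≤ cP := hC1.trans hcP
  have hcP2 : cP2 ≤ cP := hC2.trans hcP
  have hcP4 : 1 ≤ cP := hC6.trans hcP
  have hcP5 : 0 < cP := lt_of_lt_of_le one_pos hcP4
  obtain ⟨cT1, hV⟩ := hV cP hcP1
  obtain ⟨cT2, hM⟩ := hM cP hcP2
  obtain ⟨cT, hcT⟩ : ∃ cT, cT = max (max cT1 cT2) 1 := ⟨_, rfl⟩
  have hcT1 : cT1 ≤ cT := by rw [hcT]; exact (le_max_left _ _).trans (le_max_left _ _)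
  have hcT2 : cT2 ≤ cT := by rw [hcT]; exact (le_max_right _ _).trans (le_max_left _ _)
  have hcT3 : 1 ≤ cT := by rw [hcT]; exact le_max_right _ _
  obtain ⟨cB1, hV⟩ := hV cT hcT1
  obtain ⟨cB2, hM⟩ := hM cT hcT2
  obtain ⟨cB, hcB⟩ : ∃ cB, cB = max (max cB1 cB2) 0 := ⟨_, rfl⟩
  have hcB1 : cB1 ≤ cB := by rw [hcB]; exact (le_max_left _ _).trans (le_max_left _ _)
  have hcB2 : cB2 ≤ cB := by rw [hcB]; exact (le_max_right _ _).trans (le_max_left _ _)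
  have hV := hV cB hcB1
  have hM := hM cB hcB2
  refine ⟨max cT cB, ?_⟩
  have hlog : ∀ᶠ N : ℝ in atTop, max (max 20 (1 / ε₁)) (max x₀ x₁) ≤ Real.log N :=
    Real.tendsto_log_atTop.eventually (eventually_ge_atTop _)
  filter_upwards [hV, hM, hlog, evL cP, evR1 cP hcP5 r, evR2 cP x₁ hcP5, eventually_ge_atTop 8] with
    N hV hM hl hL hR1 hR2 hN8 T P B e hP1 hP2 hT1 hT2 hEB hE4 hB1 hBN
  clear hVAR hFMA hG hδ hch hC₀ hcT hcB hε₁ hcG hδ1 hδ2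
  have hN0 : 0 < N := lt_of_lt_of_le (by norm_num) hN8
  have hl20 : 20 ≤ Real.log N := ((le_max_left _ _).trans (le_max_left _ _)).trans hl
  have hlε : 1 / ε₁ ≤ Real.log N := ((le_max_right _ _).trans (le_max_left _ _)).trans hl
  have hlx : x₀ ≤ Real.log N := ((le_max_left _ _).trans (le_max_right _ _)).trans hl
  have hlx1 : x₁ ≤ Real.log N := ((le_max_right _ _).trans (le_max_right _ _)).trans hl
  have hl0 : 0 < Real.log N := lt_of_lt_of_le (by norm_num) hl20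
  have hl1 : 1 ≤ Real.log N := (by norm_num : (1 : ℝ) ≤ 20).trans hl20
  have hPp : 0 < P := lt_of_lt_of_le (Real.rpow_pos_of_pos hl0 _) hP1
  have hT1' : P * Real.log N ^ cT ≤ T :=
    (mul_le_mul_of_nonneg_left (Real.rpow_le_rpow_of_exponent_le hl1 (le_max_left _ _)) hPp.le).trans hT1
  have hTp : 0 < T := lt_of_lt_of_le (mul_pos hPp (Real.rpow_pos_of_pos hl0 _)) hT1'
  have hB1' : T * P * Real.log N ^ cB ≤ B :=
    (mul_le_mul_of_nonneg_left (Real.rpow_le_rpow_of_exponent_le hl1 (le_max_right _ _))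
      (mul_pos hTp hPp).le).trans hB1
  have hBox : Box δ cP cT cB N T P B := ⟨hP1, hP2, hT1', hT2, hB1', hBN⟩
  obtain ⟨⟨w1, w2, w3, w4, w5, w6⟩, ⟨g1, g2, g3, g4⟩, q1, q2, q3, q4, q5⟩ :=
    nums ch cw hBox hN8 hl20 hδc hcP4 hcT3 hcw2 hL
  obtain ⟨U, hU, hVar⟩ := hV T P B hBox
  have hB0 : 0 < B := lt_of_lt_of_le (mul_pos (mul_pos hTp hPp) (Real.rpow_pos_of_pos hl0 _)) hB1'
  have hlK : Real.log N / 10 ≤ Real.log (par N T P ch cw).K := by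
    have h4 := Real.log_le_log (Real.rpow_pos_of_pos hN0 _) w6
    rw [Real.log_rpow hN0] at h4
    linarith only [h4]
  obtain ⟨o1, o2, o3, o4, o5, o6⟩ := outer hl20 hcP4 hC6 hEB hE4 hP2 hPp hR1 hR2 hlK hlx1
  obtain ⟨hYOK, hYp, -⟩ := hYYP r e (Real.log N ^ C₀) P hEB o1
  refine few (D := fun b => ∑ y ∈ YY e, sy (par N T P ch cw) y b
    (fun z => Eta (par N T P ch cw) z - Kap (par N T P ch cw) U z)) hN0 hl20 hB0.le ?_ ?_
  · intro b hb hbad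
    by_contra hno
    obtain ⟨h, hh0, hh, hlt⟩ := hbad
    obtain ⟨hbB, hbB2, hb1, hlb⟩ := bfacts hN8 rfl hB0 hBN hb w1
    have hy3 : ∀ y ∈ YY e, ∀ π : Gi, Prime π → π ∣ y →
        Real.log N ^ cw < (nm π : ℝ) ∧ Real.log N ^ aQ < (nm π : ℝ) := by
      intro y hy π hπ hd
      have h4 := hYOK.rg y hy π hπ hd
      exact ⟨(Real.rpow_le_rpow_of_exponent_le hl1 hC4).trans_lt h4,
        (Real.rpow_le_rpow_of_exponent_le hl1 hC5).trans_lt h4⟩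
    have hFM : ∀ y ∈ YY e, ‖sy (par N T P ch cw) y b (Kap (par N T P ch cw) U) - (MM (par N T P ch cw) y b : ℂ)‖ ≤
        ε₁ * MM (par N T P ch cw) y b := fun y hy =>
      (hM T P B U b y ⟨hBox, hU, hbB, hbB2, (hYp y hy).1, (hYp y hy).2.trans o2, hy3 y hy⟩).1
    have hone : ((nm (1 : Gi) : ℕ) : ℝ) ≤ Real.log N ^ (cP / 2) := by
      rw [ONAM.nm_one', Nat.cast_one]
      exact Real.one_le_rpow hl1 (by positivity)
    have hMM5 := (hM T P B U b 1 ⟨hBox, hU, hbB, hbB2, ONAM.prim_one, hone, fun π hπ hd =>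
      absurd (isUnit_of_dvd_one hd) hπ.not_unit⟩).2.2.2 rfl
    have hC := hx₀ (par N T P ch cw) b h (hlx.trans w2) (hlx.trans w3) (hlx.trans w4) (hlx.trans w5) hb1 hlb hh hh0
    have hCK := hx₁ e (par N T P ch cw) b h (hlx1.trans w2) (hlx1.trans w3) (hlx1.trans w4) (hlx1.trans w5)
      o4 o6 hb1 hlb hh hh0
    have hE := hCNK r e (par N T P ch cw) b hb1 hN0 g2 g1 o3 o1 q1 q2 q3 q4 q5
    have hfin := atb he0 he2 he5 hl20 hlε hN0 hFM hMM5 hC hCK hE o5 (not_le.1 hno).le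
    exact absurd hfin (not_le.2 hlt)
  · exact (hCSX r (par N T P ch cw) (YY e) (Real.log N ^ C₀) B
      (fun z => Eta (par N T P ch cw) z - Kap (par N T P ch cw) U z) g1 g2 g3 g4 hYOK).trans
      (valg rfl hTp hVar (zero_le_one.trans g3))

open scoped Classical in
/-- all the ranges of `P` -/
lemma ranges {r : ℕ} {ε A C₀ δ : ℝ} (hC : 1 ≤ C₀) (h : ∀ cP : ℝ, C₀ ≤ cP → ∃ D : ℝ, ∀ᶠ N : ℝ in atTop,
    ∀ (T P B : ℝ) (e : Fin r → ℝ), Real.log N ^ cP ≤ P → P ≤ Real.log N ^ (2 * cP) → P * Real.log N ^ D ≤ T → T ≤ N ^ δ →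
    EB (Real.log N ^ C₀) e → (∏ i, (2 * e i)) ^ 4 ≤ P →
    T * P * Real.log N ^ D ≤ B → B ^ 2 ≤ 2 * N →
      (((Ioc ⌊B⌋₊ ⌊2 * B⌋₊).filter (fun b => Bad ε N T P e b)).card : ℝ) ≤ B * Real.log N ^ (-A)) (m : ℕ) :
    ∃ D : ℝ, ∀ᶠ N : ℝ in atTop,
    ∀ (T P B : ℝ) (e : Fin r → ℝ), Real.log N ^ C₀ ≤ P → P ≤ Real.log N ^ (2 ^ m * C₀) → P * Real.log N ^ D ≤ T →
    T ≤ N ^ δ → EB (Real.log N ^ C₀) e → (∏ i, (2 * e i)) ^ 4 ≤ P →
    T * P * Real.log N ^ D ≤ B → B ^ 2 ≤ 2 * N →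
      (((Ioc ⌊B⌋₊ ⌊2 * B⌋₊).filter (fun b => Bad ε N T P e b)).card : ℝ) ≤ B * Real.log N ^ (-A) := by
  have hlog : ∀ᶠ N : ℝ in atTop, 1 ≤ Real.log N :=
    Real.tendsto_log_atTop.eventually (eventually_ge_atTop _)
  induction m with
  | zero =>
    obtain ⟨D, hD⟩ := h C₀ le_rfl
    refine ⟨D, ?_⟩
    filter_upwards [hD, hlog] with N hN hl T P B e h1 h2 h3 h4 h7 h8 h5 h6
    refine hN T P B e h1 (h2.trans ?_) h3 h4 h7 h8 h5 h6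
    apply Real.rpow_le_rpow_of_exponent_le hl
    simp only [pow_zero, one_mul]
    linarith
  | succ m ih =>
    obtain ⟨D₁, hD₁⟩ := ih
    obtain ⟨D₂, hD₂⟩ := h (2 ^ m * C₀) (by
      have : (1 : ℝ) ≤ 2 ^ m := one_le_pow₀ (by norm_num)
      nlinarith)
    refine ⟨max D₁ D₂, ?_⟩
    filter_upwards [hD₁, hD₂, hlog] with N hN₁ hN₂ hl T P B e h1 h2 h3 h4 h7 h8 h5 h6
    have hl0 : 0 < Real.log N := by linarith
    have hP : 0 < P := lt_of_lt_of_le (Real.rpow_pos_of_pos hl0 _) h1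
    have hT : 0 < T := lt_of_lt_of_le (mul_pos hP (Real.rpow_pos_of_pos hl0 _)) h3
    have k : ∀ D : ℝ, D ≤ max D₁ D₂ → P * Real.log N ^ D ≤ T ∧ T * P * Real.log N ^ D ≤ B := by
      intro D hD
      have h7 := Real.rpow_le_rpow_of_exponent_le hl hD
      exact ⟨(mul_le_mul_of_nonneg_left h7 hP.le).trans h3,
        (mul_le_mul_of_nonneg_left h7 (mul_pos hT hP).le).trans h5⟩
    by_cases hc : P ≤ Real.log N ^ (2 ^ m * C₀)
    · obtain ⟨k1, k2⟩ := k D₁ (le_max_left _ _)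
      exact hN₁ T P B e h1 hc k1 h4 h7 h8 k2 h6
    · obtain ⟨k1, k2⟩ := k D₂ (le_max_right _ _)
      refine hN₂ T P B e (not_le.1 hc).le (h2.trans (le_of_eq ?_)) k1 h4 h7 h8 k2 h6
      congr 1
      rw [pow_succ]
      ring

end ONKM

open ONKM in
/-- **ONK**. -/
theorem specONK (hVAR : X3.SpecVAR) (hFMA : SpecFMA) (hGSZ : SpecGSZ) (hYYP : SpecYYP) (hCNK : SpecCNK)
    (hCVM : SpecCVM) (hCVK : SpecCVK) (hCSX : X3.SpecCSX) : SpecONK := by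
  classical
  intro r ε hε A hA
  obtain ⟨C₀, δ, hC₀, hδ, h⟩ := oneP hVAR hFMA hGSZ hYYP hCNK hCVM hCVK hCSX r ε A hε hA
  refine ⟨C₀, fun C₁ => ?_⟩
  obtain ⟨m, hm⟩ : ∃ m : ℕ, C₁ ≤ 2 ^ m * C₀ := by
    obtain ⟨m, hm⟩ := pow_unbounded_of_one_lt C₁ (by norm_num : (1 : ℝ) < 2)
    refine ⟨m, hm.le.trans ?_⟩
    have : (0 : ℝ) < 2 ^ m := by positivity
    nlinarith
  obtain ⟨D, hD⟩ := ranges hC₀ h m
  refine ⟨D, δ, hδ, ?_⟩
  have hlog : ∀ᶠ N : ℝ in atTop, 1 ≤ Real.log N :=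
    Real.tendsto_log_atTop.eventually (eventually_ge_atTop _)
  filter_upwards [hD, hlog] with N hN hl T P B e hX h5 h6
  have h7 := hN T P B e hX.P1 (hX.P2.trans (Real.rpow_le_rpow_of_exponent_le hl hm)) hX.T1 hX.T2 hX.eb hX.e4 h5 h6
  unfold Bad at h7
  convert h7

end Pool.Agent.Lib.MP391708.X4
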