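import Pool.Agent.Lib.MP_391708_nt.X4.Spec

/-!
# THEOREM X4 (MP_391708), module ULL: one exceptional set for the lower bound (X3) and the asymptotic formula (X4) (helper6)
-/

set_option autoImplicit false

namespace Pool.Agent.Lib.MP391708.X4

open Finset Filter Topology
open Pool.Agent.Lib.MP391708.X3
open Pool.Agent.Lib.MP391708.XP (IsConst count Q)

namespace ULLM

open scoped Classical in
lemma count_union (E F : Set ℕ) (x : ℕ) : count (E ∪ F) x ≤ count E x + count F x := by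
  unfold count
  refine le_trans (card_le_card ?_) (card_union_le _ _)
  intro b hb
  simp only [mem_filter, mem_union, Set.mem_union] at hb ⊢
  tauto

end ULLM

/-- one exceptional set for both theorems -/
theorem both (h3 : MainX3) (h4 : MainX4) (A : ℕ) : ∃ E : Set ℕ,
    (∃ x₀ : ℕ, ∀ x : ℕ, x₀ ≤ x → (count E x : ℝ) ≤ x / (Real.log x) ^ A) ∧
    (∀ k : ℕ, 3 ≤ k → ∃ c : ℝ, 0 < c ∧ ∃ b₀ : ℕ, ∀ b : ℕ, b₀ ≤ b → b ∉ E → ∃ h : ℝ, 0 < h ∧ IsConst b h ∧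
      ∀ N : ℕ, b ^ 2 ≤ N → (N : ℝ) ≤ Real.exp ((b : ℝ) ^ c) →
        c * h * (N * Real.log b / (Real.log N) ^ 2) ≤ Q k b N) ∧
    (∀ ε : ℝ, 0 < ε → ∃ C₀ : ℝ, ∀ C₁ : ℝ, ∃ D c : ℝ, 0 < c ∧ ∃ b₀ : ℕ, ∀ b : ℕ, b₀ ≤ b → b ∉ E →
      ∃ h : ℝ, 0 < h ∧ IsConst b h ∧
        ∀ i j l : ℕ, ∀ N : ℝ, Adm C₀ C₁ D c b (2 ^ i) (2 ^ j) (2 ^ l) N →
          |(W3 b (2 ^ i) (2 ^ j) (2 ^ l) : ℝ) - mt h (2 ^ i) (2 ^ j) (2 ^ l)| ≤ ε * mt h (2 ^ i) (2 ^ j) (2 ^ l)) := by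
  obtain ⟨E₃, hc₃, hE₃⟩ := h3 (A + 1)
  obtain ⟨E₄, hc₄, hE₄⟩ := h4 (A + 1)
  refine ⟨E₃ ∪ E₄, ?_, fun k hk => ?_, fun ε hε => ?_⟩
  · have h5 : ∀ᶠ x : ℕ in atTop, 2 ≤ Real.log x :=
      (Real.tendsto_log_atTop.comp tendsto_natCast_atTop_atTop).eventually_ge_atTop 2
    refine eventually_atTop.1 ?_
    filter_upwards [hc₃, hc₄, h5] with x a3 a4 a5
    have a6 : (count (E₃ ∪ E₄) x : ℝ) ≤ count E₃ x + count E₄ x := by exact_mod_cast ULLM.count_union E₃ E₄ x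
    have hL : 0 < Real.log x := by linarith
    have hx : (0 : ℝ) ≤ x := Nat.cast_nonneg x
    calc (count (E₃ ∪ E₄) x : ℝ) ≤ x / (Real.log x) ^ (A + 1) + x / (Real.log x) ^ (A + 1) := by linarith
      _ = (x / (Real.log x) ^ A) * (2 / Real.log x) := by field_simp; ring
      _ ≤ (x / (Real.log x) ^ A) * 1 := by
          apply mul_le_mul_of_nonneg_left _ (by positivity)
          rw [div_le_one hL]; exact a5
      _ = _ := mul_one _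
  · obtain ⟨c, hc, b₀, hb⟩ := hE₃ k hk
    exact ⟨c, hc, b₀, fun b h1 h2 => hb b h1 (fun h => h2 (Or.inl h))⟩
  · obtain ⟨C₀, hC⟩ := hE₄ ε hε
    refine ⟨C₀, fun C₁ => ?_⟩
    obtain ⟨D, c, hc, b₀, hb⟩ := hC C₁
    exact ⟨D, c, hc, b₀, fun b h1 h2 => hb b h1 (fun h => h2 (Or.inr h))⟩

end Pool.Agent.Lib.MP391708.X4
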