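import Pool.Agent.Lib.MP_391708_nt.X4.SpecK
import Pool.Agent.Lib.MP_391708_nt.X4.UNA

/-!
# THEOREM X4 (MP_391708), module UNK: the union over the boxes, over `r`, `ε` and `C₁` (helper6)
-/

set_option autoImplicit false

namespace Pool.Agent.Lib.MP391708.X4

open Finset Filter Topology
open Pool.Agent.Lib.MP391708.XP (gB IsConst count)
open Pool.Agent.Lib.MP391708.XP.UNPM (count_of_blocks union_sets)
open UNAM (mt_nonneg sizeN facts sum_sq)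

namespace UNKM

/-- the box fails for `b` -/
def FlK {r : ℕ} (ε : ℝ) (b : ℕ) (e : Fin r → ℝ) (P K M : ℝ) : Prop := ∃ h : ℝ, 0 < h ∧ IsConst b h ∧
  ε * mtk e h P K M < |(WK e b P K M : ℝ) - mtk e h P K M|

/-- the exceptional set for one choice of the parameters -/
def EmK (r : ℕ) (ε C₀ C₁ D c : ℝ) : Set ℕ := {b | ∃ (m : Fin r → ℕ) (i j l : ℕ) (N : ℝ),
  AdmK C₀ C₁ D c b m (2 ^ i) (2 ^ j) (2 ^ l) N ∧ FlK ε b (fun a => (2 : ℝ) ^ m a) (2 ^ i) (2 ^ j) (2 ^ l)}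

lemma mtk_nonneg {r : ℕ} (m : Fin r → ℕ) {h : ℝ} (hh : 0 < h) (i j l : ℕ) :
    0 ≤ mtk (fun a => (2 : ℝ) ^ m a) h (2 ^ i) (2 ^ j) (2 ^ l) := by
  unfold mtk
  refine mul_nonneg (mt_nonneg hh i j l) (prod_nonneg fun a _ => ?_)
  exact div_nonneg (Real.log_nonneg (by norm_num)) (Real.log_nonneg (one_le_pow₀ (by norm_num)))

/-- the exponents of the small primes are at most the one of `P` -/
lemma m_le {r : ℕ} (m : Fin r → ℕ) (i : ℕ) (h : (∏ a, ((2 : ℝ) ^ (m a + 1))) ^ 4 ≤ 2 ^ i) (a : Fin r) : m a ≤ i := by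
  have h1 : ∀ c : Fin r, (1 : ℝ) ≤ 2 ^ (m c + 1) := fun c => one_le_pow₀ (by norm_num)
  have h2 : (2 : ℝ) ^ (m a + 1) ≤ ∏ a, ((2 : ℝ) ^ (m a + 1)) := by
    rw [← mul_prod_erase univ _ (mem_univ a)]
    have h3 : (1 : ℝ) ≤ ∏ c ∈ univ.erase a, ((2 : ℝ) ^ (m c + 1)) := by
      calc (1 : ℝ) = ∏ c ∈ univ.erase a, (1 : ℝ) := by simp
        _ ≤ _ := prod_le_prod (fun _ _ => zero_le_one) (fun c _ => h1 c)
    have h4 : (0 : ℝ) < 2 ^ (m a + 1) := by positivity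
    nlinarith
  have h5 : (1 : ℝ) ≤ ∏ a, ((2 : ℝ) ^ (m a + 1)) := (h1 a).trans h2
  have h6 : (2 : ℝ) ^ (m a) ≤ 2 ^ i := by
    calc (2 : ℝ) ^ (m a) ≤ 2 ^ (m a + 1) := pow_le_pow_right₀ (by norm_num) (by omega)
      _ ≤ ∏ a, ((2 : ℝ) ^ (m a + 1)) := h2
      _ ≤ (∏ a, ((2 : ℝ) ^ (m a + 1))) ^ 4 := le_self_pow₀ h5 (by norm_num)
      _ ≤ 2 ^ i := h
  exact (pow_le_pow_iff_right₀ (by norm_num : (1 : ℝ) < 2)).1 h6

open scoped Classical in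
/-- one dyadic block of numbers `b` -/
lemma one_block (r : ℕ) (ε C₀ C₁ D₀ δ : ℝ) (a : ℕ) (N₀ : ℝ)
    (h : ∀ N : ℝ, N₀ ≤ N → ∀ (T P B : ℝ) (e : Fin r → ℝ), BX C₀ C₁ D₀ δ N T P e →
      T * P * Real.log N ^ D₀ ≤ B → B ^ 2 ≤ 2 * N →
      (((Ioc ⌊B⌋₊ ⌊2 * B⌋₊).filter (fun b => ∃ h : ℝ, 0 < h ∧ IsConst b h ∧
        ε * mtk e h P (N / T) (N * T / (8 * P)) <
          |(WK e b P (N / T) (N * T / (8 * P)) : ℝ) - mtk e h P (N / T) (N * T / (8 * P))|)).card : ℝ) ≤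
        B * Real.log N ^ (-((a : ℝ) + (6 + r)))) :
    ∃ s₀ : ℕ, ∀ s : ℕ, s₀ ≤ s →
      (((Ioc (2 ^ s) (2 ^ (s + 1))).filter (fun b => b ∈ EmK r ε (max C₀ 1) C₁ (max D₀ 0 + 1) δ)).card : ℝ) ≤
        8 * 3 ^ (6 + r) * 2 ^ s / (s : ℝ) ^ a := by
  obtain ⟨s₁, hs₁⟩ : ∃ s₁ : ℕ, N₀ ≤ 2 ^ s₁ :=
    pow_unbounded_of_one_lt N₀ (by norm_num) |>.imp fun _ h => h.le
  refine ⟨s₁ + 3, fun s hs => ?_⟩
  have hs1 : 1 ≤ s := by omega
  have hs0 : (0 : ℝ) < s := by exact_mod_cast hs1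
  have hD : 1 ≤ max D₀ 0 + 1 := by linarith [le_max_right D₀ 0]
  have hD0 : D₀ ≤ max D₀ 0 := le_max_left _ _
  set R := 3 * 2 ^ (s + 1) + 1 with hR
  set J₀ : Finset (Σ _ : ℕ × ℕ × ℕ, Fin r → ℕ) :=
    (range R ×ˢ range R ×ˢ range R).sigma (fun q => Fintype.piFinset (fun _ : Fin r => range (q.1 + 1))) with hJ₀
  set J := J₀.filter (fun x => ∃ b : ℕ, 2 ^ s < b ∧ b ≤ 2 ^ (s + 1) ∧ ∃ N : ℝ,
    AdmK (max C₀ 1) C₁ (max D₀ 0 + 1) δ b x.2 (2 ^ x.1.1) (2 ^ x.1.2.1) (2 ^ x.1.2.2) N) with hJ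
  have hsub : (Ioc (2 ^ s) (2 ^ (s + 1))).filter (fun b => b ∈ EmK r ε (max C₀ 1) C₁ (max D₀ 0 + 1) δ) ⊆
      J.biUnion (fun x => (Ioc (2 ^ s) (2 * 2 ^ s)).filter
        (fun b => FlK ε b (fun a => (2 : ℝ) ^ x.2 a) (2 ^ x.1.1) (2 ^ x.1.2.1) (2 ^ x.1.2.2))) := by
    intro b hb
    rw [mem_filter, mem_Ioc] at hb
    obtain ⟨⟨hb1, hb2⟩, m, i, j, l, N, hA, hF⟩ := hb
    obtain ⟨-, -, h3, -⟩ := facts hD hs1 hb1 hb2 hA.adm
    rw [mem_biUnion]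
    refine ⟨⟨(i, j, l), m⟩, ?_, ?_⟩
    · rw [hJ, mem_filter, hJ₀, mem_sigma, mem_product, mem_product, mem_range, mem_range, mem_range]
      refine ⟨⟨⟨by simp only; omega, by simp only; omega, by simp only; omega⟩, ?_⟩, b, hb1, hb2, N, hA⟩
      rw [Fintype.mem_piFinset]
      intro a
      rw [mem_range]
      exact Nat.lt_succ_of_le (m_le m i hA.e4 a)
    · rw [mem_filter, mem_Ioc]
      exact ⟨⟨hb1, by rw [pow_succ] at hb2; omega⟩, hF⟩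
  have hterm : ∀ x ∈ J, (((Ioc (2 ^ s) (2 * 2 ^ s)).filter
        (fun b => FlK ε b (fun a => (2 : ℝ) ^ x.2 a) (2 ^ x.1.1) (2 ^ x.1.2.1) (2 ^ x.1.2.2))).card : ℝ) ≤
      (3 ^ (6 + r) * 2 ^ s / (s : ℝ) ^ a) * (1 / ((x.1.1 : ℝ) + 1) ^ r *
        (1 / ((x.1.1 : ℝ) + 1) ^ 2 * (1 / ((x.1.2.1 : ℝ) + 1) ^ 2 * (1 / ((x.1.2.2 : ℝ) + 1) ^ 2)))) := by
    rintro ⟨⟨i, j, l⟩, m⟩ hq
    rw [hJ, mem_filter] at hq
    obtain ⟨-, b, hb1, hb2, N, hAK⟩ := hq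
    simp only at hAK
    have hA := hAK.adm
    obtain ⟨hlog, h2, -, h4⟩ := facts hD hs1 hb1 hb2 hA
    obtain ⟨hN0, g1, g2, g3⟩ := sizeN hA.N8
    have hl2 := Real.log_two_gt_d9
    have hbR : (b : ℝ) ≤ 2 ^ (s + 1) := by exact_mod_cast hb2
    have hlog2 : 2 ≤ Real.log N := by
      have h7 : (4 : ℝ) * s ≤ 3 + i + j + l := by exact_mod_cast h2
      have h8 : (3 : ℝ) ≤ s := by exact_mod_cast (by omega : 3 ≤ s)
      rw [g3]; nlinarith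
    have hTpos : 0 < N / 2 ^ j := by positivity
    have hNN₀ : N₀ ≤ N := by
      refine hs₁.trans (le_trans ?_ h4)
      rw [← pow_mul]
      exact pow_le_pow_right₀ (by norm_num) (by omega)
    have hmono : Real.log N ^ D₀ ≤ Real.log N ^ (max D₀ 0) :=
      Real.rpow_le_rpow_of_exponent_le hlog hD0
    have hC0 : Real.log N ^ C₀ ≤ Real.log N ^ (max C₀ 1) :=
      Real.rpow_le_rpow_of_exponent_le hlog (le_max_left _ _)
    have hC1 : 2 ≤ Real.log N ^ (max C₀ 1) := by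
      refine hlog2.trans ?_
      calc Real.log N = Real.log N ^ (1 : ℝ) := (Real.rpow_one _).symm
        _ ≤ _ := Real.rpow_le_rpow_of_exponent_le hlog (le_max_right _ _)
    have hsucc : Real.log N ^ (max D₀ 0 + 1) = Real.log N ^ (max D₀ 0) * Real.log N := by
      rw [Real.rpow_add (by linarith), Real.rpow_one]
    have hpos : 0 < Real.log N ^ (max D₀ 0) := Real.rpow_pos_of_pos (by linarith) _
    have hle1 : Real.log N ^ D₀ ≤ Real.log N ^ (max D₀ 0 + 1) := by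
      rw [hsucc]; nlinarith
    have e1 : N / (N / 2 ^ j) = 2 ^ j := by field_simp
    have e2 : N * (N / 2 ^ j) / (8 * 2 ^ i) = (2 : ℝ) ^ l := by
      rw [div_eq_iff (by positivity), mul_div_assoc', div_eq_iff (by positivity), ← sq, g1]
      ring
    have hEB : EB (Real.log N ^ C₀) (fun a => (2 : ℝ) ^ m a) := by
      refine ⟨fun a => hC1.trans (hAK.lo a), fun a => hC0.trans (hAK.lo a), fun a c hac => ?_⟩
      have h5 : m a < m c := hAK.mono hac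
      calc 2 * (2 : ℝ) ^ m a = 2 ^ (m a + 1) := by rw [pow_succ]; ring
        _ ≤ 2 ^ m c := pow_le_pow_right₀ (by norm_num) h5
    have hBX : BX C₀ C₁ D₀ δ N (N / 2 ^ j) (2 ^ i) (fun a => (2 : ℝ) ^ m a) := by
      refine ⟨hC0.trans hA.P1, hA.P2, le_trans (by gcongr) hA.T1, hA.T2, hEB, ?_⟩
      refine le_trans (le_of_eq ?_) hAK.e4
      congr 1
      refine prod_congr rfl fun a _ => ?_
      rw [pow_succ]; ring
    have hfin := h N hNN₀ (N / 2 ^ j) (2 ^ i) (2 ^ s) (fun a => (2 : ℝ) ^ m a) hBX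
      (by
        have h5 : N / 2 ^ j * 2 ^ i * (Real.log N ^ (max D₀ 0) * Real.log N) ≤ 2 ^ (s + 1) := by
          rw [← hsucc]; exact hA.T3.trans hbR
        have hX : 0 < N / 2 ^ j * 2 ^ i := by positivity
        have h6 : N / 2 ^ j * 2 ^ i * Real.log N ^ (max D₀ 0) * 2 ≤ 2 ^ s * 2 := by
          calc N / 2 ^ j * 2 ^ i * Real.log N ^ (max D₀ 0) * 2
              ≤ N / 2 ^ j * 2 ^ i * Real.log N ^ (max D₀ 0) * Real.log N := by gcongr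
            _ = N / 2 ^ j * 2 ^ i * (Real.log N ^ (max D₀ 0) * Real.log N) := by ring
            _ ≤ 2 ^ (s + 1) := h5
            _ = 2 ^ s * 2 := pow_succ _ _
        calc N / 2 ^ j * 2 ^ i * Real.log N ^ D₀ ≤ N / 2 ^ j * 2 ^ i * Real.log N ^ (max D₀ 0) := by gcongr
          _ ≤ 2 ^ s := by linarith)
      (by linarith [h4, hN0])
    rw [e1, e2] at hfin
    have e3 : ⌊(2 : ℝ) ^ s⌋₊ = 2 ^ s := by
      rw [show (2 : ℝ) ^ s = ((2 ^ s : ℕ) : ℝ) by push_cast; rfl, Nat.floor_natCast]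
    have e4 : ⌊2 * (2 : ℝ) ^ s⌋₊ = 2 * 2 ^ s := by
      rw [show 2 * (2 : ℝ) ^ s = ((2 * 2 ^ s : ℕ) : ℝ) by push_cast; rfl, Nat.floor_natCast]
    rw [e3, e4] at hfin
    refine (Eq.le ?_).trans (hfin.trans ?_)
    · congr
    -- the size of the bound
    have t1 : ((3 : ℝ) + i + j + l) / 3 ≤ Real.log N := by
      rw [g3]
      have : (0 : ℝ) ≤ 3 + i + j + l := by positivity
      nlinarith
    have t2 : (s : ℝ) ≤ Real.log N := by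
      have h7 : (4 : ℝ) * s ≤ 3 + i + j + l := by exact_mod_cast h2
      linarith
    have i0 : (0 : ℝ) ≤ i := Nat.cast_nonneg _
    have j0 : (0 : ℝ) ≤ j := Nat.cast_nonneg _
    have l0 : (0 : ℝ) ≤ l := Nat.cast_nonneg _
    have t3 : ((i : ℝ) + 1) / 3 ≤ Real.log N := by linarith
    have t4 : ((j : ℝ) + 1) / 3 ≤ Real.log N := by linarith
    have t5 : ((l : ℝ) + 1) / 3 ≤ Real.log N := by linarith
    have e5 : Real.log N ^ (-((a : ℝ) + (6 + r))) = (Real.log N ^ (a + (6 + r)))⁻¹ := by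
      rw [Real.rpow_neg (by linarith), show ((a : ℝ) + (6 + r)) = ((a + (6 + r) : ℕ) : ℝ) by push_cast; rfl,
        Real.rpow_natCast]
    rw [e5]
    have t6 : (s : ℝ) ^ a * ((((i : ℝ) + 1) / 3) ^ r *
        ((((i : ℝ) + 1) / 3) ^ 2 * ((((j : ℝ) + 1) / 3) ^ 2 * (((l : ℝ) + 1) / 3) ^ 2))) ≤
        Real.log N ^ (a + (6 + r)) := by
      rw [show Real.log N ^ (a + (6 + r)) = Real.log N ^ a * (Real.log N ^ r *
        (Real.log N ^ 2 * (Real.log N ^ 2 * Real.log N ^ 2))) by ring]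
      gcongr
    calc (2 : ℝ) ^ s * (Real.log N ^ (a + (6 + r)))⁻¹
        ≤ 2 ^ s * ((s : ℝ) ^ a * ((((i : ℝ) + 1) / 3) ^ r * ((((i : ℝ) + 1) / 3) ^ 2 *
            ((((j : ℝ) + 1) / 3) ^ 2 * (((l : ℝ) + 1) / 3) ^ 2))))⁻¹ := by
          gcongr
      _ = _ := by
          simp only [div_pow]
          field_simp
          ring
  refine le_trans (Nat.cast_le.2 ((card_le_card hsub).trans card_biUnion_le)) ?_
  rw [Nat.cast_sum]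
  refine (sum_le_sum hterm).trans ?_
  rw [← mul_sum]
  have hbig : ∑ x ∈ J, (1 / ((x.1.1 : ℝ) + 1) ^ r * (1 / ((x.1.1 : ℝ) + 1) ^ 2 *
      (1 / ((x.1.2.1 : ℝ) + 1) ^ 2 * (1 / ((x.1.2.2 : ℝ) + 1) ^ 2)))) ≤ 8 := by
    have hle : ∑ x ∈ J, (1 / ((x.1.1 : ℝ) + 1) ^ r * (1 / ((x.1.1 : ℝ) + 1) ^ 2 *
        (1 / ((x.1.2.1 : ℝ) + 1) ^ 2 * (1 / ((x.1.2.2 : ℝ) + 1) ^ 2)))) ≤
        ∑ x ∈ J₀, (1 / ((x.1.1 : ℝ) + 1) ^ r * (1 / ((x.1.1 : ℝ) + 1) ^ 2 *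
          (1 / ((x.1.2.1 : ℝ) + 1) ^ 2 * (1 / ((x.1.2.2 : ℝ) + 1) ^ 2)))) := by
      refine sum_le_sum_of_subset_of_nonneg (filter_subset _ _) fun q _ _ => by positivity
    refine hle.trans ?_
    rw [hJ₀, sum_sigma]
    have hin : ∀ q ∈ range R ×ˢ range R ×ˢ range R, ∑ m ∈ Fintype.piFinset (fun _ : Fin r => range (q.1 + 1)),
        (1 / ((q.1 : ℝ) + 1) ^ r * (1 / ((q.1 : ℝ) + 1) ^ 2 *
          (1 / ((q.2.1 : ℝ) + 1) ^ 2 * (1 / ((q.2.2 : ℝ) + 1) ^ 2)))) =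
        (1 / ((q.1 : ℝ) + 1) ^ 2 * (1 / ((q.2.1 : ℝ) + 1) ^ 2 * (1 / ((q.2.2 : ℝ) + 1) ^ 2))) := by
      intro q _
      rw [sum_const, Fintype.card_piFinset]
      simp only [card_range, prod_const, card_univ, Fintype.card_fin, nsmul_eq_mul]
      push_cast
      have : ((q.1 : ℝ) + 1) ^ r ≠ 0 := by positivity
      field_simp
    refine (le_of_eq (sum_congr rfl hin)).trans ?_
    rw [sum_product]
    simp_rw [sum_product, ← mul_sum, ← sum_mul]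
    have hS := sum_sq R
    have hS0 : 0 ≤ ∑ i ∈ range R, 1 / ((i : ℝ) + 1) ^ 2 := sum_nonneg fun _ _ => by positivity
    calc _ ≤ (2 : ℝ) * (2 * 2) := by gcongr
      _ = 8 := by norm_num
  calc 3 ^ (6 + r) * 2 ^ s / (s : ℝ) ^ a * ∑ x ∈ J, (1 / ((x.1.1 : ℝ) + 1) ^ r * (1 / ((x.1.1 : ℝ) + 1) ^ 2 *
        (1 / ((x.1.2.1 : ℝ) + 1) ^ 2 * (1 / ((x.1.2.2 : ℝ) + 1) ^ 2))))
      ≤ 3 ^ (6 + r) * 2 ^ s / (s : ℝ) ^ a * 8 := by gcongr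
    _ = _ := by ring

end UNKM

open UNKM in
/-- **UNK**: the union over the boxes, over `r`, `ε` and `C₁`. -/
theorem specUNK : SpecUNK := by
  intro hONK hHGB A
  classical
  obtain ⟨C, hC, hH⟩ := hHGB
  have h1 : ∀ r m₁ : ℕ, ∃ C₀ : ℝ, ∀ m₂ : ℕ, ∃ D c : ℝ, 0 < c ∧ ∀ᶠ x : ℕ in atTop,
      (count (EmK r (1 / ((m₁ : ℝ) + 1)) C₀ m₂ D c) x : ℝ) ≤ x / (Real.log x) ^ (A + 1) := by
    intro r m₁
    obtain ⟨C₀, h2⟩ := hONK r (1 / ((m₁ : ℝ) + 1)) (by positivity) (((A + 2 : ℕ) : ℝ) + (6 + r)) (by positivity)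
    refine ⟨max C₀ 1, fun m₂ => ?_⟩
    obtain ⟨D₀, δ, hδ, h3⟩ := h2 m₂
    obtain ⟨N₀, hN₀⟩ := eventually_atTop.1 h3
    obtain ⟨s₀, hs₀⟩ := one_block r (1 / ((m₁ : ℝ) + 1)) C₀ m₂ D₀ δ (A + 2) N₀
      (fun N hN T P B e a1 a2 a3 => hN₀ N hN T P B e a1 a2 a3)
    exact ⟨max D₀ 0 + 1, δ, hδ, count_of_blocks _ (8 * 3 ^ (6 + r)) (by positivity) (A + 1) s₀ hs₀⟩
  choose C₀ h2 using h1
  choose D c hc hcnt using h2
  obtain ⟨E, hE1, hE2⟩ := union_sets A (fun k => EmK (Nat.unpair k).1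
    (1 / (((Nat.unpair (Nat.unpair k).2).1 : ℝ) + 1)) (C₀ (Nat.unpair k).1 (Nat.unpair (Nat.unpair k).2).1)
    ((Nat.unpair (Nat.unpair k).2).2 : ℝ)
    (D (Nat.unpair k).1 (Nat.unpair (Nat.unpair k).2).1 (Nat.unpair (Nat.unpair k).2).2)
    (c (Nat.unpair k).1 (Nat.unpair (Nat.unpair k).2).1 (Nat.unpair (Nat.unpair k).2).2))
    (fun k => hcnt _ _ _)
  refine ⟨E, hE1, fun r ε hε => ?_⟩
  obtain ⟨m₁, hm₁⟩ := exists_nat_one_div_lt hε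
  refine ⟨C₀ r m₁, fun C₁ => ?_⟩
  obtain ⟨m₂, hm₂⟩ := exists_nat_ge C₁
  refine ⟨D r m₁ m₂, c r m₁ m₂, hc r m₁ m₂, ?_⟩
  obtain ⟨b₀, hb₀⟩ := hE2 (Nat.pair r (Nat.pair m₁ m₂))
  refine ⟨max b₀ 2, fun b hb hbE => ?_⟩
  have hb2 : 2 ≤ b := (le_max_right _ _).trans hb
  obtain ⟨h, hh, hconst, -⟩ := hH b (by omega)
  refine ⟨h, hh, hconst, fun m i j l N hA => ?_⟩
  by_contra hcon
  push Not at hcon
  apply hbE
  apply hb₀ b ((le_max_left _ _).trans hb)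
  simp only [Nat.unpair_pair]
  have hNe : Real.exp 1 ≤ N := by
    have h5 : (2 : ℝ) ≤ b := by exact_mod_cast hb2
    have h6 := hA.adm.b2
    have h7 := Real.exp_one_lt_d9
    nlinarith
  have hlog : 1 ≤ Real.log N := by
    rw [Real.le_log_iff_exp_le (lt_of_lt_of_le (Real.exp_pos 1) hNe)]
    exact hNe
  refine ⟨m, i, j, l, N, ⟨⟨hA.adm.N8, hA.adm.b2, hA.adm.P1,
    hA.adm.P2.trans (Real.rpow_le_rpow_of_exponent_le hlog hm₂), hA.adm.T1, hA.adm.T2, hA.adm.T3⟩,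
    hA.mono, hA.lo, hA.e4⟩, h, hh, hconst, lt_of_le_of_lt ?_ hcon⟩
  exact mul_le_mul_of_nonneg_right hm₁.le (mtk_nonneg m hh i j l)

end Pool.Agent.Lib.MP391708.X4
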