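import Pool.Agent.Lib.MP_391708_nt.X4.SpecK
import Pool.Agent.Lib.MP_391708_nt.MR.Basic

/-!
# THEOREM X4 (MP_391708), module YYP: the set of the outer factors (helper84)
-/

set_option autoImplicit false

namespace Pool.Agent.Lib.MP391708.X4

open Finset Filter Topology Pool.Agent.Lib.MP391708.MR
open Pool.Agent.Lib.MP391708.X (YOK)

namespace YYPM

/-- the norm as a monoid homomorphism -/
def nmHom : Gi →* ℕ where
  toFun := nm
  map_one' := nm_one
  map_mul' := nm_mul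

lemma nm_prod {r : ℕ} (f : Fin r → Gi) : nm (∏ i, f i) = ∏ i, nm (f i) :=
  map_prod nmHom f Finset.univ

/-- a Gaussian integer with squarefree norm is primitive -/
lemma prim_of_sq {z : Gi} (h : Squarefree (nm z)) : prim z := by
  unfold prim
  have h1 : ((Int.gcd z.re z.im : ℕ) : ℤ) ∣ z.re := Int.gcd_dvd_left ..
  have h2 : ((Int.gcd z.re z.im : ℕ) : ℤ) ∣ z.im := Int.gcd_dvd_right ..
  have h3 : (((Int.gcd z.re z.im) * (Int.gcd z.re z.im) : ℕ) : ℤ) ∣ ((nm z : ℕ) : ℤ) := by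
    rw [nm_cast]
    obtain ⟨a, ha⟩ := h1
    obtain ⟨c, hc⟩ := h2
    refine ⟨a ^ 2 + c ^ 2, ?_⟩
    push_cast
    nth_rw 1 [ha]
    nth_rw 2 [hc]
    ring
  have h4 : (Int.gcd z.re z.im) * (Int.gcd z.re z.im) ∣ nm z := Int.natCast_dvd_natCast.1 h3
  exact Nat.isUnit_iff.1 (h _ h4)

section

variable {r : ℕ} {z : ℝ} {e : Fin r → ℝ}

lemma lt_of_lt (hE : EB z e) {i j : Fin r} (h : i < j) {x y : Gi} (hx : x ∈ GP (e i) (2 * e i))
    (hy : y ∈ GP (e j) (2 * e j)) : nm x < nm y := by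
  have h1 := (mem_GP.1 hx).2.2.2.2.2
  have h2 := (mem_GP.1 hy).2.2.2.2.1
  have h3 := hE.dj i j h
  have h4 : (nm x : ℝ) < nm y := by linarith
  exact_mod_cast h4

lemma idx_eq (hE : EB z e) {i j : Fin r} {x y : Gi} (hx : x ∈ GP (e i) (2 * e i))
    (hy : y ∈ GP (e j) (2 * e j)) (h : nm x = nm y) : i = j := by
  rcases lt_trichotomy i j with h1 | h1 | h1
  · exact absurd h (lt_of_lt hE h1 hx hy).ne
  · exact h1
  · exact absurd h (lt_of_lt hE h1 hy hx).ne'

lemma eq_of_dvd (hE : EB z e) {f g : Fin r → Gi} (hf : ∀ i, f i ∈ GP (e i) (2 * e i))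
    (hg : ∀ i, g i ∈ GP (e i) (2 * e i)) (h : (∏ i, f i) ∣ ∏ i, g i) : f = g := by
  funext i
  have h1 : f i ∣ ∏ i, g i := (Finset.dvd_prod_of_mem f (Finset.mem_univ i)).trans h
  obtain ⟨j, _, hj⟩ := (GP_prime (hf i)).exists_mem_finset_dvd h1
  have h2 : g j = f i := GP_eq_of_dvd (hf i) (hg j) hj
  have h3 : i = j := idx_eq hE (hf i) (hg j) (by rw [h2])
  subst h3
  exact h2.symm

lemma nm_injective (hE : EB z e) {f : Fin r → Gi} (hf : ∀ i, f i ∈ GP (e i) (2 * e i)) :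
    Function.Injective (fun i => nm (f i)) := fun i j h => idx_eq hE (hf i) (hf j) h

lemma sq_card (hE : EB z e) {f : Fin r → Gi} (hf : ∀ i, f i ∈ GP (e i) (2 * e i)) :
    Squarefree (nm (∏ i, f i)) ∧ (nm (∏ i, f i)).primeFactors.card = r := by
  classical
  have hp : ∀ i, (nm (f i)).Prime := fun i => (mem_GP.1 (hf i)).2.2.1
  have hinj := nm_injective hE hf
  rw [nm_prod]
  constructor
  · refine Finset.squarefree_prod_of_pairwise_isCoprime (fun i _ j _ hij => ?_)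
      fun i _ => (hp i).squarefree
    simp only [Function.onFun, ← Nat.coprime_iff_isRelPrime]
    exact (Nat.coprime_primes (hp i) (hp j)).2 fun h => hij (hinj h)
  · have h1 : ∏ i, nm (f i) = ∏ p ∈ Finset.univ.image (fun i => nm (f i)), p := by
      rw [Finset.prod_image fun i _ j _ h => hinj h]
    rw [h1, Nat.primeFactors_prod, Finset.card_image_of_injective _ hinj, Finset.card_univ,
      Fintype.card_fin]
    intro p hp'
    obtain ⟨i, _, rfl⟩ := Finset.mem_image.1 hp'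
    exact hp i

lemma nm_le {f : Fin r → Gi} (hf : ∀ i, f i ∈ GP (e i) (2 * e i)) :
    (nm (∏ i, f i) : ℝ) ≤ ∏ i, (2 * e i) := by
  rw [nm_prod]
  push_cast
  exact Finset.prod_le_prod (fun i _ => Nat.cast_nonneg _) fun i _ => (mem_GP.1 (hf i)).2.2.2.2.2

end

open scoped Classical in
lemma mem_YY {r : ℕ} {e : Fin r → ℝ} {y : Gi} :
    y ∈ YY e ↔ ∃ f : Fin r → Gi, (∀ i, f i ∈ GP (e i) (2 * e i)) ∧ ∏ i, f i = y := by
  unfold YY
  rw [Finset.mem_image]
  constructor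
  · rintro ⟨f, hf, h⟩
    exact ⟨f, Fintype.mem_piFinset.1 hf, h⟩
  · rintro ⟨f, hf, h⟩
    exact ⟨f, Fintype.mem_piFinset.2 hf, h⟩

end YYPM

open YYPM in
open scoped Classical in
theorem specYYP : SpecYYP := by
  intro r e z D hE hD
  refine ⟨⟨?_, ?_, ?_, ?_⟩, ?_, ?_⟩
  · intro y hy
    obtain ⟨f, hf, rfl⟩ := mem_YY.1 hy
    exact sq_card hE hf
  · intro y hy y' hy' h
    obtain ⟨f, hf, rfl⟩ := mem_YY.1 hy
    obtain ⟨g, hg, rfl⟩ := mem_YY.1 hy'
    rw [eq_of_dvd hE hf hg h.dvd]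
  · intro y hy
    obtain ⟨f, hf, rfl⟩ := mem_YY.1 hy
    exact (nm_le hf).trans hD
  · intro y hy π hπ hd
    obtain ⟨f, hf, rfl⟩ := mem_YY.1 hy
    obtain ⟨i, _, hi⟩ := hπ.exists_mem_finset_dvd hd
    have h1 := mem_GP.1 (hf i)
    rcases (Nat.dvd_prime h1.2.2.1).1 (nm_dvd hi) with h3 | h3
    · exact absurd (isUnit_iff_nm.2 h3) hπ.not_isUnit
    · rw [h3]
      exact (hE.lo i).trans_lt h1.2.2.2.2.1
  · intro y hy
    obtain ⟨f, hf, rfl⟩ := mem_YY.1 hy
    exact ⟨prim_of_sq (sq_card hE hf).1, nm_le hf⟩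
  · unfold YY
    rw [Finset.sum_image]
    · have h1 : ∀ f ∈ Fintype.piFinset (fun i => GP (e i) (2 * e i)),
          1 / (nm (∏ i, f i) : ℝ) = ∏ i, (1 / (nm (f i) : ℝ)) := by
        intro f _
        rw [nm_prod]
        push_cast
        rw [Finset.prod_div_distrib, Finset.prod_const_one]
      rw [Finset.sum_congr rfl h1]
      unfold WW
      exact (Finset.prod_univ_sum (fun i => GP (e i) (2 * e i))
        (fun _ π => 1 / (nm π : ℝ))).symm
    · intro f hf g hg h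
      exact eq_of_dvd hE (Fintype.mem_piFinset.1 hf) (Fintype.mem_piFinset.1 hg)
        (dvd_of_eq h)

end Pool.Agent.Lib.MP391708.X4
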