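import Pool.Agent.Lib.MP_391708_nt.X4.Final
import Pool.Agent.Lib.MP_391708_nt.X4.GPB
import Pool.Agent.Lib.MP_391708_nt.X4.YYP
import Pool.Agent.Lib.MP_391708_nt.X4.CNK
import Pool.Agent.Lib.MP_391708_nt.X4.CVK
import Pool.Agent.Lib.MP_391708_nt.X4.ONK
import Pool.Agent.Lib.MP_391708_nt.X4.UNK
import Pool.Agent.Lib.MP_391708_nt.X4.ULK

/-!
# THEOREM X4 (MP_391708) for every `k ≥ 3`: assembly
-/

set_option autoImplicit false

namespace Pool.Agent.Lib.MP391708.X4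

open Pool.Agent.Lib.MP391708

theorem x4_gpb : SpecGPB := specGPB x4_gpl
theorem x4_hgb : XP.SpecHGB := XP.specHGB XP.specH1C
theorem x4_yyp : SpecYYP := specYYP
theorem x4_cnk : SpecCNK := specCNK x4_yyp
theorem x4_cvk : SpecCVK := specCVK x4_gpa x4_gpb x4_hva x4_yyp
theorem x4_onk : SpecONK := specONK x4_var x4_fma x4_gsz x4_yyp x4_cnk x4_cvm x4_cvk X3.specCSX

/-- THEOREM X4 for every `k ≥ 3`, without hypotheses -/
theorem mainXK : MainXK := specUNK x4_onk x4_hgb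

end Pool.Agent.Lib.MP391708.X4
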