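import Pool.Agent.Lib.MP_391708_nt.X4.Spec

/-!
# THEOREM X4 (MP_391708) for every number `k ≥ 3` of primes

`n² + b² = s_1 ⋯ s_r p q t`, `r = k - 3`, `s_i ∈ (P_i, 2P_i]`, `p ∈ (P, 2P]`, `s_1 ⋯ s_r q ∈ (K, 2K]`, `t ∈ (M, 2M]`, `N = √(8PKM)`, `T = N/K`.
The outer factor is `y = π_1 ⋯ π_r`, `N(π_i) = s_i`; the conditions are those of `X4/Spec.lean` and: the `P_i` are at least `(log N)^C₀`,
`2P_i ≤ P_j` for `i < j`, `(∏ 2P_i)^4 ≤ P` (so that `N(y) ≤ (log N)^(cP/2)` when `(log N)^cP ≤ P ≤ (log N)^(2cP)`).  The main term is the one of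
`X4/Spec.lean` times `∏_i log 2/log P_i`.  `FMA`, `GSZ` are stated for all `y` and are used as they are.

Form of a module: file `X4/XXX.lean`, `import Pool.Agent.Lib.MP_391708_nt.X4.SpecK`, `set_option autoImplicit false`, namespace
`Pool.Agent.Lib.MP391708.X4`, own lemmas in the namespace `XXXM`, `theorem specXXX (hYYY : SpecYYY) .. : SpecXXX` (the hypotheses are
the Specs named in brackets, in this order).
-/

set_option autoImplicit false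

namespace Pool.Agent.Lib.MP391708.X4

open Finset Filter Topology Pool.Agent.Lib.MP391708.MR
open Pool.Agent.Lib.MP391708.X (ChiG hk Dist Fam rgh VP Ix psi ix1 UOK lc On YOK)
open Pool.Agent.Lib.MP391708.X3
open Pool.Agent.Lib.MP391708.XL (VS PS)
open Pool.Agent.Lib.MP391708.XP (gB IsConst count)
open scoped ComplexConjugate

/-! ## Definitions -/

open scoped Classical in
/-- the products `π_1 ⋯ π_r`, `π_i ∈ GP (e i) (2 e i)` -/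
noncomputable def YY {r : ℕ} (e : Fin r → ℝ) : Finset Gi :=
  (Fintype.piFinset (fun i => GP (e i) (2 * e i))).image (fun f => ∏ i, f i)

/-- the ranges of the small primes -/
structure EB {r : ℕ} (z : ℝ) (e : Fin r → ℝ) : Prop where
  one : ∀ i, 2 ≤ e i
  lo : ∀ i, z ≤ e i
  dj : ∀ i j, i < j → 2 * e i ≤ e j

/-- the number of `n ≥ 1` such that `n² + b² = s_1 ⋯ s_r p q t` with primes `s_i ∈ (e i, 2 e i]`, `p ∈ (P, 2P]`, `q`, `t ∈ (M, 2M]`,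
`s_1 ⋯ s_r q ∈ (K, 2K]` -/
noncomputable def WK {r : ℕ} (e : Fin r → ℝ) (b : ℕ) (P K M : ℝ) : ℕ :=
  Set.ncard {n : ℕ | 1 ≤ n ∧ ∃ (s : Fin r → ℕ) (p q t : ℕ), (∀ i, (s i).Prime ∧ e i < s i ∧ (s i : ℝ) ≤ 2 * e i) ∧
    p.Prime ∧ q.Prime ∧ t.Prime ∧ P < p ∧ (p : ℝ) ≤ 2 * P ∧ K < ((∏ i, s i) * q : ℕ) ∧ (((∏ i, s i) * q : ℕ) : ℝ) ≤ 2 * K ∧
    M < t ∧ (t : ℝ) ≤ 2 * M ∧ n ^ 2 + b ^ 2 = (∏ i, s i) * p * q * t}

/-- the main term -/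
noncomputable def mtk {r : ℕ} (e : Fin r → ℝ) (h P K M : ℝ) : ℝ := mt h P K M * ∏ i, (Real.log 2 / Real.log (e i))

/-! ## Primes and outer factors -/

/-- GPB (100 lines, from X.SpecGPL).  `∑ 1/N(π)` over a dyadic annulus.  The method of `X4/GPA.lean` with `N(π)^(-1)` (`∑_{j<J} (μ - 1) = J (μ - 1) → log 2`
for `μ = 2^(1/J)`). -/
def SpecGPB : Prop := ∀ ε : ℝ, 0 < ε → ∀ᶠ X : ℝ in atTop, |WW X (2 * X) - Real.log 2 / Real.log X| ≤ ε / Real.log X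

/-- YYP (150 lines).  The set of the outer factors.
Proof.  `N(y) = ∏ N(π_i)`, the `N(π_i)` are primes in the disjoint ranges `(e i, 2 e i]`, so different: `N(y)` is squarefree with the prime factors `N(π_i)` (`Nat.primeFactors_prod`,
`Nat.squarefree_iff_prod_primeFactors_eq`), `≤ ∏ 2 e i`.  A Gaussian prime dividing `y` divides some `π_i`, so it is associated to it, and its norm is `> e i ≥ z`.  If `y = ∏ π_i` and `y' = ∏ π'_i` are associated, `π_i ∣ π'_j` for some `j`,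
`π_i = π'_j` (`MR.GP_eq_of_dvd`, `CNBM.dvd_GP`), `j = i` by the norms: `y = y'` and the map is injective, so the sum is `∏_i ∑ 1/N(π_i)` (`Finset.sum_image`, `Finset.prod_univ_sum`).
Primitive: a rational prime `q ∣ y` gives `q² ∣ N(y)`, which is squarefree (write it for `Int.gcd y.re y.im`). -/
def SpecYYP : Prop := ∀ (r : ℕ) (e : Fin r → ℝ) (z D : ℝ), EB z e → ∏ i, (2 * e i) ≤ D →
  YOK r z D (YY e) ∧ (∀ y ∈ YY e, prim y ∧ (nm y : ℝ) ≤ ∏ i, (2 * e i)) ∧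
  ∑ y ∈ YY e, 1 / (nm y : ℝ) = ∏ i, WW (e i) (2 * e i)

/-- CNK (300 lines, from YYP).  The exact count; start from `X4/CNE.lean`.
Proof.  Injection: `CNBM.tup_inj` with `Y = YY e` (`YLK` from YYP with `R = p.P`), `P₁ = 2 P`, `L₁ = 2 K` (`ROK`: `2 P · P ≤ K`).  Image: `n² + b² = N(y) N(z₁) N(π₃) N(z)`, `N(y) = ∏ N(π_i)`.  Surjection: let `n² + b² = ∏ s_i · p q t`; the `s_i` are `≤ ∏ 2 e i ≤ P`,
`q > K/∏ s_i ≥ 2P`, so all the primes are different and `> 2` and each divides `N(n + ib)` exactly once: `CNEM.split` gives the Gaussian primes `π_i, π₃, z₁, π₂` of the first quadrant dividing `n + ib`; they are pairwise not associated, so `∏ π_i · z₁ π₃` divides it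
(`Finset.prod_dvd_of_coprime` or `Finset.prod_dvd_of_isRelPrime`, or induction). -/
def SpecCNK : Prop := ∀ (r : ℕ) (e : Fin r → ℝ) (p : Par) (b : ℕ), 1 ≤ b → 0 < p.N → 0 < p.T → 2 ≤ p.P → EB 2 e →
  ∏ i, (2 * e i) ≤ p.P → 2 * p.P * p.P ≤ p.K → 2 * p.K ≤ p.M2 → 0 ≤ p.h → 8 * p.K * p.P * p.M2 = p.N ^ 2 → 2 * p.M2 ≤ p.N * p.T →
    ∑ y ∈ YY e, sy p y b (Eta p) = (WK e b p.P p.K p.M2 : ℂ)

/-- CVK (200 lines, from GPA, GPB, HVA, YYP); start from `X4/CVM.lean`.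
Proof.  `MM p y b = (2/π)(VS/VP) GH(P) GH(M₂) GH(K/N(y))/√N(y)`.  `log N(y) ≤ log ∏ 2 e i ≤ log K/x₀`, so `log (K/N(y)) = log K (1 + O(1/x₀))`, and `K/N(y) ≥ √K` is large: by GPA `GH(K/N(y))/√N(y) = 2(√2-1) √K/(log K · N(y)) (1 + O(η))` for every `y`; the sum over `y` is
`∏_i WW (e i) (2 e i) = ∏_i (log 2/log (e i)) (1 + O(η))` (YYP, GPB), `(1 + η)^(r + 4) - 1 ≤ ε`. -/
def SpecCVK : Prop := ∀ (r : ℕ) (ε : ℝ), 0 < ε → ∃ x₀ : ℝ, ∀ (e : Fin r → ℝ) (p : Par) (b : ℕ) (h : ℝ), x₀ ≤ p.w → x₀ ≤ p.P → x₀ ≤ p.K → x₀ ≤ p.M2 →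
  EB x₀ e → x₀ * Real.log (∏ i, (2 * e i)) ≤ Real.log p.K → 1 ≤ b → Real.log b ^ 2 ≤ p.w → IsConst b h → 0 < h →
    |∑ y ∈ YY e, MM p y b - mtk e h p.P p.K p.M2| ≤ ε * mtk e h p.P p.K p.M2

/-! ## One box -/

/-- the numerical conditions on a box with `r` small primes, `x = log N` -/
structure BX {r : ℕ} (C₀ C₁ D δ : ℝ) (N T P : ℝ) (e : Fin r → ℝ) : Prop where
  P1 : Real.log N ^ C₀ ≤ P
  P2 : P ≤ Real.log N ^ C₁
  T1 : P * Real.log N ^ D ≤ T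
  T2 : T ≤ N ^ δ
  eb : EB (Real.log N ^ C₀) e
  e4 : (∏ i, (2 * e i)) ^ 4 ≤ P

open scoped Classical in
/-- ONK (300 lines, from X3.SpecVAR, FMA, GSZ, YYP, CNK, CVM, CVK, X3.SpecCSX, XP.SpecHGB).  One box; start from `X4/ONA.lean`.
Proof.  First for `ℓ^cP ≤ P ≤ ℓ^(2cP)`, `cP ≥ C₀`.  VAR with `A + 16`: `cw aU aQ aF ch0 δ0`, FMA with `ε/8`, GSZ.  `C₀ ≥ cw, aQ`.  Let `Y = YY e`; `N(y) ≤ ∏ 2 e i ≤ P^(1/4) ≤ ℓ^(cP/2)`, the prime factors of `y` have norm `> ℓ^C₀` (YYP): all `y ∈ Y` are admissible in FMA (contexts `Cx`).  Let `U` be from VAR,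
`D(b) = ∑_y sy p y b (Eta - Kap U)`: CSX with `Y`: `∑_b ‖D(b)‖² ≤ 20 K Var ≤ 20 ℓ^(-A-16) B N²`.  `S = ∑_y MM p y b`; `|∑_y sy (Kap U) - S| ≤ (ε/8) S` (FMA).  `mtk ≥ N/ℓ⁷`: CVM, GSZ (`y = 1`: `mt ≥ MM p 1 b/2 ≥ N/(2ℓ⁵)`) and `∏ log 2/log (e i) ≥ 1/ℓ`, since
`log (e i) ≤ log P ≤ C₁ log ℓ`.  If `‖D(b)‖ ≤ (ε/8) mtk` then `|WK - mtk| ≤ ε mtk` (CNK, CVK with `ε/4`).  Otherwise `‖D(b)‖ > (ε/8) N/ℓ⁷`: at most `20 ℓ^(-A-16) B N² · 64 ℓ^14/(ε² N²) ≤ B ℓ^(-A)` such `b`.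
Then for `ℓ^C₀ ≤ P ≤ ℓ^(2^m C₀)` by induction on `m` (`D` = the maximum, `δ` = the minimum) as in ONA. -/
def SpecONK : Prop := ∀ (r : ℕ) (ε : ℝ), 0 < ε → ∀ A : ℝ, 0 < A → ∃ C₀ : ℝ, ∀ C₁ : ℝ, ∃ D δ : ℝ, 0 < δ ∧ ∀ᶠ N : ℝ in atTop, ∀ (T P B : ℝ)
  (e : Fin r → ℝ), BX C₀ C₁ D δ N T P e → T * P * Real.log N ^ D ≤ B → B ^ 2 ≤ 2 * N →
    (((Ioc ⌊B⌋₊ ⌊2 * B⌋₊).filter (fun b => ∃ h : ℝ, 0 < h ∧ IsConst b h ∧
      ε * mtk e h P (N / T) (N * T / (8 * P)) <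
        |(WK e b P (N / T) (N * T / (8 * P)) : ℝ) - mtk e h P (N / T) (N * T / (8 * P))|)).card : ℝ) ≤
      B * Real.log N ^ (-A)

/-! ## The union -/

/-- `b` and the box satisfy the conditions with the exponents `C₀ C₁ D c`; the ranges of the small primes are `(2^(m i), 2^(m i + 1)]` -/
structure AdmK {r : ℕ} (C₀ C₁ D c : ℝ) (b : ℕ) (m : Fin r → ℕ) (P K M N : ℝ) : Prop where
  adm : Adm C₀ C₁ D c b P K M N
  mono : StrictMono m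
  lo : ∀ i, Real.log N ^ C₀ ≤ 2 ^ m i
  e4 : (∏ i, ((2 : ℝ) ^ (m i + 1))) ^ 4 ≤ P

/-- THEOREM X4 for all `k = r + 3 ≥ 3` -/
def MainXK : Prop := ∀ A : ℕ, ∃ E : Set ℕ,
  (∀ᶠ x : ℕ in atTop, (count E x : ℝ) ≤ x / (Real.log x) ^ A) ∧
  ∀ (r : ℕ) (ε : ℝ), 0 < ε → ∃ C₀ : ℝ, ∀ C₁ : ℝ, ∃ D c : ℝ, 0 < c ∧ ∃ b₀ : ℕ, ∀ b : ℕ, b₀ ≤ b → b ∉ E → ∃ h : ℝ, 0 < h ∧ IsConst b h ∧
    ∀ (m : Fin r → ℕ) (i j l : ℕ) (N : ℝ), AdmK C₀ C₁ D c b m (2 ^ i) (2 ^ j) (2 ^ l) N →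
      |(WK (fun a => (2 : ℝ) ^ m a) b (2 ^ i) (2 ^ j) (2 ^ l) : ℝ) - mtk (fun a => (2 : ℝ) ^ m a) h (2 ^ i) (2 ^ j) (2 ^ l)| ≤
        ε * mtk (fun a => (2 : ℝ) ^ m a) h (2 ^ i) (2 ^ j) (2 ^ l)

/-- UNK (350 lines, from ONK, XP.SpecHGB).  The union over the boxes, over `r`, `ε = 1/(m₁ + 1)`, `C₁ = m₂`.  Start from `X4/UNA.lean`.
Proof.  As UNA with ONK for `A + 8 + r`: the `m : Fin r → ℕ` of a box have `2^(m i) ≤ P ≤ 2^i'` (`e4`), `i' = log₂ P ≤ 2 log N`, so there are at most `(2 ℓ + 1)^r` of them (`m i < i' + 1`: use `Fintype.piFinset (fun _ => range (i' + 1))`).  Replace `C₀` by `max C₀ 1` (then `2 ≤ ℓ ≤ 2^(m i)`, `EB.one`); `EB.dj` is `StrictMono m`.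
`r`, `m₁`, `m₂` coded by `Nat.pair`. -/
def SpecUNK : Prop := SpecONK → XP.SpecHGB → MainXK

end Pool.Agent.Lib.MP391708.X4
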