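import Pool.Agent.Lib.MP_391708_nt.X4.Spec

/-!
# THEOREM X4 (MP_391708): `XX ≤ 2π MM` (for GSZ)
-/

set_option autoImplicit false

namespace Pool.Agent.Lib.MP391708.X4

open Finset Filter Topology Pool.Agent.Lib.MP391708.MR
open Pool.Agent.Lib.MP391708.X (ChiG hk Dist Fam rgh VP Ix psi ix1 UOK lc On)
open Pool.Agent.Lib.MP391708.X3
open Pool.Agent.Lib.MP391708.X3M
open Pool.Agent.Lib.MP391708.XL (VS PS)

namespace XXBM

lemma GH_nonneg (X : ℝ) : 0 ≤ GH X := sum_nonneg fun _ _ => by positivity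

/-- the number of primes against the weighted sum -/
lemma card_le (X : ℝ) : ((GP X (2 * X)).card : ℝ) ≤ Real.sqrt (2 * X) * GH X := by
  unfold GH
  rw [mul_sum, card_eq_sum_ones]
  push_cast
  refine sum_le_sum fun z hz => ?_
  unfold GP disc at hz
  rw [mem_filter, mem_filter] at hz
  obtain ⟨⟨-, -, h2⟩, -, -, hp, -, -⟩ := hz
  have hx : (0 : ℝ) < nm z := by exact_mod_cast hp.pos
  rw [mul_one_div, le_div_iff₀ (Real.sqrt_pos.2 hx), one_mul]
  exact Real.sqrt_le_sqrt h2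

/-- lower bound for `GH` -/
lemma GH_ge (hGPA : SpecGPA) : ∃ X0 : ℝ, ∀ X : ℝ, X0 ≤ X →
    1 / 2 * (Real.sqrt X / Real.log X) ≤ GH X := by
  obtain ⟨X0, hX0⟩ := eventually_atTop.1 (hGPA (3 / 10) (by norm_num))
  refine ⟨max X0 2, fun X hX => ?_⟩
  have h1 := (abs_le.1 (hX0 X ((le_max_left _ _).trans hX))).1
  have h2 : (2 : ℝ) ≤ X := (le_max_right _ _).trans hX
  have h3 : 0 ≤ Real.sqrt X / Real.log X :=
    div_nonneg (Real.sqrt_nonneg _) (Real.log_nonneg (by linarith))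
  have h4 : (14 / 10 : ℝ) ≤ Real.sqrt 2 := by
    rw [Real.le_sqrt (by norm_num) (by norm_num)]
    norm_num
  nlinarith [mul_nonneg (sub_nonneg.2 h4) h3]

/-- the size of the main term -/
lemma XX_le {X0 : ℝ} (hG : ∀ X : ℝ, X0 ≤ X → 1 / 2 * (Real.sqrt X / Real.log X) ≤ GH X)
    {p : Par} {U : Finset Ix} {b : ℕ} {y : Gi} (hS : Siz p U b y) (hN : X0 ≤ p.N ^ (9 / 10 : ℝ))
    (hV : 0 ≤ VS b (PS p.w) / VP p.w) : XX p y b ≤ 2 * Real.pi * MM p y b := by
  have h1 := hS.N1
  have hN0 : (0 : ℝ) < p.N := by linarith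
  have hl : 0 < Real.log p.N := by have := hS.l1; linarith
  have hr : (1 : ℝ) < p.N ^ (9 / 10 : ℝ) := Real.one_lt_rpow (by linarith) (by norm_num)
  have hK1 := hS.K1
  have hK2 := hS.K2
  have hM1 := hS.M21
  have hM2 := hS.M22
  have hP := hS.P1
  have hyn : (1 : ℝ) ≤ nm y := by exact_mod_cast hS.ny
  have hNr : p.N ^ (9 / 10 : ℝ) ≤ p.N := by
    calc p.N ^ (9 / 10 : ℝ) ≤ p.N ^ (1 : ℝ) :=
          Real.rpow_le_rpow_of_exponent_le (by linarith) (by norm_num)
      _ = p.N := Real.rpow_one _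
  set k : ℝ := p.K / nm y with hk
  have hk0 : 0 < k := by linarith
  have hM0 : 0 < p.M2 := by linarith
  have hlk : Real.log k ≤ Real.log p.N := Real.log_le_log hk0 hK2
  have hlk0 : 0 < Real.log k := Real.log_pos (by linarith)
  have hlM0 : 0 < Real.log p.M2 := Real.log_pos (by linarith)
  have hlM : Real.log p.M2 ≤ 2 * Real.log p.N := by
    have h1 : Real.log p.M2 ≤ Real.log (p.N ^ (3 / 2 : ℝ)) := Real.log_le_log hM0 (by linarith)
    rw [Real.log_rpow hN0] at h1
    linarith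
  have g1 : 1 / 2 * (Real.sqrt k / Real.log p.N) ≤ GH k := by
    refine le_trans ?_ (hG k (by linarith))
    gcongr
  have g2 : 1 / 2 * (Real.sqrt p.M2 / (2 * Real.log p.N)) ≤ GH p.M2 := by
    refine le_trans ?_ (hG p.M2 (by linarith))
    gcongr
  have g3 := card_le p.P
  have g4 := GH_nonneg p.P
  -- the square roots
  have hNs : p.N = 2 * Real.sqrt (2 * p.P) * Real.sqrt k * Real.sqrt p.M2 *
      Real.sqrt (nm y) := by
    have h2 : p.N ^ 2 = (2 * Real.sqrt (2 * p.P) * Real.sqrt k * Real.sqrt p.M2 *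
        Real.sqrt (nm y)) ^ 2 := by
      have e1 : (2 * Real.sqrt (2 * p.P) * Real.sqrt k * Real.sqrt p.M2 *
        Real.sqrt (nm y)) ^ 2 = 4 * Real.sqrt (2 * p.P) ^ 2 * Real.sqrt k ^ 2 *
          Real.sqrt p.M2 ^ 2 * Real.sqrt (nm y) ^ 2 := by ring
      rw [e1, Real.sq_sqrt (by linarith), Real.sq_sqrt hk0.le, Real.sq_sqrt hM0.le,
        Real.sq_sqrt (by linarith), ← hS.prod, hk]
      field_simp
      ring
    exact (sq_eq_sq₀ hN0.le (by positivity)).1 h2
  have hsy : 0 < Real.sqrt (nm y : ℝ) := Real.sqrt_pos.2 (by linarith)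
  have hsk : 0 < Real.sqrt k := Real.sqrt_pos.2 hk0
  have hsM : 0 < Real.sqrt p.M2 := Real.sqrt_pos.2 hM0
  have hsP : 0 < Real.sqrt (2 * p.P) := Real.sqrt_pos.2 (by linarith)
  have key : ((GP p.P (2 * p.P)).card : ℝ) * Z0 p y ≤
      4 * (GH p.P * GH k * GH p.M2) / Real.sqrt (nm y) := by
    have hZ : Z0 p y = Real.sqrt k * Real.sqrt p.M2 /
        (2 * Real.sqrt (2 * p.P) * Real.sqrt (nm y) * Real.log p.N ^ 2) := by
      have e2 := Real.mul_self_sqrt hk0.le
      have e3 := Real.mul_self_sqrt hM0.le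
      have hmul : k * p.M2 * (2 * Real.sqrt (2 * p.P) * Real.sqrt (nm y)) =
          Real.sqrt k * Real.sqrt p.M2 * p.N := by
        calc k * p.M2 * (2 * Real.sqrt (2 * p.P) * Real.sqrt (nm y))
            = (Real.sqrt k * Real.sqrt k) * (Real.sqrt p.M2 * Real.sqrt p.M2) *
              (2 * Real.sqrt (2 * p.P) * Real.sqrt (nm y)) := by rw [e2, e3]
          _ = Real.sqrt k * Real.sqrt p.M2 * (2 * Real.sqrt (2 * p.P) * Real.sqrt k *
              Real.sqrt p.M2 * Real.sqrt (nm y)) := by ring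
          _ = _ := by rw [← hNs]
      unfold Z0
      rw [← hk, div_eq_div_iff (by positivity) (by positivity)]
      calc k * p.M2 * (2 * Real.sqrt (2 * p.P) * Real.sqrt (nm y) * Real.log p.N ^ 2)
          = k * p.M2 * (2 * Real.sqrt (2 * p.P) * Real.sqrt (nm y)) * Real.log p.N ^ 2 := by ring
        _ = _ := by
          rw [hmul]
          ring
    have hZ0 : 0 ≤ Z0 p y := by rw [hZ]; positivity
    calc ((GP p.P (2 * p.P)).card : ℝ) * Z0 p y
        ≤ (Real.sqrt (2 * p.P) * GH p.P) * Z0 p y := mul_le_mul_of_nonneg_right g3 hZ0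
      _ = 4 * (GH p.P * (1 / 2 * (Real.sqrt k / Real.log p.N)) *
            (1 / 2 * (Real.sqrt p.M2 / (2 * Real.log p.N)))) / Real.sqrt (nm y) := by
          rw [hZ]
          field_simp
          ring
      _ ≤ _ := by
          gcongr
          exact mul_nonneg g4 (GH_nonneg k)
  calc XX p y b = (VS b (PS p.w) / VP p.w) * (((GP p.P (2 * p.P)).card : ℝ) * Z0 p y) := by
        unfold XX
        ring
    _ ≤ (VS b (PS p.w) / VP p.w) * (4 * (GH p.P * GH k * GH p.M2) / Real.sqrt (nm y)) :=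
        mul_le_mul_of_nonneg_left key hV
    _ = _ := by
        unfold MM
        rw [← hk]
        field_simp
        ring

end XXBM

end Pool.Agent.Lib.MP391708.X4
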